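import Pool.Agent.K9h16.QT.Van
import Pool.Agent.K9h16.PT.Tra

/-!
The elements with a single minor.
-/

set_option autoImplicit false
set_option linter.all false

open Polynomial
open scoped Classical

namespace Pool.Agent.K9h16.QT

open Pool.Agent.K9h16.PT Pool.Agent.X243.Gen Pool.Agent.X243.Tate Pool.Agent.X243.Sol

section pur

variable {k Ω : Type} [Field k] [Field Ω] [Algebra k Ω] [IsSepClosed Ω] (h2 : (2 : Ω) ≠ 0)
  {P Q : k[X]}

/-- The transpositions which fix the roots of the other polynomial. -/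
def SwF (Ω : Type) [Field Ω] [Algebra k Ω] (P Q : k[X]) : Prop :=
  ∀ β β' : Ω, aeval β P = 0 → aeval β' P = 0 → β ≠ β' → ∃ s : Ω ≃ₐ[k] Ω,
    s β = β' ∧ s β' = β ∧ (∀ θ : Ω, aeval θ P = 0 → θ ≠ β → θ ≠ β' → s θ = θ) ∧
      ∀ θ : Ω, aeval θ Q = 0 → s θ = θ

theorem SwF.swG (h : SwF Ω P Q) : SwG Ω P := by
  intro β β' h1 h3 hne
  obtain ⟨s, s1, s3, s4, -⟩ := h β β' h1 h3 hne
  exact ⟨s, s1, s3, s4⟩

/-- Moving a pair of roots. -/
theorem SwF.mv (h : SwF Ω P Q) {β β' p q : Ω} (h1 : aeval β P = 0) (h1' : aeval β' P = 0)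
    (h3 : aeval p P = 0) (h3' : aeval q P = 0) (hne : β ≠ β') (hpq : p ≠ q) :
    ∃ u : Ω ≃ₐ[k] Ω, u β = p ∧ u β' = q ∧ ∀ θ : Ω, aeval θ Q = 0 → u θ = θ := by
  obtain ⟨u1, e1, f1⟩ : ∃ u : Ω ≃ₐ[k] Ω, u β = p ∧ ∀ θ : Ω, aeval θ Q = 0 → u θ = θ := by
    by_cases hb : β = p
    · exact ⟨1, hb, fun θ _ => rfl⟩
    · obtain ⟨s, s1, -, -, s4⟩ := h β p h1 h3 hb
      exact ⟨s, s1, s4⟩
  have hx : aeval (u1 β') P = 0 := root_map u1 h1'
  have hxp : u1 β' ≠ p := by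
    rw [← e1]
    exact fun e => hne (u1.injective e).symm
  by_cases hb : u1 β' = q
  · exact ⟨u1, e1, hb, f1⟩
  · obtain ⟨s, s1, -, s3, s4⟩ := h (u1 β') q hx h3' hb
    refine ⟨s * u1, ?_, s1, fun θ hθ => ?_⟩
    · show s (u1 β) = p
      rw [e1]
      exact s3 p h3 hxp.symm hpq
    · show s (u1 θ) = θ
      rw [f1 θ hθ, s4 θ hθ]

include h2 in
/-- The commutators. -/
theorem comm_gen (hco : IsCoprime P Q) {s : Ω ≃ₐ[k] Ω} (hsP : ∀ θ : Ω, aeval θ P = 0 → s θ = θ)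
    (hsQ : ∀ θ : Ω, aeval θ Q = 0 → s θ = θ) (t : Ω ≃ₐ[k] Ω) :
    (∀ θ : Ω, aeval θ P = 0 → (s * (t * s⁻¹ * t⁻¹)) θ = θ) ∧
    (∀ θ : Ω, aeval θ Q = 0 → (s * (t * s⁻¹ * t⁻¹)) θ = θ) ∧
    (∀ c : k, c ≠ 0 → sg (s * (t * s⁻¹ * t⁻¹)) (algebraMap k Ω c) = 0) ∧
    ∀ θ η : Ω, aeval θ P = 0 → aeval η Q = 0 →
      sg (s * (t * s⁻¹ * t⁻¹)) (θ - η) = sg s (θ - η) + sg s (t⁻¹ θ - t⁻¹ η) := by
  have gapp : ∀ x, (s * (t * s⁻¹ * t⁻¹)) x = s (t (s⁻¹ (t⁻¹ x))) := fun x => rfl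
  have tt' : ∀ x, t (t⁻¹ x) = x := fun x => t.apply_symm_apply x
  refine ⟨fun θ hθ => ?_, fun θ hθ => ?_, fun c hc => ?_, fun θ η hθ hη => ?_⟩
  · rw [gapp, fix_inv (hsP _ (root_map t⁻¹ hθ)), tt', hsP θ hθ]
  · rw [gapp, fix_inv (hsQ _ (root_map t⁻¹ hθ)), tt', hsQ θ hθ]
  · have hc' : algebraMap k Ω c ≠ 0 := (_root_.map_ne_zero _).2 hc
    rw [sg_mul_l h2 hc' (s.commutes c) (AlgEquiv.commutes _ c),
      sg_mul_l h2 hc' (AlgEquiv.commutes _ c) (AlgEquiv.commutes _ c),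
      sg_mul_l h2 hc' (AlgEquiv.commutes _ c) (AlgEquiv.commutes _ c),
      sg_inv h2 hc' (s.commutes c), sg_inv h2 hc' (t.commutes c)]
    have : ∀ x y : ZMod 2, x + (y + x + y) = 0 := by decide
    exact this _ _
  · have hne : ∀ θ η : Ω, aeval θ P = 0 → aeval η Q = 0 → θ - η ≠ 0 := by
      intro θ η hθ hη e
      rw [sub_eq_zero] at e
      subst e
      exact cop_ne hco hθ hη
    exact sg_comm h2 (hne θ η hθ hη) (hne _ _ (root_map t⁻¹ hθ) (root_map t⁻¹ hη))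
      (by rw [map_sub, hsP θ hθ, hsQ η hη])
      (by rw [map_sub, hsP _ (root_map t⁻¹ hθ), hsQ _ (root_map t⁻¹ hη)]) (map_sub _ _ _)

include h2 in
theorem pure_of (hco : IsCoprime P Q) (hP : SwF Ω P Q) (hQ : SwF Ω Q P)
    (hm : ∃ (s : Ω ≃ₐ[k] Ω) (p q y y' : Ω), aeval p P = 0 ∧ aeval q P = 0 ∧ aeval y Q = 0 ∧
      aeval y' Q = 0 ∧
      (∀ θ : Ω, aeval θ P = 0 → s θ = θ) ∧ (∀ θ : Ω, aeval θ Q = 0 → s θ = θ) ∧
      sg s (p - y) + sg s (q - y) + sg s (p - y') + sg s (q - y') = 1) : PureG Ω P Q := by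
  obtain ⟨s, p, q, y, y', hp, hq, hy, hy', hsP, hsQ, hmin⟩ := hm
  have hpq : p ≠ q := by
    rintro rfl
    rw [zz, zero_add, zz] at hmin
    exact zero_ne_one hmin
  have hyy : y ≠ y' := by
    rintro rfl
    have : ∀ a b : ZMod 2, a + b + a + b ≠ 1 := by decide
    exact this _ _ hmin
  obtain ⟨t, t1, t2, t3, t4⟩ := hP p q hp hq hpq
  obtain ⟨t', t1', t2', t3', t4'⟩ := hQ y y' hy hy' hyy
  obtain ⟨w0, hw0⟩ : ∃ w, w = s * (t * s⁻¹ * t⁻¹) := ⟨_, rfl⟩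
  obtain ⟨w1, hw1⟩ : ∃ w, w = w0 * (t' * w0⁻¹ * t'⁻¹) := ⟨_, rfl⟩
  obtain ⟨a1, a2, -, a4⟩ := comm_gen h2 hco hsP hsQ t
  rw [← hw0] at a1 a2 a4
  obtain ⟨b1, b2, b3, b4⟩ := comm_gen h2 hco a1 a2 t'
  rw [← hw1] at b1 b2 b3 b4
  have inv_of : ∀ (v : Ω ≃ₐ[k] Ω) (x z : Ω), v x = z → v⁻¹ z = x := by
    intro v x z h
    rw [← h]
    exact v.symm_apply_apply x
  have val : ∀ θ η : Ω, aeval θ P = 0 → aeval η Q = 0 →
      sg w1 (θ - η) = (ee p θ + ee q θ) * (ee y η + ee y' η) := by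
    intro θ η hθ hη
    have e1 : t'⁻¹ θ = θ := fix_inv (t4' θ hθ)
    have e3 : aeval (t'⁻¹ η) Q = 0 := root_map t'⁻¹ hη
    have e2 : t⁻¹ η = η := fix_inv (t4 η hη)
    have e4 : t⁻¹ (t'⁻¹ η) = t'⁻¹ η := fix_inv (t4 _ e3)
    rw [b4 θ η hθ hη, e1, a4 θ η hθ hη, a4 θ _ hθ e3, e2, e4]
    by_cases hθp : θ = p
    · subst hθp
      rw [inv_of t q θ t2, ee_self, ee_ne hpq]
      by_cases hηy : η = y
      · subst hηy
        rw [inv_of t' y' η t2', ee_self, ee_ne hyy]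
        rw [← add_assoc, hmin]
        decide
      · by_cases hηy' : η = y'
        · subst hηy'
          rw [inv_of t' y η t1', ee_self, ee_ne hyy.symm]
          rw [add_comm, ← add_assoc, hmin]
          decide
        · rw [fix_inv (t3' η hη hηy hηy'), ee_ne hηy, ee_ne hηy', zz]
          ring
    · by_cases hθq : θ = q
      · subst hθq
        rw [inv_of t p θ t1, ee_self, ee_ne hpq.symm]
        by_cases hηy : η = y
        · subst hηy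
          rw [inv_of t' y' η t2', ee_self, ee_ne hyy]
          have : ∀ a b c d : ZMod 2, a + b + c + d = 1 → b + a + (d + c) = (0 + 1) * (1 + 0) := by
            decide
          exact this _ _ _ _ hmin
        · by_cases hηy' : η = y'
          · subst hηy'
            rw [inv_of t' y η t1', ee_self, ee_ne hyy.symm]
            have : ∀ a b c d : ZMod 2, a + b + c + d = 1 → d + c + (b + a) = (0 + 1) * (0 + 1) := by
              decide
            exact this _ _ _ _ hmin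
          · rw [fix_inv (t3' η hη hηy hηy'), ee_ne hηy, ee_ne hηy', zz]
            ring
      · rw [fix_inv (t3 θ hθ hθp hθq), ee_ne hθp, ee_ne hθq, zz, zz]
        ring
  intro β β' e e' r1 r2 d1 d2 hbb hee
  obtain ⟨u, u1, u2, u3⟩ := hP.mv r1 r2 hp hq hbb hpq
  obtain ⟨v, v1, v2, v3⟩ := hQ.mv d1 d2 hy hy' hee hyy
  obtain ⟨g, hg⟩ : ∃ g, g = u * v := ⟨_, rfl⟩
  have gP : ∀ θ : Ω, aeval θ P = 0 → g θ = u θ := by
    intro θ hθ
    rw [hg]
    show u (v θ) = u θ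
    rw [v3 θ hθ]
  have gQ : ∀ θ : Ω, aeval θ Q = 0 → g θ = v θ := by
    intro θ hθ
    rw [hg]
    show u (v θ) = v θ
    exact u3 _ (root_map v hθ)
  have hne : ∀ θ η : Ω, aeval θ P = 0 → aeval η Q = 0 → θ - η ≠ 0 := by
    intro θ η hθ hη e
    rw [sub_eq_zero] at e
    subst e
    exact cop_ne hco hθ hη
  have hfix : ∀ x : Ω, w1 (g x) = g x → (g⁻¹ * w1 * g) x = x := by
    intro x hx
    show g⁻¹ (w1 (g x)) = x
    rw [hx]
    exact g.symm_apply_apply x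
  refine ⟨g⁻¹ * w1 * g, fun θ hθ => hfix θ (b1 _ (root_map g hθ)),
    fun θ hθ => hfix θ (b2 _ (root_map g hθ)), fun c hc => ?_, fun θ η hθ hη => ?_⟩
  · rw [sg_conj h2 ((_root_.map_ne_zero _).2 hc) (by rw [g.commutes, w1.commutes]), g.commutes,
      b3 c hc]
  · rw [sg_conj h2 (hne θ η hθ hη) (by
      rw [map_sub, map_sub, b1 _ (root_map g hθ), b2 _ (root_map g hη)]), map_sub,
      val _ _ (root_map g hθ) (root_map g hη), gP θ hθ, gQ η hη]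
    have key : ∀ (m : Ω ≃ₐ[k] Ω) (x z w : Ω), m x = z → ee z (m w) = ee x w := by
      intro m x z w h
      by_cases hw : w = x
      · rw [hw, h, ee_self, ee_self]
      · rw [ee_ne hw, ee_ne (by rw [← h]; exact fun h' => hw (m.injective h'))]
    rw [key u β p θ u1, key u β' q θ u2, key v e y η v1, key v e' y' η v2]

end pur

section fin

variable {k Ω : Type} [Field k] [Field Ω] [Algebra k Ω] [IsSepClosure k Ω]

theorem swF_of {P Q : k[X]} (hP : P.Separable) (hQ : Q.Separable) (hf : FullG P)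
    (h : PairG Q P) : SwF Ω P Q := by
  intro β β' h1 h3 hne
  obtain ⟨x, hx⟩ : ∃ x : P.rootSet Ω, (x : Ω) = β := ⟨⟨β, (mem_rs hP.ne_zero).2 h1⟩, rfl⟩
  obtain ⟨y, hy⟩ : ∃ x : P.rootSet Ω, (x : Ω) = β' := ⟨⟨β', (mem_rs hP.ne_zero).2 h3⟩, rfl⟩
  have hxy : x ≠ y := by
    rintro rfl
    exact hne (hx.symm.trans hy)
  obtain ⟨σ, s1, s2⟩ := all_swaps (Ω := Ω) hQ hP hf h hxy
  refine ⟨σ, ?_, ?_, fun θ hθ n1 n2 => ?_, s1⟩
  · have h4 := s2 x
    rw [sw_apply, if_pos rfl, hx, hy] at h4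
    exact h4
  · have h4 := s2 y
    rw [sw_apply, if_neg hxy.symm, if_pos rfl, hx, hy] at h4
    exact h4
  · have h4 := s2 ⟨θ, (mem_rs hP.ne_zero).2 hθ⟩
    rw [sw_apply, if_neg (fun e => n1 (by rw [← hx, ← e])),
      if_neg (fun e => n2 (by rw [← hy, ← e]))] at h4
    exact h4

/-- **The group theory.** -/
theorem pureG_of (h2 : (2 : Ω) ≠ 0) {P Q : k[X]} (hP : P.Separable) (hQ : Q.Separable)
    (hco : IsCoprime P Q) (fP : FullG P) (fQ : FullG Q) (h : PairG Q P) (h' : PairG P Q)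
    (hm : MinG P Q) : PureG Ω P Q := by
  haveI : IsSepClosed Ω := IsSepClosure.sep_closed k
  obtain ⟨s, p, q, y, y', s1, s3, s4⟩ := min_acts (Ω := Ω) h2 hP hQ (fun θ η hθ hη e => by
    rw [sub_eq_zero] at e
    subst e
    exact cop_ne hco hθ hη) hm
  exact pure_of h2 hco (swF_of hP hQ fP h) (swF_of hQ hP fQ h') ⟨s, p, q, y, y', rs_root p,
    rs_root q, rs_root y, rs_root y', s1, s3, s4⟩

theorem five_of {P : k[X]} (hP : P.Separable) (h5 : 5 ≤ P.natDegree) : Five Ω P := by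
  haveI : IsSepClosed Ω := IsSepClosure.sep_closed k
  have hsp : (P.map (algebraMap k Ω)).Splits := IsSepClosed.splits_of_separable _ hP.map
  have hc : 5 ≤ Nat.card (P.rootSet Ω) := by
    rw [Nat.card_eq_fintype_card, card_rootSet_eq_natDegree hP hsp]
    exact h5
  intro x y
  obtain ⟨S, hS⟩ : ∃ S : Finset Ω, S = (P.rootSet Ω).toFinset := ⟨_, rfl⟩
  have hSc : 5 ≤ S.card := by
    rw [hS, Set.toFinset_card, ← Nat.card_eq_fintype_card]
    exact hc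
  have h3 : 3 ≤ ((S.erase x).erase y).card := by
    have h1 := Finset.pred_card_le_card_erase (s := S) (a := x)
    have h2 := Finset.pred_card_le_card_erase (s := S.erase x) (a := y)
    omega
  obtain ⟨T, hT, hTc⟩ := Finset.exists_subset_card_eq h3
  obtain ⟨z1, z2, z3, n12, n13, n23, hTe⟩ := Finset.card_eq_three.1 hTc
  have key : ∀ z ∈ T, aeval z P = 0 ∧ z ≠ x ∧ z ≠ y := by
    intro z hz
    have h1 := hT hz
    rw [Finset.mem_erase, Finset.mem_erase] at h1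
    refine ⟨?_, h1.2.1, h1.1⟩
    have h4 := h1.2.2
    rw [hS, Set.mem_toFinset] at h4
    exact (mem_rs hP.ne_zero).1 h4
  have k1 := key z1 (by rw [hTe]; simp)
  have k2 := key z2 (by rw [hTe]; simp)
  have k3 := key z3 (by rw [hTe]; simp)
  exact ⟨z1, z2, z3, k1.1, k2.1, k3.1, n12, n13, n23, k1.2.1, k1.2.2, k2.2.1, k2.2.2, k3.2.1,
    k3.2.2⟩

end fin

end Pool.Agent.K9h16.QT
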