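import Pool.Agent.K9h16.QT.TrT
import Pool.Agent.K9h16.QT.Pur
import Pool.Agent.K9h16.PT.Fin

/-!
All the finite separable extensions of the field of constants and all the twists by constants.
-/

set_option autoImplicit false
set_option linter.all false

open Polynomial IsDedekindDomain WeierstrassCurve WeierstrassCurve.Affine
open scoped Classical Pointwise

namespace Pool.Agent.K9h16.QT

open Pool.Agent.TH115.GD Pool.Agent.K9h16.PT Pool.Agent.R939.EI
open Pool.Agent.X243.Gen Pool.Agent.X243.Tate Pool.Agent.X243.Sol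

theorem Sd.twist {k L : Type} [Field k] [Field L] [Algebra k L] {a b : k[X]} (hS : Sd a b) {δ : L}
    (hδ : δ ≠ 0) : Sd (C δ * a.map (algebraMap k L)) (C (δ ^ 2) * b.map (algebraMap k L)) := by
  have hδ2 : δ ^ 2 ≠ 0 := pow_ne_zero 2 hδ
  have hu : IsUnit (C (δ ^ 2) : L[X]) := isUnit_C.2 (isUnit_iff_ne_zero.2 hδ2)
  have e : (C δ * a.map (algebraMap k L)) ^ 2 - 4 * (C (δ ^ 2) * b.map (algebraMap k L)) =
      C (δ ^ 2) * (a ^ 2 - 4 * b).map (algebraMap k L) := by
    rw [Polynomial.map_sub, Polynomial.map_mul, Polynomial.map_pow, Polynomial.map_ofNat, C_pow]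
    ring
  refine ⟨?_, ?_, ?_, ?_, ?_, ?_⟩
  · rw [← map_ofNat (algebraMap k L) 2]
    exact (_root_.map_ne_zero _).2 hS.h2
  · exact Separable.unit_mul hu hS.sb.map
  · rw [e]
    exact Separable.unit_mul hu hS.sd.map
  · rw [e]
    exact (isCoprime_mul_unit_left hu _ _).2 (hS.cop.map (mapRingHom (algebraMap k L)))
  · rw [natDegree_C_mul hδ2, natDegree_map]
    exact hS.db
  · rw [e, natDegree_C_mul hδ2, natDegree_map]
    exact hS.dd

/-- The group theoretic conditions. -/
structure GC {k : Type} [Field k] (a b : k[X]) : Prop where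
  S : Sd a b
  fb : FullG b
  fd : FullG (a ^ 2 - 4 * b)
  bd : PairG b (a ^ 2 - 4 * b)
  db : PairG (a ^ 2 - 4 * b) b
  mn : MinG b (a ^ 2 - 4 * b)
  nb : 5 ≤ b.natDegree
  nd : 5 ≤ (a ^ 2 - 4 * b).natDegree

section fin

variable {k L L' K F : Type} [Field k] [Field L] [Field L'] [Algebra k L] [Algebra L L']
    [Algebra k L'] [IsScalarTower k L L'] [FiniteDimensional k L] [Algebra.IsSeparable k L]
    [Field K] [Algebra L[X] K] [Field F] [Algebra L'[X] F] [IsFractionRing L'[X] F] [Algebra K F]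
    (hT : IsTower L L' K F)

include hT in
theorem fin_nul {a b : k[X]} (hG : GC a b) {δ : L} (hδ : δ ≠ 0)
    {c : Cc (crvT (algebraMap L[X] K (C δ * a.map (algebraMap k L)))
      (algebraMap L[X] K (C (δ ^ 2) * b.map (algebraMap k L)))) F}
    (hc : IsTateClass L' _ c) : Nul _ c := by
  haveI := hT.sep
  haveI := hT.fracK
  haveI : IsSepClosed L' := IsSepClosure.sep_closed L
  haveI : Algebra.IsSeparable L L' := IsSepClosure.separable
  haveI : Algebra.IsSeparable k L' := Algebra.IsSeparable.trans k L L'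
  haveI : IsSepClosure k L' := ⟨inferInstance, inferInstance⟩
  haveI : IsGalois k L' := IsSepClosure.isGalois
  have hS := hG.S
  have h2 := hS.h2
  obtain ⟨K1, _, _, _, hT1⟩ := mk_tower k L' F
  haveI := hT1.fracK
  have h2L' : (2 : L') ≠ 0 := by
    rw [← map_ofNat (algebraMap k L') 2]
    exact (map_ne_zero_iff _ (algebraMap k L').injective).2 h2
  haveI : NeZero ((2 : ℕ) : L') := ⟨by rw [Nat.cast_ofNat]; exact h2L'⟩
  obtain ⟨ρ, hρ⟩ : ∃ ρ : L', ρ ^ 2 = algebraMap L L' δ⁻¹ := IsSepClosed.exists_pow_nat_eq _ 2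
  have hδ' : algebraMap L L' δ ≠ 0 := (_root_.map_ne_zero _).2 hδ
  have hρ0 : ρ ≠ 0 := by
    rintro rfl
    rw [zero_pow two_ne_zero, map_inv₀] at hρ
    exact inv_ne_zero hδ' hρ.symm
  -- the transport
  have htr : IsTrT (F := F) (algebraMap L[X] K (C δ * a.map (algebraMap k L)))
      (algebraMap L[X] K (C (δ ^ 2) * b.map (algebraMap k L)))
      (algebraMap k[X] K1 a) (algebraMap k[X] K1 b) (cst L' F ρ) := by
    have e0 : ∀ (p : k[X]) (x : L'), x ≠ 0 → algebraMap K1 F (algebraMap k[X] K1 p) =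
        cst L' F x⁻¹ * algebraMap L'[X] F (C x * p.map (algebraMap k L')) := by
      intro p x hx
      rw [hT1.map, map_mul, ← mul_assoc]
      have e1 : cst L' F x⁻¹ * algebraMap L'[X] F (C x) = 1 := by
        have : cst L' F x⁻¹ = algebraMap L'[X] F (C x⁻¹) := rfl
        rw [this, ← map_mul, ← C_mul, inv_mul_cancel₀ hx, C_1, map_one]
      rw [e1, one_mul]
    refine ⟨(_root_.map_ne_zero _).2 hρ0, ?_, ?_⟩
    · rw [e0 a _ hδ', hT.map, Polynomial.map_mul, map_C, Polynomial.map_map,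
        ← IsScalarTower.algebraMap_eq, ← map_pow, hρ, map_inv₀ (algebraMap L L')]
    · have e4 : ρ ^ 4 = algebraMap L L' (δ ^ 2)⁻¹ := by
        have : ρ ^ 4 = (ρ ^ 2) ^ 2 := by ring
        rw [this, hρ, ← map_pow, inv_pow]
      rw [e0 b _ (pow_ne_zero 2 hδ'), hT.map, Polynomial.map_mul, map_C, Polynomial.map_map,
        ← IsScalarTower.algebraMap_eq, ← map_pow (cst L' F), e4, map_inv₀ (algebraMap L L'),
        map_pow (algebraMap L L')]
  -- the field `M`
  obtain ⟨S, hSS⟩ : ∃ S : Set L', S = {ρ} ∪ Set.range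
    (fun i => algebraMap L L' (Module.finBasis k L i)) := ⟨_, rfl⟩
  have hSf : S.Finite := by
    rw [hSS]
    exact (Set.finite_singleton _).union (Set.finite_range _)
  haveI : Finite S := hSf
  obtain ⟨M, hM⟩ : ∃ M : FiniteGaloisIntermediateField k L',
    M = FiniteGaloisIntermediateField.adjoin k S := ⟨_, rfl⟩
  have hSM : ∀ x ∈ S, x ∈ M.toIntermediateField := by
    rw [hM]
    exact fun x hx => FiniteGaloisIntermediateField.subset_adjoin k S hx
  have hρM : ρ ∈ M.toIntermediateField := hSM _ (by rw [hSS]; exact Or.inl rfl)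
  have hLM : ∀ x : L, algebraMap L L' x ∈ M.toIntermediateField := by
    intro x
    rw [← (Module.finBasis k L).sum_repr x, map_sum]
    refine sum_mem fun i _ => ?_
    rw [Algebra.smul_def, map_mul, ← IsScalarTower.algebraMap_apply]
    exact mul_mem (M.toIntermediateField.algebraMap_mem _)
      (hSM _ (by rw [hSS]; exact Or.inr ⟨i, rfl⟩))
  have hpc : PC L' _ (⊤ : Subgroup (Sep F ≃ₐ[K] Sep F)) c := ⟨hc.tc, hc.loc, fun τ _ => hc.inv τ⟩
  have hpc1 := pc_tr htr (H' := HM L' K1 F (M.toIntermediateField : Set L')) (fun τ' hτ' => by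
    obtain ⟨s, hs⟩ := exists_restr hT1 τ'
    have hsM := (lifts_mem_HM hs _).1 hτ'
    have hfix : ∀ p : L[X], τ' (algebraMap K (Sep F) (algebraMap L[X] K p)) =
        algebraMap K (Sep F) (algebraMap L[X] K p) := by
      intro p
      rw [IsScalarTower.algebraMap_apply K F (Sep F), hT.map, hs, Polynomial.map_map]
      congr 3
      ext x
      exact hsM _ (hLM x)
    refine ⟨AlgEquiv.ofRingEquiv (f := τ'.toRingEquiv) (by
      intro x
      obtain ⟨n, d, hd, rfl⟩ := IsFractionRing.div_surjective (A := L[X]) x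
      show τ' _ = _
      rw [map_div₀, map_div₀, hfix, hfix]), trivial, fun x => rfl, ?_⟩
    exact hτ' ρ hρM) hpc
  haveI : FiniteDimensional k M.toIntermediateField := M.finiteDimensional
  haveI : IsGalois k M.toIntermediateField := M.isGalois
  haveI : Normal k M.toIntermediateField := inferInstance
  have hN : Preserves K1 F (Sep F) := preserves hT1.map
  refine nul_tr' htr (van hT1 hS hN (HM_normal hT1 M.toIntermediateField)
    (HM_fin hT1 M.toIntermediateField) ?_ ?_ ?_ ?_ ?_ hpc1)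
  · exact (swF_of hS.sb hS.sd hG.fb hG.db).swG
  · exact (swF_of hS.sd hS.sb hG.fd hG.bd).swG
  · exact pureG_of h2L' hS.sb hS.sd hS.cop hG.fb hG.fd hG.db hG.bd hG.mn
  · exact five_of hS.sb hG.nb
  · exact five_of hS.sd hG.nd

include hT in
/-- The Tate conjecture at two and the vanishing. -/
theorem fin_main {a b : k[X]} (hG : GC a b) {δ : L} (hδ : δ ≠ 0) :
    TateAtTwo (F := F) L' (crvT (algebraMap L[X] K (C δ * a.map (algebraMap k L)))
      (algebraMap L[X] K (C (δ ^ 2) * b.map (algebraMap k L)))) ∧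
    GeneratedBy (F := F) L' (crvT (algebraMap L[X] K (C δ * a.map (algebraMap k L)))
      (algebraMap L[X] K (C (δ ^ 2) * b.map (algebraMap k L)))) 0 := by
  haveI := hT.sep
  haveI := hT.fracK
  have hST : Sd (C δ * a.map (algebraMap k L)) (C (δ ^ 2) * b.map (algebraMap k L)) :=
    hG.S.twist hδ
  obtain ⟨α, γ, hR⟩ := exists_rts hT hST
  have hnul := fun c (hc : IsTateClass (F := F) L' _ c) => fin_nul hT hG hδ hc
  refine ⟨?_, 0, fun i => i.elim0, le_rfl, fun i => i.elim0, fun c hc n => ?_⟩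
  · intro c hc hl hi n
    obtain ⟨R, hR0, e⟩ := hnul c ⟨hc, hl, hi⟩ n
    have hfix : ∀ σ : Sep F ≃ₐ[F] Sep F, act _ (rs K σ) (2 ^ n • R) = 2 ^ n • R := by
      intro σ
      have h3 := pow_tc hc n σ
      rw [e σ, smul_sub, sub_eq_zero, ← map_nsmul] at h3
      exact h3
    have h3 := tors_Wc hT hST hR (X := 2 ^ n • R) (m := 1) hfix (by
      rw [smul_smul, pow_one, ← pow_succ', hR0])
    haveI : IsSepClosure K (Sep F) := sepKΩ (Ω := Sep F) hT.map
    haveI : IsGalois K (Sep F) := IsSepClosure.isGalois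
    obtain ⟨P, hP⟩ := fixed_point (K := K) (F := K) (Ω := Sep F) _ (2 ^ n • R)
      (fun τ => by
        rcases h3 with h | h
        · rw [h, map_zero]
        · rw [h]
          exact hR.pt0_act _)
    exact ⟨P, R, hP.symm, e⟩
  · obtain ⟨R, hR, e⟩ := hnul c hc n
    refine ⟨fun i => i.elim0, R, hR, fun σ => ?_⟩
    rw [e σ, Finset.univ_eq_empty, Finset.sum_empty, zero_add]

end fin

end Pool.Agent.K9h16.QT
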