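import Pool.Agent.K9h16.QT.Kth

/-!
All the classes vanish.
-/

set_option autoImplicit false
set_option linter.all false

open Polynomial IsDedekindDomain WeierstrassCurve WeierstrassCurve.Affine
open scoped Classical Pointwise

namespace Pool.Agent.K9h16.QT

open Pool.Agent.TH115.GD Pool.Agent.K9h16.PT Pool.Agent.R939.EI

section tow

variable {k k' K F : Type} [Field k] [Field k'] [Algebra k k'] [Field K] [Algebra k[X] K]
    [Field F] [Algebra k'[X] F] [IsFractionRing k'[X] F] [Algebra K F]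
    (hT : IsTower k k' K F) {a b : k[X]} (hS : Sd a b)
  (hN : Preserves K F (Sep F)) {H : Subgroup (Sep F ≃ₐ[K] Sep F)} (hH : H.Normal)
  (hfin : H.FiniteIndex)

include hT hS in
/-- The descent for one class. -/
theorem desc [NeZero (2 : K)] {a₁ b₁ u u' : K}
    (D1 : Dat (algebraMap k[X] K a) (algebraMap k[X] K b) a₁ b₁ u)
    (D2 : Dat a₁ b₁ (algebraMap k[X] K a) (algebraMap k[X] K b) u') (huu : u * u' = 2)
    {c : Cc (Wc K a b) F} (hc : PC k' (Wc K a b) H c)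
    (hκ : ∀ f : k' → ZMod 2, PF (Wc K a b) (c 1) f → ∃ κ : ZMod 2, ∀ θ : k', aeval θ b = 0 → f θ = κ) :
    ∃ e : Cc (crvT a₁ b₁) F, PC k' (crvT a₁ b₁) H e ∧ Nul (Wc K a b) (c - push (isoN D2) e) := by
  haveI := hT.fracK
  obtain ⟨α, γ, hR⟩ := exists_rts hT hS
  obtain ⟨f, hf⟩ := pf_exists hR k' (hc.tc.coc 1) (two_tc hc.tc)
  obtain ⟨κ, hκ⟩ := hκ f hf
  obtain ⟨ν, hν, hνn, hνp⟩ := exists_nu hT hS hR H
  -- the corrected class
  obtain ⟨μ, hμ, hμn, hμp⟩ : ∃ μ : Cc (Wc K a b) F, PC k' (Wc K a b) H μ ∧ Nul (Wc K a b) μ ∧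
      ∀ f : k' → ZMod 2, PF (Wc K a b) (μ 1) f → ∀ θ : k', aeval θ b = 0 → f θ = κ := by
    rcases zcases κ with h | h
    · refine ⟨0, PC.zero, Nul.zero, fun f hf θ _ => ?_⟩
      rw [pf_unique hf (pf_zero' hR), h]
      rfl
    · exact ⟨ν, hν, hνn, fun f hf θ hθ => by rw [h]; exact hνp f hf θ hθ⟩
  have hd : PC k' (Wc K a b) H (c - μ) := by
    rw [sub_eq_add_neg]
    exact hc.add hμ.neg
  obtain ⟨g, hg⟩ := pf_exists hR k' (hμ.tc.coc 1) (two_tc hμ.tc)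
  have hfg := pf_sub hR hf hg (two_tc hc.tc) (two_tc hμ.tc)
  have hone : ∀ σ, (c - μ) 1 σ = 0 ∨ (c - μ) 1 σ = pt0 hR.E := fun σ => by
    refine pf_zero hT hS hR (g := (c - μ) 1) (two_tc hd.tc) (hd.loc 1) hfg (fun θ hθ => ?_) σ
    rw [Pi.add_apply, hκ θ hθ, hμp g hg θ hθ]
    exact zz _
  have hk : ∀ σ, (isoN D1).f (Sep F) ((c - μ) 1 σ) = 0 := fun σ => (iso_ker hR D1).2 (hone σ)
  have h12 : ∀ P : Pt (Wc K a b) (Sep F),
      (isoN D2).f (Sep F) ((isoN D1).f (Sep F) P) = P + P := fun P =>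
    isoH_dbl (Sep F) D1 D2 huu P
  refine ⟨shp (isoN D1) (c - μ), pc_shp (isoN D1) hd hk, ?_⟩
  rw [push_shp (isoN D1) (isoN D2) h12 hd.tc]
  have : c - (c - μ) = μ := by abel
  rw [this]
  exact hμn

include hT hS hN hH in
/-- **All the classes vanish.** -/
theorem all_nul
    (h1 : ∀ c : Cc (Wc K a b) F, PC k' (Wc K a b) H c → ∀ f : k' → ZMod 2,
      PF (Wc K a b) (c 1) f → ∃ κ : ZMod 2, ∀ θ : k', aeval θ b = 0 → f θ = κ)
    (h2 : ∀ c : Cc (Wc K (-2 * a) (a ^ 2 - 4 * b)) F,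
      PC k' (Wc K (-2 * a) (a ^ 2 - 4 * b)) H c → ∀ f : k' → ZMod 2,
      PF (Wc K (-2 * a) (a ^ 2 - 4 * b)) (c 1) f →
        ∃ κ : ZMod 2, ∀ θ : k', aeval θ (a ^ 2 - 4 * b) = 0 → f θ = κ)
    {c : Cc (Wc K a b) F} (hc : PC k' (Wc K a b) H c) : Nul (Wc K a b) c := by
  haveI := hT.fracK
  haveI : NeZero (2 : K) := ⟨tt hS.h2⟩
  have hS' := hS.dual
  have D1 := dat1 (K := K) hS
  have D2 := dat2 (K := K) hS
  obtain ⟨α, γ, hR⟩ := exists_rts hT hS
  have key : ∀ c : Cc (Wc K a b) F, PC k' (Wc K a b) H c →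
      ∃ z : Cc (Wc K a b) F, PC k' (Wc K a b) H z ∧ Nul (Wc K a b) (c - (z + z)) := by
    intro c hc
    obtain ⟨e, he, hen⟩ := desc hT hS D1 D2 (one_mul 2) hc (h1 c hc)
    obtain ⟨z, hz, hzn⟩ := desc hT hS' D2 D1 (mul_one 2) he (h2 e he)
    refine ⟨z, hz, ?_⟩
    have h12 : ∀ P : Pt (Wc K a b) (Sep F),
        (isoN D2).f (Sep F) ((isoN D1).f (Sep F) P) = P + P := fun P =>
      isoH_dbl (Sep F) D1 D2 (one_mul 2) P
    have h3 := nul_push (isoN D2) hzn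
    rw [push_sub] at h3
    have h4 : push (isoN D2) (push (isoN D1) z) = z + z := push_push (isoN D1) (isoN D2) h12 z
    have h5 := hen.add h3
    have h6 : c - push (isoN D2) e + (push (isoN D2) e - push (isoN D2) (push (isoN D1) z)) =
        c - (z + z) := by
      rw [h4]
      abel
    rw [← h6]
    exact h5
  have hdiv : ∀ v : UU k' (Wc K a b) H ⧸ NN k' (Wc K a b) H, ∃ w, v = (2 : ℤ) • w := by
    intro v
    obtain ⟨x, rfl⟩ := QuotientAddGroup.mk_surjective v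
    obtain ⟨z, hz, hn⟩ := key x.1 x.2
    obtain ⟨y, hy⟩ : ∃ y : UU k' (Wc K a b) H, y = ⟨z, hz⟩ := ⟨_, rfl⟩
    refine ⟨QuotientAddGroup.mk y, ?_⟩
    rw [two_zsmul, ← QuotientAddGroup.mk_add, mk_eq]
    have e : (((y + y : UU k' (Wc K a b) H)) : Cc (Wc K a b) F) = z + z := by rw [hy]; rfl
    rw [e]
    exact hn
  have hpow : ∀ (j : ℕ) (v : UU k' (Wc K a b) H ⧸ NN k' (Wc K a b) H), ∃ w, v = (2 : ℤ) ^ j • w := by
    intro j
    induction j with
    | zero => exact fun v => ⟨v, by rw [pow_zero, one_smul]⟩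
    | succ j ih =>
      intro v
      obtain ⟨w, hw⟩ := ih v
      obtain ⟨u, hu⟩ := hdiv w
      exact ⟨u, by rw [hw, hu, smul_smul, ← pow_succ]⟩
  have h0 := q_hsep (QuotientAddGroup.mk (⟨c, hc⟩ : UU k' (Wc K a b) H)) (fun j => hpow j _)
  rw [QuotientAddGroup.eq_zero_iff] at h0
  exact h0

include hT hS hN hH in
/-- **The vanishing from the group theory.** -/
theorem van (hfin : H.FiniteIndex) (hsw : SwG k' b) (hsw' : SwG k' (a ^ 2 - 4 * b))
    (hpure : PureG k' b (a ^ 2 - 4 * b)) (h5 : Five k' b) (h5' : Five k' (a ^ 2 - 4 * b))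
    {c : Cc (Wc K a b) F} (hc : PC k' (Wc K a b) H c) : Nul (Wc K a b) c := by
  haveI := hT.sep
  haveI : IsSepClosed k' := IsSepClosure.sep_closed k
  have h2' : (2 : k') ≠ 0 := two_k' hS.h2
  refine all_nul hT hS hN hH (fun c hc f hf => kth hT hS hN hH hfin hsw hpure h5 h5' hc hf)
    (fun c hc f hf => ?_) hc
  refine kth hT hS.dual hN hH hfin hsw' ?_ h5' ?_ hc hf
  · exact (hpure.symm h2' hS.cop).congr (fun θ => Iff.rfl) (fun θ => root_dual hS.h2)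
  · intro x y
    obtain ⟨z1, z2, z3, r1, r2, r3, h⟩ := h5 x y
    exact ⟨z1, z2, z3, (root_dual hS.h2).2 r1, (root_dual hS.h2).2 r2, (root_dual hS.h2).2 r3, h⟩

end tow

end Pool.Agent.K9h16.QT
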