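import Pool.Agent.K9h16.QT.Evt

/-!
The coprimality and the group theoretic conditions together.
-/

set_option autoImplicit false
set_option linter.all false

open Polynomial
open scoped Classical

namespace Pool.Agent.K9h16.QT

open Pool.Agent.TH115.GD Pool.Agent.X243.Gen Pool.Agent.X243.Tate Pool.Agent.X243.Sol
open Pool.Agent.Y160.T3 Pool.Agent.K9h16.PT

theorem cop_of {k : Type} [Field k] {b d : k[X]} (hb : Irreducible b) (sb : b.Separable)
    (sd : d.Separable) (h : PairG d b) : IsCoprime b d := by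
  rcases Classical.em (IsCoprime b d) with h1 | h1
  · exact h1
  · rw [hb.coprime_iff_not_dvd, not_not] at h1
    exfalso
    obtain ⟨σ, x, y, hxy, hσ, hact⟩ := pair_acts (Ω := SeparableClosure k) sd sb h
    have h3 := hact x
    have h4 : aeval (x : SeparableClosure k) d = 0 := by
      obtain ⟨c, hc⟩ := h1
      rw [hc, map_mul, aeval_eq_zero_of_mem_rootSet x.2, zero_mul]
    rw [hσ _ h4, sw_apply, if_pos rfl] at h3
    exact hxy (Subtype.ext h3)

theorem gc_all {R k : Type} [CommRing R] [IsDomain R] [IsIntegrallyClosed R] [IsNoetherianRing R]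
    [Field k] [Algebra R k] [IsFractionRing R k] (h2 : (2 : R) ≠ 0) {m B : ℕ} (hm : 3 ≤ m)
    {y : Fin (m + 1) ⊕ Fin (2 * m + 1) → R}
    (h : ∀ s : Iq, ∃ p ∈ Zg R B,
      (fun j => Ideal.Quotient.mk p (y j)) ∈ Gq m s (R ⧸ p)) (a b : k[X])
    (ha : a = (bF (y ∘ Sum.inl)).map (algebraMap R k))
    (hb : b = (bF (y ∘ Sum.inr)).map (algebraMap R k)) :
    FF (2 * m) b ∧ FF (2 * m) (a ^ 2 - 4 * b) ∧ GC a b := by
  have h2k : (2 : k) ≠ 0 := by
    rw [← map_ofNat (algebraMap R k) 2]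
    exact (map_ne_zero_iff _ (IsFractionRing.injective R k)).2 h2
  obtain ⟨f1, f2, g1, g2, g3⟩ := gc_of (k := k) h2 hm h a b ha hb
  have e1 : b.natDegree = 2 * m := f1.1.2
  have e2 : (a ^ 2 - 4 * b).natDegree = 2 * m := f2.1.2
  refine ⟨f1, f2, ⟨⟨h2k, f1.2.1, f2.2.1, cop_of f1.1.1 f1.2.1 f2.2.1 g2, ?_, ?_⟩,
    f1.2.2, f2.2.2, g1, g2, g3, ?_, ?_⟩⟩
  · rw [e1]; omega
  · rw [e2]; omega
  · rw [e1]; omega
  · rw [e2]; omega

end Pool.Agent.K9h16.QT
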