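import Pool.Agent.K9h16.QT.Cn7

/-!
The density of the event for the minors.
-/

set_option autoImplicit false
set_option linter.all false

open Polynomial
open scoped Classical

namespace Pool.Agent.K9h16.QT

open Pool.Agent.Y160.T3 Pool.Agent.X243.Tate

/-- The function of the analysis. -/
noncomputable def phi (n : ℕ) (x : ℝ) : ℝ :=
  (1 - x) * (1 - n * x) ^ n / (2 * ((n : ℝ) - 3)) - 4 * ((1 + x) / 2) ^ n

theorem phi_pos {n : ℕ} (hn : 6 ≤ n) : 0 < phi n 0 := by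
  have h1 : 8 * (n - 3) < 2 ^ n := by
    induction n, hn using Nat.le_induction with
    | base => norm_num
    | succ n hn ih =>
      have h3 : 8 ≤ 2 ^ n := by
        calc 8 = 2 ^ 3 := by norm_num
          _ ≤ 2 ^ n := Nat.pow_le_pow_right (by norm_num) (by omega)
      rw [pow_succ]
      omega
  have h3 : (8 : ℝ) * ((n : ℝ) - 3) < 2 ^ n := by
    have h4 : ((8 * (n - 3) : ℕ) : ℝ) < ((2 ^ n : ℕ) : ℝ) := by exact_mod_cast h1
    push_cast [Nat.cast_sub (by omega : 3 ≤ n)] at h4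
    exact h4
  have h4 : (0 : ℝ) < (n : ℝ) - 3 := by
    have : (6 : ℝ) ≤ n := by exact_mod_cast hn
    linarith
  have e : phi n 0 = 1 / (2 * ((n : ℝ) - 3)) - 4 / 2 ^ n := by
    unfold phi
    simp only [mul_zero, sub_zero, one_pow, mul_one, add_zero, div_pow]
    ring
  rw [e, sub_pos, div_lt_div_iff₀ (by positivity) (by positivity)]
  linarith

theorem phi_near {n : ℕ} (hn : 6 ≤ n) : ∃ δ : ℝ, 0 < δ ∧ ∀ x : ℝ, 0 ≤ x → x < δ →
    phi n 0 / 2 ≤ phi n x := by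
  have hc : ContinuousAt (phi n) 0 := by
    unfold phi
    fun_prop
  have h1 := hc.eventually_const_lt (show phi n 0 / 2 < phi n 0 by
    have := phi_pos hn
    linarith)
  obtain ⟨δ, hδ, h3⟩ := Metric.eventually_nhds_iff.1 h1
  refine ⟨δ, hδ, fun x hx hx' => le_of_lt (h3 ?_)⟩
  rw [Real.dist_eq, sub_zero, abs_of_nonneg hx]
  exact hx'

section main

variable {F : Type} [Field F] [Fintype F] {m : ℕ}

/-- The main inequality. -/
theorem ineq7 (h2 : (2 : F) ≠ 0) (hm : 3 ≤ m) (hq : 4 * m + 2 ≤ Fintype.card F) :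
    (Fintype.card F : ℝ) ^ (4 * m + 2) / (8 * (2 * m).factorial) *
      phi (2 * m) (1 / (Fintype.card F : ℝ)) ≤
    (Fintype.card F : ℝ) ^ m * (X7 F m).card +
      2 * (Real.sqrt (Fintype.card F) * (Fintype.card F : ℝ) ^ (4 * m + 1)) ∨
    phi (2 * m) (1 / (Fintype.card F : ℝ)) ≤ 0 := by
  by_cases hφ : phi (2 * m) (1 / (Fintype.card F : ℝ)) ≤ 0
  · exact Or.inr hφ
  left
  push Not at hφ
  have hmix := mix (m := m) h2 (S7 F m) (S4F F m)
  have htt := tt_card (F := F) h2 hm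
  rw [S7_card hm, S4F_card] at hmix
  have i2 := irr_card (F := F) (N := 2) (by norm_num) (by omega)
  have i3 := irr_card (F := F) (N := 2 * m - 3) (by omega) (by omega)
  have hch : (Fintype.card F + 1 - 2 * m) ^ (2 * m) ≤
      (2 * m).factorial * (Fintype.card F).choose (2 * m) := by
    rw [← Nat.descFactorial_eq_factorial_mul_choose]
    exact Nat.pow_sub_le_descFactorial _ _
  have hch2 : (((Fintype.card F + 1) / 2).choose (2 * m) : ℝ) ≤
      (((Fintype.card F : ℝ) + 1) / 2) ^ (2 * m) / (2 * m).factorial := by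
    refine (Nat.choose_le_pow_div (α := ℝ) _ _).trans ?_
    gcongr
    calc (((Fintype.card F + 1) / 2 : ℕ) : ℝ) ≤ ((Fintype.card F + 1 : ℕ) : ℝ) / (2 : ℕ) :=
          Nat.cast_div_le
      _ = _ := by push_cast; ring
  -- real variables
  obtain ⟨q, hqd⟩ : ∃ q : ℝ, q = (Fintype.card F : ℝ) := ⟨_, rfl⟩
  obtain ⟨I2, hI2⟩ : ∃ x : ℝ, x = (Fintype.card (Irr F 2) : ℝ) := ⟨_, rfl⟩
  obtain ⟨I3, hI3⟩ : ∃ x : ℝ, x = (Fintype.card (Irr F (2 * m - 3)) : ℝ) := ⟨_, rfl⟩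
  obtain ⟨Cq, hCq⟩ : ∃ x : ℝ, x = ((Fintype.card F).choose (2 * m) : ℝ) := ⟨_, rfl⟩
  obtain ⟨Ch, hCh⟩ : ∃ x : ℝ, x = (((Fintype.card F + 1) / 2).choose (2 * m) : ℝ) := ⟨_, rfl⟩
  obtain ⟨Xc, hXc⟩ : ∃ x : ℝ, x = ((X7 F m).card : ℝ) := ⟨_, rfl⟩
  obtain ⟨Tc, hTc⟩ : ∃ x : ℝ, x = ((TT (S7 F m) (S4F F m)).card : ℝ) := ⟨_, rfl⟩
  obtain ⟨W, hW⟩ : ∃ x : ℝ, x = ((2 * m).factorial : ℝ) := ⟨_, rfl⟩
  have hWpos : 0 < W := by rw [hW]; exact_mod_cast Nat.factorial_pos _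
  have hU : (Fintype.card Fˣ : ℝ) = q - 1 := by
    rw [Fintype.card_units, Nat.cast_sub (by omega), hqd]
    norm_num
  have hq1 : (4 : ℝ) * m + 2 ≤ q := by rw [hqd]; exact_mod_cast hq
  have hm3 : (3 : ℝ) ≤ m := by exact_mod_cast hm
  have hq0 : 0 < q := by linarith
  have hq14 : 14 ≤ q := by linarith
  have hmix' : (q - 1) * (I2 * (q * I3)) * ((q - 1) * Cq) ≤
      q ^ m * Tc + Real.sqrt q * q ^ (4 * m + 1) := by
    rw [← hU, hqd, hI2, hI3, hCq, hTc]
    push_cast at hmix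
    exact hmix
  have htt' : Tc ≤ Xc + (q ^ (3 * m + 1) + I2 * (2 * ((q - 1) * Ch * (2 * q ^ (m - 1))))) := by
    rw [← hU, hTc, hXc, hqd, hI2, hCh]
    exact_mod_cast htt
  have i2' : q ^ 2 ≤ 4 * I2 := by
    rw [hqd, hI2]
    have : ((Fintype.card F ^ 2 : ℕ) : ℝ) ≤ ((2 * 2 * Fintype.card (Irr F 2) : ℕ) : ℝ) := by
      exact_mod_cast i2
    push_cast at this
    linarith
  have i3' : q ^ (2 * m - 3) ≤ 2 * (2 * (m : ℝ) - 3) * I3 := by
    rw [hqd, hI3]
    have : ((Fintype.card F ^ (2 * m - 3) : ℕ) : ℝ) ≤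
        ((2 * (2 * m - 3) * Fintype.card (Irr F (2 * m - 3)) : ℕ) : ℝ) := by
      exact_mod_cast i3
    push_cast [Nat.cast_sub (by omega : 3 ≤ 2 * m)] at this
    exact this
  have hch' : (q - 2 * m) ^ (2 * m) ≤ W * Cq := by
    have h1 : (((Fintype.card F + 1 - 2 * m) ^ (2 * m) : ℕ) : ℝ) ≤
      (((2 * m).factorial * (Fintype.card F).choose (2 * m) : ℕ) : ℝ) := by exact_mod_cast hch
    push_cast [Nat.cast_sub (by omega : 2 * m ≤ Fintype.card F + 1)] at h1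
    rw [← hqd, ← hW, ← hCq] at h1
    refine le_trans ?_ h1
    refine pow_le_pow_left₀ (by linarith) (by linarith) _
  have hch2' : Ch ≤ ((q + 1) / 2) ^ (2 * m) / W := by
    rw [hCh, hqd, hW]
    exact hch2
  rw [← hqd, ← hXc, ← hW]
  rw [← hqd] at hφ
  -- the bracket
  have hm23 : (0 : ℝ) < 2 * (m : ℝ) - 3 := by linarith
  have hI3n : 0 ≤ I3 := by rw [hI3]; positivity
  have hCqn : 0 ≤ Cq := by rw [hCq]; positivity
  have hI2n : 0 ≤ I2 := by rw [hI2]; positivity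
  have eq1 : q * q ^ (2 * m - 3) = q ^ (2 * m - 2) := by
    rw [← pow_succ']
    congr 1
    omega
  have b1 : q ^ (2 * m - 2) / (2 * (2 * (m : ℝ) - 3)) * ((q - 1) * ((q - 2 * m) ^ (2 * m) / W)) ≤
      q * I3 * ((q - 1) * Cq) := by
    have c1 : q ^ (2 * m - 2) / (2 * (2 * (m : ℝ) - 3)) ≤ q * I3 := by
      rw [div_le_iff₀ (by positivity), ← eq1]
      calc q * q ^ (2 * m - 3) ≤ q * (2 * (2 * (m : ℝ) - 3) * I3) :=
            mul_le_mul_of_nonneg_left i3' hq0.le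
        _ = q * I3 * (2 * (2 * (m : ℝ) - 3)) := by ring
    have c2 : (q - 2 * m) ^ (2 * m) / W ≤ Cq := by
      rw [div_le_iff₀ hWpos]
      linarith [hch']
    have c3 : (0 : ℝ) ≤ q - 2 * m := by linarith
    have c4 : (0 : ℝ) ≤ q - 1 := by linarith
    exact mul_le_mul c1 (mul_le_mul_of_nonneg_left c2 c4) (by positivity) (by positivity)
  have b2 : 4 * (q ^ m * q ^ (m - 1)) * Ch ≤ 4 * q ^ (2 * m - 1) * (((q + 1) / 2) ^ (2 * m) / W) := by
    have : q ^ m * q ^ (m - 1) = q ^ (2 * m - 1) := by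
      rw [← pow_add]
      congr 1
      omega
    rw [this]
    exact mul_le_mul_of_nonneg_left hch2' (by positivity)
  have b3 : q ^ (2 * m - 2) / (2 * (2 * (m : ℝ) - 3)) * ((q - 1) * ((q - 2 * m) ^ (2 * m) / W)) -
      4 * q ^ (2 * m - 1) * (((q + 1) / 2) ^ (2 * m) / W) =
      q ^ (4 * m - 1) / W * phi (2 * m) (1 / q) := by
    unfold phi
    have e1 : (1 : ℝ) - 1 / q = (q - 1) / q := by field_simp
    have e2 : (1 : ℝ) - ((2 * m : ℕ) : ℝ) * (1 / q) = (q - 2 * m) / q := by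
      push_cast
      field_simp
    have e3 : ((1 : ℝ) + 1 / q) / 2 = ((q + 1) / 2) / q := by field_simp
    have e4 : ((2 * m : ℕ) : ℝ) - 3 = 2 * (m : ℝ) - 3 := by push_cast; ring
    rw [e1, e2, e3, e4, div_pow (q - 2 * (m : ℝ)) q, div_pow ((q + 1) / 2) q]
    have e5 : q ^ (4 * m - 1) = q ^ (2 * m - 1) * q ^ (2 * m) := by
      rw [← pow_add]
      congr 1
      omega
    have e6 : q ^ (2 * m - 1) = q ^ (2 * m - 2) * q := by
      rw [← pow_succ]
      congr 1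
      omega
    rw [e5, e6]
    have hqm : q ^ (2 * m) ≠ 0 := by positivity
    generalize ((q + 1) / 2) ^ (2 * m) = A
    generalize (q - 2 * (m : ℝ)) ^ (2 * m) = D
    field_simp
  -- the conclusion
  have hkey : (q - 1) * I2 * (q ^ (4 * m - 1) / W * phi (2 * m) (1 / q)) ≤
      q ^ m * Xc + 2 * (Real.sqrt q * q ^ (4 * m + 1)) := by
    have d1 : (q - 1) * I2 * (q ^ (4 * m - 1) / W * phi (2 * m) (1 / q)) ≤
        (q - 1) * I2 * (q * I3 * ((q - 1) * Cq) - 4 * (q ^ m * q ^ (m - 1)) * Ch) := by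
      have : (0 : ℝ) ≤ (q - 1) * I2 := mul_nonneg (by linarith) hI2n
      refine mul_le_mul_of_nonneg_left ?_ this
      rw [← b3]
      linarith
    have d2 : (q - 1) * I2 * (q * I3 * ((q - 1) * Cq) - 4 * (q ^ m * q ^ (m - 1)) * Ch) =
        (q - 1) * (I2 * (q * I3)) * ((q - 1) * Cq) -
          q ^ m * (I2 * (2 * ((q - 1) * Ch * (2 * q ^ (m - 1))))) := by ring
    have d3 : q ^ m * Tc ≤ q ^ m * Xc + q ^ m * q ^ (3 * m + 1) +
        q ^ m * (I2 * (2 * ((q - 1) * Ch * (2 * q ^ (m - 1))))) := by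
      calc q ^ m * Tc ≤ q ^ m * (Xc + (q ^ (3 * m + 1) +
            I2 * (2 * ((q - 1) * Ch * (2 * q ^ (m - 1)))))) :=
            mul_le_mul_of_nonneg_left htt' (by positivity)
        _ = _ := by ring
    have d4 : q ^ m * q ^ (3 * m + 1) ≤ Real.sqrt q * q ^ (4 * m + 1) := by
      have : q ^ m * q ^ (3 * m + 1) = 1 * q ^ (4 * m + 1) := by
        rw [← pow_add, one_mul]
        congr 1
        ring
      rw [this]
      refine mul_le_mul_of_nonneg_right ?_ (by positivity)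
      rw [Real.one_le_sqrt]
      linarith
    rw [d2] at d1
    linarith
  refine le_trans ?_ hkey
  have f1 : q ^ 3 / 8 ≤ (q - 1) * I2 := by
    have : q / 2 * (q ^ 2 / 4) ≤ (q - 1) * I2 :=
      mul_le_mul (by linarith) (by linarith) (by positivity) (by linarith)
    calc q ^ 3 / 8 = q / 2 * (q ^ 2 / 4) := by ring
      _ ≤ _ := this
  have f2 : q ^ (4 * m + 2) = q ^ 3 * q ^ (4 * m - 1) := by
    rw [← pow_add]
    congr 1
    omega
  calc q ^ (4 * m + 2) / (8 * W) * phi (2 * m) (1 / q) =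
        q ^ 3 / 8 * (q ^ (4 * m - 1) / W * phi (2 * m) (1 / q)) := by
        rw [f2]
        field_simp
    _ ≤ _ := mul_le_mul_of_nonneg_right f1 (by positivity)

end main

/-- The density of the event. -/
theorem X7_dens {m : ℕ} (hm : 3 ≤ m) : ∃ (B : ℕ) (c : ℝ), 0 < c ∧
    ∀ (F : Type) [Field F] [Fintype F], (2 : F) ≠ 0 → B ≤ Fintype.card F →
      c * (Fintype.card F : ℝ) ^ (3 * m + 2) ≤ (X7 F m).card := by
  have hn : 6 ≤ 2 * m := by omega
  obtain ⟨δ, hδ, hφ⟩ := phi_near hn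
  have hp := phi_pos hn
  obtain ⟨W, hW⟩ : ∃ x : ℝ, x = ((2 * m).factorial : ℝ) := ⟨_, rfl⟩
  have hWpos : 0 < W := by rw [hW]; exact_mod_cast Nat.factorial_pos _
  obtain ⟨c, hc⟩ : ∃ c : ℝ, c = phi (2 * m) 0 / (32 * W) := ⟨_, rfl⟩
  have hcpos : 0 < c := by rw [hc]; positivity
  obtain ⟨B1, hB1⟩ := exists_nat_gt (1 / δ)
  obtain ⟨B2, hB2⟩ := exists_nat_gt ((2 / c) ^ 2)
  refine ⟨max (4 * m + 2) (max B1 B2), c, hcpos, fun F _ _ h2 hB => ?_⟩
  have hq1 : 4 * m + 2 ≤ Fintype.card F := (le_max_left _ _).trans hB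
  have hq2 : B1 ≤ Fintype.card F := (le_max_left _ _).trans ((le_max_right _ _).trans hB)
  have hq3 : B2 ≤ Fintype.card F := (le_max_right _ _).trans ((le_max_right _ _).trans hB)
  obtain ⟨q, hqd⟩ : ∃ q : ℝ, q = (Fintype.card F : ℝ) := ⟨_, rfl⟩
  have hq0 : 0 < q := by
    rw [hqd]
    exact_mod_cast Fintype.card_pos
  have hx : 1 / q < δ := by
    have h1 : 1 / δ < q := by
      rw [hqd]
      exact hB1.trans_le (by exact_mod_cast hq2)
    rw [div_lt_iff₀ hδ] at h1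
    rw [div_lt_iff₀ hq0]
    linarith
  have hs : 2 / c ≤ Real.sqrt q := by
    apply Real.le_sqrt_of_sq_le
    rw [hqd]
    exact hB2.le.trans (by exact_mod_cast hq3)
  have h3 := hφ (1 / q) (by positivity) hx
  have h4 := ineq7 (F := F) h2 hm hq1
  rw [← hqd, ← hW] at h4
  rcases h4 with h4 | h4
  swap
  · linarith
  rw [← hqd]
  have h5 : q ^ (4 * m + 2) * (2 * c) ≤ q ^ (4 * m + 2) / (8 * W) * phi (2 * m) (1 / q) := by
    rw [hc]
    have : q ^ (4 * m + 2) * (2 * (phi (2 * m) 0 / (32 * W))) =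
        q ^ (4 * m + 2) / (8 * W) * (phi (2 * m) 0 / 2) := by
      field_simp
      ring
    rw [this]
    exact mul_le_mul_of_nonneg_left h3 (by positivity)
  have h6 : 2 * (Real.sqrt q * q ^ (4 * m + 1)) ≤ q ^ (4 * m + 2) * c := by
    have h7 : 2 ≤ c * Real.sqrt q := by
      rw [div_le_iff₀ hcpos] at hs
      linarith
    have h8 : q ^ (4 * m + 2) = Real.sqrt q * (Real.sqrt q * q ^ (4 * m + 1)) := by
      rw [← mul_assoc, Real.mul_self_sqrt hq0.le, ← pow_succ']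
    rw [h8]
    calc 2 * (Real.sqrt q * q ^ (4 * m + 1)) ≤ (c * Real.sqrt q) * (Real.sqrt q * q ^ (4 * m + 1)) :=
          mul_le_mul_of_nonneg_right h7 (by positivity)
      _ = _ := by ring
  have h9 : q ^ m * (c * q ^ (3 * m + 2)) ≤ q ^ m * ((X7 F m).card : ℝ) := by
    have e : q ^ m * (c * q ^ (3 * m + 2)) = q ^ (4 * m + 2) * c := by
      have : q ^ (4 * m + 2) = q ^ m * q ^ (3 * m + 2) := by rw [← pow_add]; congr 1; ring
      rw [this]
      ring
    rw [e]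
    linarith
  exact le_of_mul_le_mul_left h9 (by positivity)

end Pool.Agent.K9h16.QT
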