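import Pool.Agent.K9h16.QT.Pur

/-!
A Frobenius element which gives a minor, for polynomials with factors of degrees two, one and `n - 3`.
-/

set_option autoImplicit false
set_option linter.all false

open Polynomial IsLocalRing
open scoped Classical

namespace Pool.Agent.K9h16.QT

open Pool.Agent.K9h16.PT Pool.Agent.X243.Gen Pool.Agent.X243.Tate Pool.Agent.X243.Sol

/-- The event. -/
def M7 {R : Type} [CommRing R] (n : ℕ) (f g : R[X]) : Prop :=
  ∃ (d e c : R) (Q π : R[X]) (T : Finset R) (e₁ e₂ : R), d ≠ 0 ∧ e ≠ 0 ∧ Q.Monic ∧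
    Irreducible Q ∧ Q.natDegree = 2 ∧ π.Monic ∧ Irreducible π ∧ π.natDegree + 3 = n ∧
    T.card = n ∧ f = C d * (Q * ((X - C c) * π)) ∧ g = C e * ∏ x ∈ T, (X - C x) ∧ c ∉ T ∧
    e₁ ∈ T ∧ e₂ ∈ T ∧ ¬ IsSquare (Q.eval e₁ * Q.eval e₂)

section cyc

variable {R κ : Type} [Field R] [Finite R] [Field κ] (j : R →+* κ)

/-- The Frobenius map. -/
noncomputable def Fb : κ →+* κ :=
  letI := Fintype.ofFinite R
  letI := j.toAlgebra
  (FiniteField.frobeniusAlgHom R κ : κ →+* κ)

theorem Fb_apply (x : κ) : Fb j x = x ^ Nat.card R := by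
  letI := Fintype.ofFinite R
  letI := j.toAlgebra
  show (FiniteField.frobeniusAlgHom R κ) x = _
  rw [FiniteField.frobeniusAlgHom_apply, Nat.card_eq_fintype_card]

theorem Fb_j (c : R) : Fb j (j c) = j c := by
  haveI := Fintype.ofFinite R
  rw [Fb_apply, ← map_pow, Nat.card_eq_fintype_card, FiniteField.pow_card]

theorem Fb_pow (i : ℕ) (x : κ) : (Fb j ^ i) x = x ^ Nat.card R ^ i := by
  induction i with
  | zero => rw [pow_zero, pow_zero, pow_one]; rfl
  | succ i ih =>
    rw [pow_succ', RingHom.mul_def, RingHom.comp_apply, ih, Fb_apply, ← pow_mul, ← pow_succ]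

theorem Fb_pow_j (i : ℕ) (c : R) : (Fb j ^ i) (j c) = j c := by
  induction i with
  | zero => rfl
  | succ i ih => rw [pow_succ', RingHom.mul_def, RingHom.comp_apply, ih, Fb_j]

/-- The roots of an irreducible polynomial. -/
theorem root_deg {π : R[X]} (hπ : Irreducible π) {x : κ} (hx : (π.map j).eval x = 0) :
    (Fb j ^ π.natDegree) x = x := by
  haveI : Fact (Irreducible π) := ⟨hπ⟩
  let g : AdjoinRoot π →+* κ := AdjoinRoot.lift j x (by rw [← eval_map]; exact hx)
  haveI : Module.Finite R (AdjoinRoot π) := (AdjoinRoot.powerBasis hπ.ne_zero).finite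
  haveI : Finite (AdjoinRoot π) := Module.finite_of_finite R
  haveI := Fintype.ofFinite (AdjoinRoot π)
  have hc : Nat.card (AdjoinRoot π) = Nat.card R ^ π.natDegree := by
    rw [Module.natCard_eq_pow_finrank (K := R), (AdjoinRoot.powerBasis hπ.ne_zero).finrank,
      AdjoinRoot.powerBasis_dim hπ.ne_zero]
  have h1 : (AdjoinRoot.root π) ^ Nat.card (AdjoinRoot π) = AdjoinRoot.root π := by
    rw [Nat.card_eq_fintype_card]
    exact FiniteField.pow_card _
  have h3 : g (AdjoinRoot.root π) = x := AdjoinRoot.lift_root _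
  rw [Fb_pow, ← hc]
  rw [← h3, ← map_pow, h1]

theorem fix_dvd {D N : ℕ} (h : D ∣ N) {x : κ} (hx : (Fb j ^ D) x = x) : (Fb j ^ N) x = x := by
  obtain ⟨c, rfl⟩ := h
  rw [pow_mul]
  induction c with
  | zero => rfl
  | succ c ih => rw [pow_succ', RingHom.mul_def, RingHom.comp_apply, ih, hx]

/-- The sign. -/
theorem sign_pow {y : κ} (h : (Fb j ^ 2) y = -y) {N : ℕ} (hN : Odd N) : (Fb j ^ (2 * N)) y = -y := by
  obtain ⟨t, rfl⟩ := hN
  have h1 : ∀ t : ℕ, (Fb j ^ (2 * (2 * t))) y = y := by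
    intro t
    induction t with
    | zero => rfl
    | succ t ih =>
      have e : 2 * (2 * (t + 1)) = 2 + 2 + 2 * (2 * t) := by ring
      rw [e, pow_add, pow_add, RingHom.mul_def, RingHom.comp_apply, ih, RingHom.mul_def,
        RingHom.comp_apply, h, map_neg, h, neg_neg]
  have e : 2 * (2 * t + 1) = 2 + 2 * (2 * t) := by ring
  rw [e, pow_add, RingHom.mul_def, RingHom.comp_apply, h1, h]

/-- The quadratic factor. -/
theorem quad_fac {Q : R[X]} (hm : Q.Monic) (hQ : Irreducible Q) (hd : Q.natDegree = 2) {x : κ}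
    (hx : (Q.map j).eval x = 0) (e : R) : j (Q.eval e) = (x - j e) * (Fb j x - j e) := by
  have hnr : ∀ c : R, Q.eval c ≠ 0 := by
    intro c h1
    have h2 : Q.natDegree = 1 :=
      natDegree_eq_of_degree_eq_some (degree_eq_one_of_irreducible_of_root hQ h1)
    omega
  have hne : Fb j x ≠ x := by
    intro h
    rw [Fb_apply] at h
    obtain ⟨c, hc⟩ := fixed_mem j h
    rw [← hc, eval_map_apply] at hx
    exact hnr c (j.injective (by rw [hx, map_zero]))
  have hx' : (Q.map j).eval (Fb j x) = 0 := by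
    rw [Fb_apply]
    exact root_pow j hx
  have hQm : (Q.map j).Monic := hm.map j
  have hfac : Q.map j = (X - C x) * (X - C (Fb j x)) := by
    have h1 : (X - C x) * (X - C (Fb j x)) ∣ Q.map j := by
      refine IsCoprime.mul_dvd ?_ (dvd_iff_isRoot.2 hx) (dvd_iff_isRoot.2 hx')
      exact isCoprime_X_sub_C_of_isUnit_sub (sub_ne_zero.2 hne.symm).isUnit
    refine eq_of_monic_of_dvd_of_natDegree_le ((monic_X_sub_C _).mul (monic_X_sub_C _)) hQm h1 ?_
    rw [natDegree_map, hd, natDegree_mul (X_sub_C_ne_zero _) (X_sub_C_ne_zero _),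
      natDegree_X_sub_C, natDegree_X_sub_C]
  rw [← eval_map_apply, hfac, eval_mul, eval_sub, eval_sub, eval_X, eval_C, eval_C]
  ring

/-- The sign of the Frobenius element on the root of the minor. -/
theorem minor_sign {Q : R[X]} (hm : Q.Monic) (hQ : Irreducible Q) (hd : Q.natDegree = 2) {x : κ}
    (hx : (Q.map j).eval x = 0) {c e₁ e₂ : R} (h1 : c ≠ e₁) (h2 : c ≠ e₂)
    (hns : ¬ IsSquare (Q.eval e₁ * Q.eval e₂)) {y : κ}
    (hy : y ^ 2 = (x - j e₁) * (j c - j e₁) * ((x - j e₂) * (j c - j e₂))) {N : ℕ} (hN : Odd N) :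
    (Fb j ^ (2 * N)) y = -y := by
  have hx2 : Fb j (Fb j x) = x := by
    have := root_deg j hQ hx
    rw [hd] at this
    exact this
  have hy2 : (Fb j ^ 2) y = y ∨ (Fb j ^ 2) y = -y := by
    apply sq_eq_sq_iff_eq_or_eq_neg.1
    rw [← map_pow, hy]
    show Fb j (Fb j _) = _
    simp only [map_mul, map_sub, Fb_j, hx2]
  rcases hy2 with h | h
  · exfalso
    apply hns
    have hν : (y * Fb j y) ^ Nat.card R = y * Fb j y := by
      rw [← Fb_apply, map_mul]
      have : Fb j (Fb j y) = y := h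
      rw [this, mul_comm]
    obtain ⟨v, hv⟩ := fixed_mem j hν
    have hsq : j v ^ 2 = j (Q.eval e₁ * Q.eval e₂ * ((c - e₁) * (c - e₂)) ^ 2) := by
      rw [hv, mul_pow, ← map_pow, hy]
      simp only [map_mul, map_sub, Fb_j, quad_fac j hm hQ hd hx, map_pow]
      ring
    have hw : (c - e₁) * (c - e₂) ≠ 0 := mul_ne_zero (sub_ne_zero.2 h1) (sub_ne_zero.2 h2)
    have hsq' : v ^ 2 = Q.eval e₁ * Q.eval e₂ * ((c - e₁) * (c - e₂)) ^ 2 := by
      apply j.injective
      rw [← hsq, map_pow]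
    refine ⟨v / ((c - e₁) * (c - e₂)), ?_⟩
    field_simp
    rw [hsq', mul_pow]
    ring
  · exact sign_pow j h hN

end cyc

section frob

variable {R k : Type} [CommRing R] [IsDomain R] [IsIntegrallyClosed R] [IsNoetherianRing R]
  [Field k] [Algebra R k] [IsFractionRing R k] (m : Ideal R) [m.IsMaximal] [Finite (R ⧸ m)]

theorem frob_min7 (k) [Field k] [Algebra R k] [IsFractionRing R k] {P Q' : R[X]} {n : ℕ}
    (hn : Even n) (h6 : 6 ≤ n) (hP : P.natDegree ≤ n) (hQ' : Q'.natDegree ≤ n)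
    (h2 : (2 : R ⧸ m) ≠ 0)
    (h : M7 n (P.map (Ideal.Quotient.mk m)) (Q'.map (Ideal.Quotient.mk m))) :
    MinG (P.map (algebraMap R k)) (Q'.map (algebraMap R k)) := by
  intro E _ _ _ _ splP splQ
  letI : Algebra R E := ((algebraMap k E).comp (algebraMap R k)).toAlgebra
  haveI : IsScalarTower R k E := IsScalarTower.of_algebraMap_eq fun _ => rfl
  haveI : m.IsMaximal := inferInstance
  letI : Field (R ⧸ m) := Ideal.Quotient.field m
  letI := Fintype.ofFinite (R ⧸ m)
  haveI : PerfectField (R ⧸ m) := PerfectField.ofFinite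
  obtain ⟨d, e, c, Q, π, T, e₁, e₂, hd, he, hQm, hQi, hQd, hπm, hπi, hπd, hT, hf, hg, hcT, he₁,
    he₂, hns⟩ := h
  obtain ⟨B, ρ, j, σ, hρ, hj, hσ⟩ := frob_gen m k E
  obtain ⟨lQ, fQ, xQ⟩ := split_fix m k hQ' he hT hg E splQ hρ hj hσ
  -- the reduction of `P`
  set fb := P.map (Ideal.Quotient.mk m) with hfb
  have hXc : Irreducible (X - C c : (R ⧸ m)[X]) := irreducible_X_sub_C c
  have hodd : Odd π.natDegree := by
    obtain ⟨t, ht⟩ := hn
    exact ⟨t - 2, by omega⟩
  have cop1 : IsCoprime (X - C c) π := by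
    rw [hXc.coprime_iff_not_dvd]
    intro hdv
    have h3 : Associated (X - C c) π := (hXc.associated_of_dvd hπi hdv)
    have h4 := natDegree_eq_of_degree_eq (degree_eq_degree_of_associated h3)
    rw [natDegree_X_sub_C] at h4
    omega
  have cop2 : IsCoprime Q ((X - C c) * π) := by
    refine IsCoprime.mul_right ?_ ?_
    · rw [hQi.coprime_iff_not_dvd]
      intro hdv
      have h3 := natDegree_le_of_dvd hdv (X_sub_C_ne_zero c)
      rw [natDegree_X_sub_C] at h3
      omega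
    · rw [hQi.coprime_iff_not_dvd]
      intro hdv
      have h3 : Associated Q π := (hQi.associated_of_dvd hπi hdv)
      have h4 := natDegree_eq_of_degree_eq (degree_eq_degree_of_associated h3)
      omega
  have hsep : fb.Separable := by
    rw [hf]
    apply Separable.unit_mul (isUnit_C.2 (isUnit_iff_ne_zero.2 hd))
    exact (PerfectField.separable_of_irreducible hQi).mul
      ((separable_X_sub_C).mul (PerfectField.separable_of_irreducible hπi) cop1) cop2
  have hdeg : fb.natDegree = n := by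
    rw [hf, natDegree_C_mul hd, natDegree_mul hQi.ne_zero (mul_ne_zero (X_sub_C_ne_zero c)
      hπi.ne_zero), natDegree_mul (X_sub_C_ne_zero c) hπi.ne_zero, natDegree_X_sub_C, hQd]
    omega
  obtain ⟨lP, hθs, hr⟩ := roots_of m k hP hdeg hsep E splP hρ hj hσ
  have hF0 : P.map (algebraMap R k) ≠ 0 := by
    refine (Polynomial.map_ne_zero_iff (IsFractionRing.injective R k)).2 ?_
    rintro rfl
    rw [Polynomial.map_zero] at hfb
    exact hsep.ne_zero hfb
  have hinj : ∀ θ θ' : E, aeval θ (P.map (algebraMap R k)) = 0 →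
      aeval θ' (P.map (algebraMap R k)) = 0 → red B θ = red B θ' → θ = θ' := by
    intro θ θ' h1 h3 h4
    have h5 := inj_of j hsep hr
    have h6 := @h5 ⟨θ, mem_rootSet.2 ⟨hF0, h1⟩⟩ ⟨θ', mem_rootSet.2 ⟨hF0, h3⟩⟩ h4
    exact congrArg Subtype.val h6
  have hd0 : j d ≠ 0 := (_root_.map_ne_zero j).2 hd
  have hroot : ∀ x, (fb.map j).eval x = 0 ↔ (Q.map j).eval x = 0 ∨ x = j c ∨
      (π.map j).eval x = 0 := by
    intro x
    rw [hf, Polynomial.map_mul, Polynomial.map_mul, Polynomial.map_mul, map_C, eval_mul, eval_mul,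
      eval_mul, eval_C, mul_eq_zero, mul_eq_zero, mul_eq_zero, Polynomial.map_sub, map_X, map_C,
      eval_sub, eval_X, eval_C, sub_eq_zero]
    constructor
    · rintro (h | h)
      · exact absurd h hd0
      · exact h
    · exact fun h => Or.inr h
  have hfixN : ∀ x, (fb.map j).eval x = 0 → (Fb j ^ (2 * π.natDegree)) x = x := by
    intro x hx
    rcases (hroot x).1 hx with h | h | h
    · have h3 := root_deg j hQi h
      rw [hQd] at h3
      exact fix_dvd j (Dvd.intro _ rfl) h3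
    · rw [h, Fb_pow_j]
    · exact fix_dvd j (Dvd.intro_left _ rfl) (root_deg j hπi h)
  -- the power of the Frobenius element
  have iter : ∀ (c0 : R), c0 ∉ m → ∀ (i : ℕ) (z : E), IsIntegral R (algebraMap R E c0 * z) →
      IsIntegral R (algebraMap R E c0 * (σ ^ i) z) ∧ red B ((σ ^ i) z) = (Fb j ^ i) (red B z) := by
    intro c0 hc0 i
    induction i with
    | zero => exact fun z hz => ⟨hz, rfl⟩
    | succ i ih =>
      intro z hz
      obtain ⟨h3, h4⟩ := ih z hz
      have e1 : (σ ^ (i + 1)) z = σ ((σ ^ i) z) := by rw [pow_succ']; rfl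
      rw [e1]
      refine ⟨?_, ?_⟩
      · have h5 := h3.map (σ.restrictScalars R)
        have e3 : (σ.restrictScalars R) (algebraMap R E c0 * (σ ^ i) z) =
            algebraMap R E c0 * σ ((σ ^ i) z) := by
          show σ _ = _
          rw [map_mul]
          congr 1
          rw [IsScalarTower.algebraMap_apply R k E, σ.commutes]
        rw [e3] at h5
        exact h5
      · rw [(hσ c0 hc0 _ h3).2.2, h4, ← Fb_apply j, pow_succ']
        rfl
  have iP : ∀ θ, aeval θ (P.map (algebraMap R k)) = 0 →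
      IsIntegral R (algebraMap R E P.leadingCoeff * θ) := by
    intro θ hθ
    rw [aeval_map_algebraMap] at hθ
    have := isIntegral_leadingCoeff_smul P θ hθ
    rwa [Algebra.smul_def] at this
  have iQ : ∀ θ, aeval θ (Q'.map (algebraMap R k)) = 0 →
      IsIntegral R (algebraMap R E Q'.leadingCoeff * θ) := by
    intro θ hθ
    rw [aeval_map_algebraMap] at hθ
    have := isIntegral_leadingCoeff_smul Q' θ hθ
    rwa [Algebra.smul_def] at this
  obtain ⟨τ, hτ⟩ : ∃ τ, τ = σ ^ (2 * π.natDegree) := ⟨_, rfl⟩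
  have fP : ∀ θ : E, aeval θ (P.map (algebraMap R k)) = 0 → τ θ = θ := by
    intro θ hθ
    apply hinj _ _ _ hθ
    · rw [hτ, (iter _ lP _ θ (iP θ hθ)).2]
      exact hfixN _ ((root_iff j hsep hr _).2 ⟨⟨θ, mem_rootSet.2 ⟨hF0, hθ⟩⟩, rfl⟩)
    · rw [aeval_algHom_apply τ θ, hθ, map_zero]
  have fQ' : ∀ θ : E, aeval θ (Q'.map (algebraMap R k)) = 0 → τ θ = θ := by
    intro θ hθ
    rw [hτ]
    generalize 2 * π.natDegree = i
    induction i with
    | zero => rfl
    | succ i ih => rw [pow_succ', AlgEquiv.mul_apply, ih, (fQ θ hθ).1]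
  -- the roots
  have hfs : (fb.map j).Splits := by
    rw [hr]
    exact (Splits.C _).mul (Splits.prod fun θ _ => Splits.X_sub_C _)
  have hQs : (Q.map j).Splits := by
    refine hfs.of_dvd (hsep.map (f := j)).ne_zero ?_
    rw [hf, Polynomial.map_mul, Polynomial.map_mul]
    exact (Dvd.intro _ rfl).mul_left _
  obtain ⟨x, hx⟩ := hQs.exists_eval_eq_zero (by
    intro h
    have h5 : (Q.map j).natDegree = 0 := natDegree_eq_of_degree_eq_some h
    rw [natDegree_map, hQd] at h5
    omega)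
  obtain ⟨⟨θ₁, hθ₁⟩, w₁⟩ := (root_iff j hsep hr _).1 ((hroot _).2 (Or.inl hx))
  obtain ⟨⟨θ₂, hθ₂⟩, w₂⟩ := (root_iff j hsep hr _).1 ((hroot _).2 (Or.inr (Or.inl (rfl : j c = j c))))
  have z₁ : aeval θ₁ (P.map (algebraMap R k)) = 0 := (mem_rootSet.1 hθ₁).2
  have z₂ : aeval θ₂ (P.map (algebraMap R k)) = 0 := (mem_rootSet.1 hθ₂).2
  simp only at w₁ w₂
  obtain ⟨η₁, y₁, v₁⟩ := xQ e₁ he₁
  obtain ⟨η₂, y₂, v₂⟩ := xQ e₂ he₂
  refine ⟨τ, fP, fQ', θ₁, θ₂, η₁, η₂, z₁, z₂, y₁, y₂, fun r hr' => ?_⟩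
  obtain ⟨c0, hc0⟩ : ∃ c0 : R, c0 = P.leadingCoeff * Q'.leadingCoeff := ⟨_, rfl⟩
  have hc0m : c0 ∉ m := by
    rw [hc0]
    intro h
    rcases Ideal.IsPrime.mem_or_mem inferInstance h with h | h
    · exact lP h
    · exact lQ h
  have idiff : ∀ θ η, aeval θ (P.map (algebraMap R k)) = 0 → aeval η (Q'.map (algebraMap R k)) = 0 →
      IsIntegral R (algebraMap R E c0 * (θ - η)) := by
    intro θ η hθ hη
    have e : algebraMap R E c0 * (θ - η) = algebraMap R E Q'.leadingCoeff *
        (algebraMap R E P.leadingCoeff * θ) - algebraMap R E P.leadingCoeff *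
        (algebraMap R E Q'.leadingCoeff * η) := by
      rw [hc0, map_mul]
      ring
    rw [e]
    exact (isIntegral_algebraMap.mul (iP θ hθ)).sub (isIntegral_algebraMap.mul (iQ η hη))
  have hrint : IsIntegral R (algebraMap R E (c0 ^ 2) * r) := by
    apply IsIntegral.of_pow (n := 2) (by norm_num)
    have e : (algebraMap R E (c0 ^ 2) * r) ^ 2 =
        (algebraMap R E c0 * (θ₁ - η₁)) * (algebraMap R E c0 * (θ₂ - η₁)) *
        ((algebraMap R E c0 * (θ₁ - η₂)) * (algebraMap R E c0 * (θ₂ - η₂))) := by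
      rw [mul_pow, hr', map_pow]
      ring
    rw [e]
    exact ((idiff _ _ z₁ y₁).mul (idiff _ _ z₂ y₁)).mul ((idiff _ _ z₁ y₂).mul (idiff _ _ z₂ y₂))
  have hcpow : c0 ^ 2 ∉ m := fun h => hc0m (Ideal.IsPrime.mem_of_pow_mem inferInstance _ h)
  obtain ⟨hrB, -, -⟩ := hσ _ hcpow r hrint
  have hred := (iter _ hcpow (2 * π.natDegree) r hrint).2
  rw [← hτ] at hred
  have hz0 : red B (0 : E) = 0 := by
    have : red B ((0 : B) : E) = residue B 0 := red_coe 0
    rw [map_zero] at this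
    exact this
  have hsq : red B r ^ 2 = (x - j e₁) * (j c - j e₁) * ((x - j e₂) * (j c - j e₂)) := by
    have b₁ := (hθs θ₁ z₁).1
    have b₂ := (hθs θ₂ z₂).1
    have b₃ := (fQ η₁ y₁).2
    have b₄ := (fQ η₂ y₂).2
    rw [← red_pow hrB, hr', red_mul (mul_mem (sub_mem b₁ b₃) (sub_mem b₂ b₃))
      (mul_mem (sub_mem b₁ b₄) (sub_mem b₂ b₄)), red_mul (sub_mem b₁ b₃) (sub_mem b₂ b₃),
      red_mul (sub_mem b₁ b₄) (sub_mem b₂ b₄), red_sub b₁ b₃, red_sub b₂ b₃, red_sub b₁ b₄,
      red_sub b₂ b₄, w₁, w₂, v₁, v₂]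
  have n1 : c ≠ e₁ := fun h => hcT (h ▸ he₁)
  have n2 : c ≠ e₂ := fun h => hcT (h ▸ he₂)
  have hxe : ∀ e : R ⧸ m, x ≠ j e := by
    intro e h
    rw [h, eval_map_apply] at hx
    have h1 : Q.eval e = 0 := j.injective (by rw [hx, map_zero])
    have h2 : Q.natDegree = 1 :=
      natDegree_eq_of_degree_eq_some (degree_eq_one_of_irreducible_of_root hQi h1)
    omega
  have hX0 : (x - j e₁) * (j c - j e₁) * ((x - j e₂) * (j c - j e₂)) ≠ 0 := by
    refine mul_ne_zero (mul_ne_zero (sub_ne_zero.2 (hxe _)) (sub_ne_zero.2 ?_))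
      (mul_ne_zero (sub_ne_zero.2 (hxe _)) (sub_ne_zero.2 ?_))
    · exact fun h => n1 (j.injective h)
    · exact fun h => n2 (j.injective h)
  have hr0 : red B r ≠ 0 := by
    intro h
    rw [h, zero_pow two_ne_zero] at hsq
    exact hX0 hsq.symm
  have hsign := minor_sign j hQm hQi hQd hx n1 n2 hns hsq hodd
  rw [hsign] at hred
  have hpm : τ r = r ∨ τ r = -r := by
    apply sq_eq_sq_iff_eq_or_eq_neg.1
    rw [← map_pow, hr']
    simp only [map_mul, map_sub, fP θ₁ z₁, fP θ₂ z₂, fQ' η₁ y₁, fQ' η₂ y₂]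
  constructor
  · rcases hpm with h | h
    · exfalso
      rw [h] at hred
      have h2κ : (2 : ResidueField B) ≠ 0 := by
        rw [← map_ofNat j 2]
        exact (_root_.map_ne_zero j).2 h2
      have h5 : 2 * red B r = 0 := by linear_combination hred
      rcases mul_eq_zero.1 h5 with h | h
      · exact h2κ h
      · exact hr0 h
    · exact h
  · rintro rfl
    exact hr0 hz0

end frob

end Pool.Agent.K9h16.QT
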