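import Pool.Agent.K9h16.QT.Cnc
import Pool.Agent.K9h16.QT.Fr7

/-!
The number of pairs with the event for the minors.
-/

set_option autoImplicit false
set_option linter.all false

open Polynomial
open scoped Classical

namespace Pool.Agent.K9h16.QT

open Pool.Agent.Y160.T3 Pool.Agent.X243.Tate

section cnt

variable {F : Type} [Field F] [Fintype F] {m : ℕ}

theorem bF_sq (a : Fin (m + 1) → F) : bF (sq a) = (bF a) ^ 2 := by
  apply bF_coeffs
  exact natDegree_pow_le.trans (Nat.mul_le_mul_left 2 (bF_nd a))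

theorem bF_n4 {r : ℕ} (b : Fin r → F) : bF (n4 b) = C (-4) * bF b := by
  unfold bF n4
  rw [Finset.mul_sum]
  exact Finset.sum_congr rfl fun j _ => by rw [C_mul, mul_assoc]

theorem bF_d (a : Fin (m + 1) → F) (b : Fin (2 * m + 1) → F) :
    bF (sq a + n4 b) = (bF a) ^ 2 + C (-4) * bF b := by
  rw [bF_add, bF_sq, bF_n4]

/-- The irreducible monic polynomials. -/
abbrev Irr (F : Type) [Field F] [Fintype F] (N : ℕ) : Type := {a : Fin N → F // GoodP 1 (mF a)}

/-- The indices. -/
abbrev Id7 (F : Type) [Field F] [Fintype F] (m : ℕ) : Type := Fˣ × Irr F 2 × F × Irr F (2 * m - 3)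

/-- The polynomials with factors of degrees two, one and `2 m - 3`. -/
noncomputable def P7 (x : Id7 F m) : F[X] :=
  C (x.1 : F) * (mF x.2.1.1 * ((X - C x.2.2.1) * mF x.2.2.2.1))

/-- The coefficients. -/
noncomputable def Φ7 (x : Id7 F m) : Fin (2 * m + 1) → F := fun j => (P7 x).coeff j

theorem bF_Φ7 (hm : 3 ≤ m) (x : Id7 F m) : bF (Φ7 x) = P7 x := by
  apply bF_coeffs
  unfold P7
  rw [natDegree_C_mul x.1.ne_zero, natDegree_mul (mF_monic _).ne_zero
    (mul_ne_zero (X_sub_C_ne_zero _) (mF_monic _).ne_zero), natDegree_mul (X_sub_C_ne_zero _)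
    (mF_monic _).ne_zero, natDegree_X_sub_C, mF_natDegree, mF_natDegree]
  omega

theorem irr_no_root {N : ℕ} (hN : 2 ≤ N) (a : Irr F N) (c : F) : (mF a.1).eval c ≠ 0 := by
  intro h1
  have h2 : (mF a.1).natDegree = 1 :=
    natDegree_eq_of_degree_eq_some (degree_eq_one_of_irreducible_of_root a.2.1 h1)
  rw [mF_natDegree] at h2
  omega

theorem Φ7_inj (hm : 3 ≤ m) : Function.Injective (Φ7 (F := F) (m := m)) := by
  rintro ⟨u, Q, c, π⟩ ⟨u', Q', c', π'⟩ h
  have h1 := bF_Φ7 hm (u, Q, c, π)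
  rw [h, bF_Φ7 hm] at h1
  unfold P7 at h1
  simp only at h1
  obtain ⟨h2, h3⟩ := smul_inj ((mF_monic _).mul ((monic_X_sub_C _).mul (mF_monic _)))
    ((mF_monic _).mul ((monic_X_sub_C _).mul (mF_monic _))) h1
  -- the root
  have h4 : c = c' := by
    have h5 := congrArg (eval c) h3
    rw [eval_mul, eval_mul, eval_sub, eval_X, eval_C, eval_mul, eval_mul, eval_sub, eval_X, eval_C,
      sub_self, zero_mul, mul_zero, mul_eq_zero, mul_eq_zero] at h5
    rcases h5 with h | h | h
    · exact absurd h (irr_no_root le_rfl Q' c)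
    · exact sub_eq_zero.1 h
    · exact absurd h (irr_no_root (by omega) π' c)
  rw [← h4] at h3
  have h5 : mF Q'.1 * mF π'.1 = mF Q.1 * mF π.1 := by
    have e : ∀ A B : F[X], A * ((X - C c) * B) = (X - C c) * (A * B) := fun A B => by ring
    rw [e, e] at h3
    exact mul_left_cancel₀ (X_sub_C_ne_zero c) h3
  have h6 : mF Q'.1 ∣ mF Q.1 * mF π.1 := ⟨_, h5.symm⟩
  have h7 : mF Q'.1 = mF Q.1 := by
    rcases Q'.2.1.prime.dvd_or_dvd h6 with h | h
    · exact eq_of_monic_of_associated (mF_monic _) (mF_monic _) (Q'.2.1.associated_of_dvd Q.2.1 h)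
    · exfalso
      have h8 := natDegree_eq_of_degree_eq (degree_eq_degree_of_associated
        (Q'.2.1.associated_of_dvd π.2.1 h))
      rw [mF_natDegree, mF_natDegree] at h8
      omega
  rw [h7] at h5
  have h8 : mF π'.1 = mF π.1 := mul_left_cancel₀ (mF_monic _).ne_zero h5
  have hQ : Q = Q' := Subtype.ext (mF_inj h7.symm)
  have hπ : π = π' := Subtype.ext (mF_inj h8.symm)
  rw [← h2, ← h4, ← hQ, ← hπ]

/-- The first set. -/
noncomputable def S7 (F : Type) [Field F] [Fintype F] (m : ℕ) : Finset (Fin (2 * m + 1) → F) :=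
  Finset.univ.image Φ7

theorem S7_card (hm : 3 ≤ m) : (S7 F m).card =
    Fintype.card Fˣ * (Fintype.card (Irr F 2) * (Fintype.card F * Fintype.card (Irr F (2 * m - 3)))) := by
  rw [S7, Finset.card_image_of_injective _ (Φ7_inj hm), Finset.card_univ, Fintype.card_prod,
    Fintype.card_prod, Fintype.card_prod]

/-- The sets of roots. -/
abbrev Id4 (F : Type) [Field F] [Fintype F] (m : ℕ) : Type :=
  Fˣ × {T : Finset F // T ∈ Finset.powersetCard (2 * m) (Finset.univ : Finset F)}

/-- The split polynomials. -/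
noncomputable def P4 (u : Fˣ) (T : Finset F) : F[X] := C (u : F) * ∏ x ∈ T, (X - C x)

/-- The coefficients. -/
noncomputable def Φ4 (u : Fˣ) (T : Finset F) : Fin (2 * m + 1) → F := fun j => (P4 u T).coeff j

theorem bF_Φ4 (u : Fˣ) {T : Finset F} (hT : T.card = 2 * m) : bF (Φ4 (m := m) u T) = P4 u T := by
  apply bF_coeffs
  unfold P4
  rw [natDegree_C_mul u.ne_zero, natDegree_finset_prod_X_sub_C_eq_card, hT]

theorem Φ4_inj : Function.Injective (fun x : Id4 F m => Φ4 (m := m) x.1 x.2.1) := by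
  rintro ⟨u, T, hT⟩ ⟨u', T', hT'⟩ h
  have h' : Φ4 (m := m) u T = Φ4 u' T' := h
  have c1 := (Finset.mem_powersetCard.1 hT).2
  have c2 := (Finset.mem_powersetCard.1 hT').2
  have h1 := bF_Φ4 (m := m) u c1
  rw [h', bF_Φ4 u' c2] at h1
  unfold P4 at h1
  have hmon : ∀ S : Finset F, (∏ c ∈ S, (X - C c) : F[X]).Monic :=
    fun S => monic_prod_X_sub_C (fun c => c) S
  obtain ⟨h2, h3⟩ := smul_inj (hmon _) (hmon _) h1
  have h4 := congrArg roots h3
  rw [roots_prod_X_sub_C, roots_prod_X_sub_C] at h4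
  have h5 : T' = T := Finset.val_injective h4
  subst h5
  rw [h2]

/-- The second set. -/
noncomputable def S4F (F : Type) [Field F] [Fintype F] (m : ℕ) : Finset (Fin (2 * m + 1) → F) :=
  Finset.univ.image (fun x : Id4 F m => Φ4 (m := m) x.1 x.2.1)

theorem S4F_card : (S4F F m).card = Fintype.card Fˣ * (Fintype.card F).choose (2 * m) := by
  rw [S4F, Finset.card_image_of_injective _ Φ4_inj, Finset.card_univ, Fintype.card_prod,
    Fintype.card_coe, Finset.card_powersetCard, Finset.card_univ]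

/-- The event. -/
noncomputable def X7 (F : Type) [Field F] [Fintype F] (m : ℕ) :
    Finset ((Fin (m + 1) → F) × (Fin (2 * m + 1) → F)) :=
  Finset.univ.filter (fun x => M7 (2 * m) (bF x.2) (bF (sq x.1 + n4 x.2)))

/-- The property of the bad pairs. -/
def BdP (m : ℕ) (Q : F[X]) (s : Bool) (x : (Fin (m + 1) → F) × (Fin (2 * m + 1) → F)) : Prop :=
  Q ∣ bF x.2 ∧ ∃ (u : Fˣ) (T : Finset F),
    T ∈ Finset.powersetCard (2 * m) (AA Q s) ∧ sq x.1 + n4 x.2 = Φ4 u T

/-- The bad pairs. -/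
noncomputable def Bd (m : ℕ) (Q : F[X]) (s : Bool) :
    Finset ((Fin (m + 1) → F) × (Fin (2 * m + 1) → F)) :=
  Finset.univ.filter (fun x => BdP m Q s x)

theorem mem_Bd {Q : F[X]} {s : Bool} {x : (Fin (m + 1) → F) × (Fin (2 * m + 1) → F)} :
    x ∈ Bd m Q s ↔ BdP m Q s x := by
  rw [Bd, Finset.mem_filter]
  exact ⟨fun h => h.2, fun h => ⟨Finset.mem_univ _, h⟩⟩

theorem Bd_card (h2 : (2 : F) ≠ 0) (hm : 1 ≤ m) {Q : F[X]} (hQm : Q.Monic) (hQ : Irreducible Q)
    (hd : Q.natDegree = 2) (s : Bool) : (Bd m Q s).card ≤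
      Fintype.card Fˣ * ((Fintype.card F + 1) / 2).choose (2 * m) *
        (2 * Fintype.card F ^ (m - 1)) := by
  have h4 : (-4 : F) ≠ 0 := by
    rw [neg_ne_zero, show (4 : F) = 2 * 2 by norm_num]
    exact mul_ne_zero h2 h2
  have hsub : Bd m Q s ⊆ (Finset.univ ×ˢ Finset.powersetCard (2 * m) (AA Q s)).biUnion
      (fun y : Fˣ × Finset F => Finset.univ.filter
        (fun x : (Fin (m + 1) → F) × (Fin (2 * m + 1) → F) =>
          Q ∣ bF x.2 ∧ sq x.1 + n4 x.2 = Φ4 y.1 y.2)) := by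
    intro x hx
    obtain ⟨h1, u, T, hT, h3⟩ := mem_Bd.1 hx
    rw [Finset.mem_biUnion]
    refine ⟨(u, T), ?_, ?_⟩
    · rw [Finset.mem_product]
      exact ⟨Finset.mem_univ _, hT⟩
    · rw [Finset.mem_filter]
      exact ⟨Finset.mem_univ _, h1, h3⟩
  refine (Finset.card_le_card hsub).trans (Finset.card_biUnion_le.trans ?_)
  have key : ∀ y ∈ (Finset.univ : Finset Fˣ) ×ˢ Finset.powersetCard (2 * m) (AA Q s),
      (Finset.univ.filter (fun x : (Fin (m + 1) → F) × (Fin (2 * m + 1) → F) =>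
          Q ∣ bF x.2 ∧ sq x.1 + n4 x.2 = Φ4 y.1 y.2)).card ≤ 2 * Fintype.card F ^ (m - 1) := by
    intro y hy
    refine le_trans ?_ (sqr_card hQm hQ hd hm (bF (Φ4 (m := m) y.1 y.2)))
    refine Finset.card_le_card_of_injOn (fun x => x.1) ?_ ?_
    · intro x hx
      rw [Finset.mem_coe, Finset.mem_filter] at hx
      rw [Finset.mem_coe, Finset.mem_filter]
      refine ⟨Finset.mem_univ _, ?_⟩
      rw [← hx.2.2, bF_d]
      have e : (bF x.1) ^ 2 - ((bF x.1) ^ 2 + C (-4) * bF x.2) = -(C (-4)) * bF x.2 := by ring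
      show Q ∣ (bF x.1) ^ 2 - ((bF x.1) ^ 2 + C (-4) * bF x.2)
      rw [e]
      exact hx.2.1.mul_left _
    · intro x hx x' hx' h
      rw [Finset.mem_coe, Finset.mem_filter] at hx hx'
      have h' : x.1 = x'.1 := h
      refine Prod.ext h' (n4_inj h2 ?_)
      have e1 := hx.2.2
      have e2 := hx'.2.2
      rw [h', ← e2] at e1
      exact add_left_cancel e1
  refine (Finset.sum_le_sum key).trans ?_
  rw [Finset.sum_const, smul_eq_mul, Finset.card_product, Finset.card_univ,
    Finset.card_powersetCard]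
  exact Nat.mul_le_mul_right _ (Nat.mul_le_mul_left _ (Nat.choose_le_choose _
    (AA_card h2 hQm hQ hd s)))

theorem tt_sub (h2 : (2 : F) ≠ 0) (hm : 3 ≤ m) : TT (S7 F m) (S4F F m) ⊆
    X7 F m ∪ (Finset.univ.filter (fun x : (Fin (m + 1) → F) × (Fin (2 * m + 1) → F) =>
      ∃ c : F, (bF x.1).eval c = 0 ∧ (bF x.2).eval c = 0) ∪
      (Finset.univ : Finset (Irr F 2 × Bool)).biUnion (fun y => Bd m (mF y.1.1) y.2)) := by
  intro x hx
  rw [TT, Finset.mem_filter] at hx
  obtain ⟨-, h7, h4⟩ := hx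
  rw [S7, Finset.mem_image] at h7
  obtain ⟨⟨u, Q, c, π⟩, -, hb⟩ := h7
  rw [S4F, Finset.mem_image] at h4
  obtain ⟨⟨v, T, hT⟩, -, hdd⟩ := h4
  have hTc := (Finset.mem_powersetCard.1 hT).2
  simp only at hdd
  have eb : bF x.2 = P7 (u, Q, c, π) := by rw [← hb, bF_Φ7 hm]
  have ed : bF (sq x.1 + n4 x.2) = P4 v T := by rw [← hdd, bF_Φ4 v hTc]
  rw [Finset.mem_union, Finset.mem_union]
  by_cases hcT : c ∈ T
  · right
    left
    rw [Finset.mem_filter]
    refine ⟨Finset.mem_univ _, c, ?_, ?_⟩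
    · have h1 := congrArg (eval c) ed
      have h3 : (P4 v T).eval c = 0 := by
        unfold P4
        rw [eval_mul, eval_prod, Finset.prod_eq_zero hcT, mul_zero]
        rw [eval_sub, eval_X, eval_C, sub_self]
      have h5 : (bF x.2).eval c = 0 := by
        rw [eb]
        unfold P7
        simp
      rw [h3, bF_d, eval_add, eval_mul, h5, mul_zero, add_zero, eval_pow] at h1
      exact pow_eq_zero_iff two_ne_zero |>.1 h1
    · rw [eb]
      unfold P7
      simp
  · by_cases hex : ∃ e₁ e₂ : F, e₁ ∈ T ∧ e₂ ∈ T ∧ ¬ IsSquare ((mF Q.1).eval e₁ * (mF Q.1).eval e₂)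
    · left
      obtain ⟨e₁, e₂, h1, h3, hns⟩ := hex
      rw [X7, Finset.mem_filter]
      refine ⟨Finset.mem_univ _, u, v, c, mF Q.1, mF π.1, T, e₁, e₂, u.ne_zero, v.ne_zero,
        mF_monic _, Q.2.1, mF_natDegree _, mF_monic _, π.2.1, ?_, hTc, eb, ed, hcT, h1, h3, hns⟩
      rw [mF_natDegree]
      omega
    · right
      right
      push Not at hex
      obtain ⟨e₀, he₀⟩ : T.Nonempty := by
        rw [← Finset.card_pos, hTc]
        omega
      rw [Finset.mem_biUnion]
      refine ⟨(Q, decide (IsSquare ((mF Q.1).eval e₀))), Finset.mem_univ _, ?_⟩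
      refine mem_Bd.2 ⟨?_, v, T, ?_, hdd.symm⟩
      · rw [eb]
        unfold P7
        exact (Dvd.intro _ rfl : mF Q.1 ∣ mF Q.1 * ((X - C c) * mF π.1)).mul_left _
      · rw [Finset.mem_powersetCard]
        refine ⟨fun e he => ?_, hTc⟩
        rw [AA, Finset.mem_filter]
        refine ⟨Finset.mem_univ _, ?_⟩
        rw [decide_eq_true_eq]
        have k0 := irr_no_root (F := F) le_rfl Q e₀
        have k1 := irr_no_root (F := F) le_rfl Q e
        constructor
        · intro h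
          have h3 := (hex e e₀ he he₀).mul h
          have e4 : (mF Q.1).eval e * (mF Q.1).eval e₀ * (mF Q.1).eval e₀ =
              (mF Q.1).eval e * ((mF Q.1).eval e₀) ^ 2 := by ring
          rw [e4] at h3
          obtain ⟨z, hz⟩ := h3
          refine ⟨z / (mF Q.1).eval e₀, ?_⟩
          field_simp
          rw [hz]
          ring
        · intro h
          have h3 := (hex e₀ e he₀ he).mul h
          have e4 : (mF Q.1).eval e₀ * (mF Q.1).eval e * (mF Q.1).eval e =
              (mF Q.1).eval e₀ * ((mF Q.1).eval e) ^ 2 := by ring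
          rw [e4] at h3
          obtain ⟨z, hz⟩ := h3
          refine ⟨z / (mF Q.1).eval e, ?_⟩
          field_simp
          rw [hz]
          ring

theorem tt_card (h2 : (2 : F) ≠ 0) (hm : 3 ≤ m) : (TT (S7 F m) (S4F F m)).card ≤
    (X7 F m).card + (Fintype.card F ^ (3 * m + 1) + Fintype.card (Irr F 2) * (2 *
      (Fintype.card Fˣ * ((Fintype.card F + 1) / 2).choose (2 * m) *
        (2 * Fintype.card F ^ (m - 1))))) := by
  refine (Finset.card_le_card (tt_sub h2 hm)).trans ((Finset.card_union_le _ _).trans ?_)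
  refine Nat.add_le_add_left ((Finset.card_union_le _ _).trans ?_) _
  refine Nat.add_le_add com_card (Finset.card_biUnion_le.trans ?_)
  calc _ ≤ ∑ y : Irr F 2 × Bool, Fintype.card Fˣ * ((Fintype.card F + 1) / 2).choose (2 * m) *
        (2 * Fintype.card F ^ (m - 1)) := by
        refine Finset.sum_le_sum fun y _ => ?_
        exact Bd_card h2 (by omega) (mF_monic _) y.1.2.1 (mF_natDegree _) y.2
    _ = _ := by
        rw [Finset.sum_const, Finset.card_univ, Fintype.card_prod, Fintype.card_bool, smul_eq_mul]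
        ring

end cnt

end Pool.Agent.K9h16.QT
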