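import Pool.Agent.K9h16.QT.Mix

/-!
The values of a quadratic polynomial, square roots modulo a quadratic polynomial, and common roots.
-/

set_option autoImplicit false
set_option linter.all false

open Polynomial
open scoped Classical

namespace Pool.Agent.K9h16.QT

open Pool.Agent.Y160.T3 Pool.Agent.X243.Tate

section conic

variable {F : Type} [Field F] [Fintype F]

/-- The points of a hyperbola. -/
theorem hyp_card (h2 : (2 : F) ≠ 0) {Q : F[X]} (hm : Q.Monic) (hQ : Irreducible Q)
    (hd : Q.natDegree = 2) :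
    (Finset.univ.filter (fun p : F × F => p.2 ^ 2 = Q.eval p.1)).card = Fintype.card F - 1 := by
  obtain ⟨s, hs⟩ : ∃ s, s = Q.coeff 1 := ⟨_, rfl⟩
  obtain ⟨t, ht⟩ : ∃ t, t = Q.coeff 0 := ⟨_, rfl⟩
  have hev : ∀ x, Q.eval x = x ^ 2 + s * x + t := by
    intro x
    rw [eval_eq_sum_range, hd, Finset.sum_range_succ, Finset.sum_range_succ, Finset.sum_range_one,
      ← hs, ← ht]
    have h1 : Q.coeff 2 = 1 := by rw [← hd]; exact hm
    rw [h1]
    ring
  have hnr : ∀ c : F, Q.eval c ≠ 0 := by
    intro c h1
    have h2 : Q.natDegree = 1 :=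
      natDegree_eq_of_degree_eq_some (degree_eq_one_of_irreducible_of_root hQ h1)
    omega
  obtain ⟨D, hD⟩ : ∃ D, D = (s / 2) ^ 2 - t := ⟨_, rfl⟩
  have hD0 : D ≠ 0 := by
    intro h
    apply hnr (-(s / 2))
    rw [hev]
    have : t = (s / 2) ^ 2 := by
      rw [h] at hD
      exact (sub_eq_zero.1 hD.symm).symm
    rw [this]
    field_simp
    ring
  rw [← Fintype.card_units, ← Finset.card_univ]
  symm
  refine Finset.card_bij (fun (u : Fˣ) _ => (((u : F) + D / u) / 2 - s / 2, (D / u - u) / 2))
    ?_ ?_ ?_
  · intro u _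
    rw [Finset.mem_filter]
    refine ⟨Finset.mem_univ _, ?_⟩
    have hu : (u : F) ≠ 0 := u.ne_zero
    simp only
    rw [hev]
    have e : t = (s / 2) ^ 2 - D := by rw [hD]; ring
    rw [e]
    field_simp
    ring
  · intro u _ u' _ h
    have hu : (u : F) ≠ 0 := u.ne_zero
    have hu' : (u' : F) ≠ 0 := u'.ne_zero
    have h1 := congrArg Prod.fst h
    have h3 := congrArg Prod.snd h
    simp only at h1 h3
    apply Units.ext
    have e1 : ((u : F) + D / u) / 2 = ((u' : F) + D / u') / 2 := sub_left_injective h1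
    have e2 : ((u : F) + D / u) = ((u' : F) + D / u') := by
      have := congrArg (fun z => z * 2) e1
      simpa [div_mul_cancel₀, h2] using this
    have e3 : (D / u - (u : F)) = (D / u' - u') := by
      have := congrArg (fun z => z * 2) h3
      simpa [div_mul_cancel₀, h2] using this
    have e4 : 2 * (u : F) = 2 * u' := by linear_combination e2 - e3
    exact mul_left_cancel₀ h2 e4
  · rintro ⟨x, y⟩ h
    rw [Finset.mem_filter] at h
    have h1 := h.2
    simp only at h1
    rw [hev] at h1
    have h3 : (x + s / 2 - y) * (x + s / 2 + y) = D := by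
      have e : (x + s / 2 - y) * (x + s / 2 + y) = (x + s / 2) ^ 2 - y ^ 2 := by ring
      rw [e, h1, hD]
      field_simp
      ring
    have hu : x + s / 2 - y ≠ 0 := by
      intro h0
      rw [h0, zero_mul] at h3
      exact hD0 h3.symm
    have hDu : D / (x + s / 2 - y) = x + s / 2 + y := by
      rw [← h3, mul_div_cancel_left₀ _ hu]
    refine ⟨Units.mk0 _ hu, Finset.mem_univ _, ?_⟩
    rw [Units.val_mk0, hDu]
    refine Prod.ext ?_ ?_
    · show (x + s / 2 - y + (x + s / 2 + y)) / 2 - s / 2 = x
      field_simp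
      ring
    · show (x + s / 2 + y - (x + s / 2 - y)) / 2 = y
      field_simp
      ring

theorem conic (h2 : (2 : F) ≠ 0) {Q : F[X]} (hm : Q.Monic) (hQ : Irreducible Q)
    (hd : Q.natDegree = 2) :
    2 * (Finset.univ.filter (fun x : F => IsSquare (Q.eval x))).card + 1 = Fintype.card F := by
  have h1 := hyp_card h2 hm hQ hd
  have hnr : ∀ c : F, Q.eval c ≠ 0 := by
    intro c h1
    have h2 : Q.natDegree = 1 :=
      natDegree_eq_of_degree_eq_some (degree_eq_one_of_irreducible_of_root hQ h1)
    omega
  have h3 : (Finset.univ.filter (fun p : F × F => p.2 ^ 2 = Q.eval p.1)).card =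
      ∑ x : F, (Finset.univ.filter (fun y : F => y ^ 2 = Q.eval x)).card := by
    rw [Finset.card_filter, ← Finset.univ_product_univ, Finset.sum_product]
    refine Finset.sum_congr rfl fun x _ => ?_
    rw [Finset.card_filter]
  have h4 : ∀ x : F, (Finset.univ.filter (fun y : F => y ^ 2 = Q.eval x)).card =
      if IsSquare (Q.eval x) then 2 else 0 := by
    intro x
    split_ifs with hx
    · obtain ⟨y, hy⟩ := hx
      have hy0 : y ≠ 0 := by
        rintro rfl
        exact hnr x (by rw [hy, zero_mul])
      have h5 : Finset.univ.filter (fun z : F => z ^ 2 = Q.eval x) = {y, -y} := by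
        ext z
        rw [Finset.mem_filter, Finset.mem_insert, Finset.mem_singleton, hy, ← pow_two]
        constructor
        · exact fun h => sq_eq_sq_iff_eq_or_eq_neg.1 h.2
        · exact fun h => ⟨Finset.mem_univ _, sq_eq_sq_iff_eq_or_eq_neg.2 h⟩
      rw [h5, Finset.card_pair]
      intro h
      have : 2 * y = 0 := by linear_combination h
      exact (mul_ne_zero h2 hy0) this
    · rw [Finset.card_eq_zero, Finset.filter_eq_empty_iff]
      intro y _ hy
      exact hx ⟨y, by rw [← hy, pow_two]⟩
  rw [h3, Finset.sum_congr rfl fun x _ => h4 x, ← Finset.sum_filter, Finset.sum_const,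
    smul_eq_mul] at h1
  have h5 := Fintype.card_pos (α := F)
  omega

/-- The classes. -/
noncomputable def AA (Q : F[X]) (s : Bool) : Finset F :=
  Finset.univ.filter (fun x : F => (s = true ↔ IsSquare (Q.eval x)))

theorem AA_card (h2 : (2 : F) ≠ 0) {Q : F[X]} (hm : Q.Monic) (hQ : Irreducible Q)
    (hd : Q.natDegree = 2) (s : Bool) : (AA Q s).card ≤ (Fintype.card F + 1) / 2 := by
  have h1 := conic h2 hm hQ hd
  cases s
  · have h3 : AA Q false = (Finset.univ.filter (fun x : F => IsSquare (Q.eval x)))ᶜ := by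
      ext x
      rw [AA, Finset.mem_filter, Finset.mem_compl, Finset.mem_filter]
      simp
    rw [h3, Finset.card_compl]
    omega
  · have h3 : AA Q true = Finset.univ.filter (fun x : F => IsSquare (Q.eval x)) := by
      ext x
      rw [AA, Finset.mem_filter, Finset.mem_filter]
      simp
    rw [h3]
    omega

/-- A residue class. -/
theorem cls_card {Q : F[X]} (hm : Q.Monic) (hd : Q.natDegree = 2) {m : ℕ} (hm1 : 1 ≤ m) (g : F[X]) :
    (Finset.univ.filter (fun a : Fin (m + 1) → F => Q ∣ bF a - g)).card ≤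
      Fintype.card F ^ (m - 1) := by
  rcases (Finset.univ.filter (fun a : Fin (m + 1) → F => Q ∣ bF a - g)).eq_empty_or_nonempty with
    h | ⟨a0, h0⟩
  · rw [h, Finset.card_empty]
    exact Nat.zero_le _
  · rw [Finset.mem_filter] at h0
    have hc : Fintype.card F ^ (m - 1) = (Finset.univ : Finset (Fin (m - 1) → F)).card := by
      rw [Finset.card_univ, Fintype.card_fun, Fintype.card_fin]
    rw [hc]
    refine Finset.card_le_card_of_injOn
      (fun a => fun j : Fin (m - 1) => ((bF a - bF a0) /ₘ Q).coeff j)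
      (fun _ _ => Finset.mem_univ _) ?_
    have key : ∀ a : Fin (m + 1) → F, Q ∣ bF a - g → bF a = bF a0 + Q *
        bF (fun j : Fin (m - 1) => ((bF a - bF a0) /ₘ Q).coeff j) := by
      intro a ha
      have h1 : Q ∣ bF a - bF a0 := by
        have := dvd_sub ha h0.2
        rwa [sub_sub_sub_cancel_right] at this
      have h3 : ((bF a - bF a0) /ₘ Q).degree < ((m - 1 : ℕ) : WithBot ℕ) := by
        by_cases h4 : (bF a - bF a0) /ₘ Q = 0
        · rw [h4, degree_zero]
          exact WithBot.bot_lt_coe _
        · rw [degree_eq_natDegree h4]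
          have h5 : ((bF a - bF a0) /ₘ Q).natDegree = (bF a - bF a0).natDegree - 2 := by
            rw [natDegree_divByMonic _ hm, hd]
          have h6 : (bF a - bF a0).natDegree ≤ m :=
            (natDegree_sub_le _ _).trans (max_le (bF_nd _) (bF_nd _))
          have h7 : 2 ≤ (bF a - bF a0).natDegree := by
            by_contra h8
            push Not at h8
            apply h4
            rw [divByMonic_eq_zero_iff hm]
            rw [← hd] at h8
            exact degree_lt_degree h8
          have h9 : ((bF a - bF a0) /ₘ Q).natDegree < m - 1 := by omega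
          exact_mod_cast h9
      rw [bF_of h3]
      have h4 := EuclideanDomain.mul_div_cancel' (hm.ne_zero) h1
      rw [← divByMonic_eq_div _ hm] at h4
      rw [h4]
      ring
    intro a ha a' ha' h
    rw [Finset.mem_coe, Finset.mem_filter] at ha ha'
    apply bF_inj
    rw [key a ha.2, key a' ha'.2]
    simp only at h
    rw [h]

/-- Square roots modulo a quadratic polynomial. -/
theorem sqr_card {Q : F[X]} (hm : Q.Monic) (hQ : Irreducible Q) (hd : Q.natDegree = 2) {m : ℕ}
    (hm1 : 1 ≤ m) (g : F[X]) :
    (Finset.univ.filter (fun a : Fin (m + 1) → F => Q ∣ (bF a) ^ 2 - g)).card ≤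
      2 * Fintype.card F ^ (m - 1) := by
  rcases (Finset.univ.filter (fun a : Fin (m + 1) → F => Q ∣ (bF a) ^ 2 - g)).eq_empty_or_nonempty
    with h | ⟨a0, h0⟩
  · rw [h, Finset.card_empty]
    exact Nat.zero_le _
  · rw [Finset.mem_filter] at h0
    have hsub : Finset.univ.filter (fun a : Fin (m + 1) → F => Q ∣ (bF a) ^ 2 - g) ⊆
        Finset.univ.filter (fun a : Fin (m + 1) → F => Q ∣ bF a - bF a0) ∪
        Finset.univ.filter (fun a : Fin (m + 1) → F => Q ∣ bF a - -bF a0) := by
      intro a ha
      rw [Finset.mem_filter] at ha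
      rw [Finset.mem_union, Finset.mem_filter, Finset.mem_filter]
      have h1 : Q ∣ (bF a - bF a0) * (bF a - -bF a0) := by
        have h3 := dvd_sub ha.2 h0.2
        have e : (bF a) ^ 2 - g - ((bF a0) ^ 2 - g) = (bF a - bF a0) * (bF a - -bF a0) := by ring
        rwa [e] at h3
      rcases hQ.prime.dvd_or_dvd h1 with h | h
      · exact Or.inl ⟨Finset.mem_univ _, h⟩
      · exact Or.inr ⟨Finset.mem_univ _, h⟩
    refine (Finset.card_le_card hsub).trans ((Finset.card_union_le _ _).trans ?_)
    have h1 := cls_card hm hd hm1 (bF a0)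
    have h3 := cls_card hm hd hm1 (-bF a0)
    omega

/-- Polynomials with a given root. -/
theorem root_card {r : ℕ} (c : F) :
    (Finset.univ.filter (fun a : Fin (r + 1) → F => (bF a).eval c = 0)).card ≤
      Fintype.card F ^ r := by
  have hc : Fintype.card F ^ r = (Finset.univ : Finset (Fin r → F)).card := by
    rw [Finset.card_univ, Fintype.card_fun, Fintype.card_fin]
  rw [hc]
  refine Finset.card_le_card_of_injOn (fun a => Fin.tail a) (fun _ _ => Finset.mem_univ _) ?_
  intro a ha a' ha' h
  rw [Finset.mem_coe, Finset.mem_filter] at ha ha'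
  have key : ∀ a : Fin (r + 1) → F, (bF a).eval c = a 0 + ∑ i : Fin r, Fin.tail a i * c ^ ((i : ℕ) + 1) := by
    intro a
    unfold bF
    rw [eval_finset_sum, Fin.sum_univ_succ]
    simp [Fin.tail]
  have h1 := ha.2
  have h3 := ha'.2
  rw [key] at h1 h3
  have h' : Fin.tail a = Fin.tail a' := h
  rw [h'] at h1
  have h4 : a 0 = a' 0 := add_right_cancel (h1.trans h3.symm)
  rw [← Fin.cons_self_tail a, ← Fin.cons_self_tail a', h', h4]

/-- Pairs with a common root. -/
theorem com_card {m : ℕ} :
    (Finset.univ.filter (fun x : (Fin (m + 1) → F) × (Fin (2 * m + 1) → F) =>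
      ∃ c : F, (bF x.1).eval c = 0 ∧ (bF x.2).eval c = 0)).card ≤ Fintype.card F ^ (3 * m + 1) := by
  have hsub : Finset.univ.filter (fun x : (Fin (m + 1) → F) × (Fin (2 * m + 1) → F) =>
      ∃ c : F, (bF x.1).eval c = 0 ∧ (bF x.2).eval c = 0) ⊆
      Finset.univ.biUnion (fun c : F =>
        (Finset.univ.filter (fun a : Fin (m + 1) → F => (bF a).eval c = 0)) ×ˢ
        (Finset.univ.filter (fun b : Fin (2 * m + 1) → F => (bF b).eval c = 0))) := by
    intro x hx
    rw [Finset.mem_filter] at hx
    obtain ⟨-, c, h1, h3⟩ := hx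
    rw [Finset.mem_biUnion]
    refine ⟨c, Finset.mem_univ _, ?_⟩
    rw [Finset.mem_product, Finset.mem_filter, Finset.mem_filter]
    exact ⟨⟨Finset.mem_univ _, h1⟩, ⟨Finset.mem_univ _, h3⟩⟩
  refine (Finset.card_le_card hsub).trans (Finset.card_biUnion_le.trans ?_)
  calc _ ≤ ∑ c : F, Fintype.card F ^ (3 * m) := by
        refine Finset.sum_le_sum fun c _ => ?_
        rw [Finset.card_product]
        refine (Nat.mul_le_mul (root_card (r := m) c) (root_card (r := 2 * m) c)).trans ?_
        rw [← pow_add]
        exact le_of_eq (by congr 1; ring)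
    _ = Fintype.card F ^ (3 * m + 1) := by
        rw [Finset.sum_const, Finset.card_univ, smul_eq_mul, pow_succ']

end conic

end Pool.Agent.K9h16.QT
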