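import Pool.Agent.K9h16.QT.An7
import Pool.Agent.K9h16.QT.FinT
import Pool.Agent.K9h16.PT.Cnt

/-!
The events at a maximal ideal and their density.
-/

set_option autoImplicit false
set_option linter.all false

open Polynomial
open scoped Classical

namespace Pool.Agent.K9h16.QT

open Pool.Agent.TH115.GD Pool.Agent.X243.Gen Pool.Agent.X243.Tate Pool.Agent.X243.Sol
open Pool.Agent.Y160.T3 Pool.Agent.K9h16.PT

section card

variable {F : Type} [Field F] [Fintype F] {m : ℕ}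

theorem pairs_ncard (T : Finset ((Fin (m + 1) → F) × (Fin (2 * m + 1) → F))) :
    ({z : Fin (m + 1) ⊕ Fin (2 * m + 1) → F | (z ∘ Sum.inl, z ∘ Sum.inr) ∈ T}).ncard = T.card := by
  have h1 : {z : Fin (m + 1) ⊕ Fin (2 * m + 1) → F | (z ∘ Sum.inl, z ∘ Sum.inr) ∈ T} =
      (prE F m (2 * m)) ⁻¹' (T : Set ((Fin (m + 1) → F) × (Fin (2 * m + 1) → F))) := rfl
  rw [h1, Set.ncard_preimage_of_injective_subset_range (Equiv.injective _) (by simp),
    Set.ncard_coe_finset]

theorem cf_true (z : Fin (m + 1) ⊕ Fin (2 * m + 1) → F) : cf true z = z ∘ Sum.inr := by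
  funext j
  show (if true = true then (0 : F) else _) + (if true = true then (1 : F) else -4) * z (Sum.inr j) = _
  rw [if_pos rfl, if_pos rfl, zero_add, one_mul]
  rfl

theorem cf_false (z : Fin (m + 1) ⊕ Fin (2 * m + 1) → F) :
    cf false z = sq (z ∘ Sum.inl) + n4 (z ∘ Sum.inr) := by
  funext j
  show (if false = true then (0 : F) else ((bF (z ∘ Sum.inl)) ^ 2).coeff j) +
    (if false = true then (1 : F) else -4) * z (Sum.inr j) = _
  rw [if_neg (by decide), if_neg (by decide)]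
  rfl

theorem mix_dens (h2 : (2 : F) ≠ 0) {D : ℝ} (hD : 0 < D) (S S' : Finset (Fin (2 * m + 1) → F))
    (hS : (Fintype.card F : ℝ) ^ (4 * m + 2) ≤ D * ((S.card : ℝ) * S'.card))
    (hq : 2 * D ≤ Real.sqrt (Fintype.card F)) :
    1 / (2 * D) * (Fintype.card F : ℝ) ^ (3 * m + 2) ≤ (TT S S').card := by
  have hmix := mix (m := m) h2 S S'
  obtain ⟨q, hqd⟩ : ∃ q : ℝ, q = (Fintype.card F : ℝ) := ⟨_, rfl⟩
  rw [← hqd] at hS hq hmix ⊢
  have hq0 : 0 < q := by
    rw [hqd]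
    exact_mod_cast Fintype.card_pos
  have h1 : q ^ (4 * m + 2) = Real.sqrt q * (Real.sqrt q * q ^ (4 * m + 1)) := by
    rw [← mul_assoc, Real.mul_self_sqrt hq0.le, ← pow_succ']
  have h3 : 2 * D * (Real.sqrt q * q ^ (4 * m + 1)) ≤ q ^ (4 * m + 2) := by
    rw [h1]
    exact mul_le_mul_of_nonneg_right hq (by positivity)
  have h4 : q ^ (4 * m + 2) ≤ D * (q ^ m * (TT S S').card) + D * (Real.sqrt q * q ^ (4 * m + 1)) := by
    refine hS.trans ?_
    rw [← mul_add]
    exact mul_le_mul_of_nonneg_left hmix hD.le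
  have h5 : q ^ (4 * m + 2) = q ^ m * q ^ (3 * m + 2) := by rw [← pow_add]; congr 1; ring
  have h6 : q ^ m * q ^ (3 * m + 2) ≤ q ^ m * (2 * D * (TT S S').card) := by
    rw [← h5]
    linarith
  have h7 := le_of_mul_le_mul_left h6 (by positivity)
  rw [one_div, inv_mul_le_iff₀ (by positivity)]
  exact h7

end card

/-- The index set of the events. -/
abbrev Iq : Type := (Bool × Fin 3) ⊕ Option Bool

/-- The events. -/
def Gq (m : ℕ) (s : Iq) (R : Type) [CommRing R] : Set (Fin (m + 1) ⊕ Fin (2 * m + 1) → R) :=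
  match s with
  | Sum.inl s => Gev3 m (2 * m) s R
  | Sum.inr (some s) => {z | cf s z ∈ E3 R (2 * m) ∧ cf (!s) z ∈ E4 R (2 * m)}
  | Sum.inr none => {z | M7 (2 * m) (bF (cf true z)) (bF (cf false z))}

theorem Gq_dens {m : ℕ} (hm : 3 ≤ m) : ∃ (B : ℕ) (c : ℝ), 0 < c ∧
    ∀ (F : Type) [Field F] [Finite F], (2 : F) ≠ 0 → B ≤ Nat.card F → ∀ s : Iq,
      c * (Nat.card F : ℝ) ^ (Fintype.card (Fin (m + 1) ⊕ Fin (2 * m + 1))) ≤
        ((Gq m s F).ncard : ℝ) := by
  obtain ⟨B1, c1, hc1, h7⟩ := X7_dens hm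
  have hDD : (0 : ℝ) < ((DD (2 * m) : ℕ) : ℝ) := by
    have h1 : 0 < DD (2 * m) := by
      have := D3_pos (2 * m)
      have h3 : 0 < 4 * (2 * m) := by omega
      unfold DD
      positivity
    exact_mod_cast h1
  obtain ⟨D, hDd⟩ : ∃ D : ℝ, D = ((D3 (2 * m) : ℕ) : ℝ) * ((D4 (2 * m) : ℕ) : ℝ) := ⟨_, rfl⟩
  have hD : 0 < D := by
    rw [hDd]
    have h1 : (0 : ℝ) < ((D3 (2 * m) : ℕ) : ℝ) := by exact_mod_cast D3_pos _
    have h3 : (0 : ℝ) < ((D4 (2 * m) : ℕ) : ℝ) := by exact_mod_cast D4_pos _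
    positivity
  obtain ⟨B2, hB2⟩ := exists_nat_gt ((2 * D) ^ 2)
  refine ⟨max (4 * m + 2) (max B1 B2), min c1 (min (1 / ((DD (2 * m) : ℕ) : ℝ)) (1 / (2 * D))),
    lt_min hc1 (lt_min (by positivity) (by positivity)), fun F _ _ h2 hB s => ?_⟩
  haveI := Fintype.ofFinite F
  have hq1 : 4 * m + 2 ≤ Nat.card F := (le_max_left _ _).trans hB
  have hq2 : B1 ≤ Nat.card F := (le_max_left _ _).trans ((le_max_right _ _).trans hB)
  have hq3 : B2 ≤ Nat.card F := (le_max_right _ _).trans ((le_max_right _ _).trans hB)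
  have hmono : ∀ (c' : ℝ) (X : ℝ), min c1 (min (1 / ((DD (2 * m) : ℕ) : ℝ)) (1 / (2 * D))) ≤ c' →
      c' * (Nat.card F : ℝ) ^ (Fintype.card (Fin (m + 1) ⊕ Fin (2 * m + 1))) ≤ X →
      min c1 (min (1 / ((DD (2 * m) : ℕ) : ℝ)) (1 / (2 * D))) *
        (Nat.card F : ℝ) ^ (Fintype.card (Fin (m + 1) ⊕ Fin (2 * m + 1))) ≤ X := by
    intro c' X h h'
    exact (mul_le_mul_of_nonneg_right h (by positivity)).trans h'
  have hcard : Fintype.card (Fin (m + 1) ⊕ Fin (2 * m + 1)) = 3 * m + 2 := by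
    rw [Fintype.card_sum, Fintype.card_fin, Fintype.card_fin]
    ring
  have hsq : 2 * D ≤ Real.sqrt (Fintype.card F) := by
    apply Real.le_sqrt_of_sq_le
    rw [Nat.card_eq_fintype_card] at hq3
    exact hB2.le.trans (by exact_mod_cast hq3)
  rcases s with s | s
  · refine hmono _ _ ((min_le_right _ _).trans (min_le_left _ _)) ?_
    exact Gev3_card (m := m) (N := 2 * m) (by omega) (by omega) h2 s
  · rcases s with _ | s
    · refine hmono _ _ (min_le_left _ _) ?_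
      rw [hcard]
      have h3 := h7 F h2 (by rw [← Nat.card_eq_fintype_card]; exact hq2)
      rw [← Nat.card_eq_fintype_card] at h3
      refine h3.trans (le_of_eq ?_)
      rw [← pairs_ncard]
      congr 2
      ext z
      rw [Set.mem_setOf_eq, X7, Finset.mem_filter]
      show _ ↔ M7 (2 * m) (bF (cf true z)) (bF (cf false z))
      rw [cf_true, cf_false]
      exact ⟨fun h => h.2, fun h => ⟨Finset.mem_univ _, h⟩⟩
    · refine hmono _ _ ((min_le_right _ _).trans (min_le_right _ _)) ?_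
      rw [hcard]
      have e3 := E3_card (F := F) (N := 2 * m) (by omega) (by
        rw [← Nat.card_eq_fintype_card]; omega)
      have e4 := E4_card (F := F) (N := 2 * m) (by omega) (by
        rw [← Nat.card_eq_fintype_card]; omega)
      obtain ⟨T3, hT3⟩ : ∃ T : Finset (Fin (2 * m + 1) → F), T = (E3 F (2 * m)).toFinset := ⟨_, rfl⟩
      obtain ⟨T4, hT4⟩ : ∃ T : Finset (Fin (2 * m + 1) → F), T = (E4 F (2 * m)).toFinset := ⟨_, rfl⟩
      rw [Set.ncard_eq_toFinset_card', ← hT3] at e3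
      rw [Set.ncard_eq_toFinset_card', ← hT4] at e4
      have e3' : (Fintype.card F : ℝ) ^ (2 * m + 1) ≤ ((D3 (2 * m) : ℕ) : ℝ) * T3.card := by
        exact_mod_cast e3
      have e4' : (Fintype.card F : ℝ) ^ (2 * m + 1) ≤ ((D4 (2 * m) : ℕ) : ℝ) * T4.card := by
        exact_mod_cast e4
      have e34 : (Fintype.card F : ℝ) ^ (4 * m + 2) ≤ D * ((T3.card : ℝ) * T4.card) := by
        have h5 : (Fintype.card F : ℝ) ^ (4 * m + 2) =
            (Fintype.card F : ℝ) ^ (2 * m + 1) * (Fintype.card F : ℝ) ^ (2 * m + 1) := by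
          rw [← pow_add]; congr 1; ring
        rw [h5]
        refine (mul_le_mul e3' e4' (by positivity) (by positivity)).trans (le_of_eq ?_)
        rw [hDd]
        ring
      cases s
      · have h5 := mix_dens (m := m) h2 hD T4 T3 (by rw [mul_comm (T4.card : ℝ)]; exact e34) hsq
        rw [← Nat.card_eq_fintype_card] at h5
        refine h5.trans (le_of_eq ?_)
        rw [← pairs_ncard]
        congr 2
        ext z
        rw [Set.mem_setOf_eq, TT, Finset.mem_filter]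
        show _ ↔ cf false z ∈ E3 F (2 * m) ∧ cf true z ∈ E4 F (2 * m)
        rw [cf_true, cf_false, hT3, hT4, Set.mem_toFinset, Set.mem_toFinset]
        exact ⟨fun h => ⟨h.2.2, h.2.1⟩, fun h => ⟨Finset.mem_univ _, h.2, h.1⟩⟩
      · have h5 := mix_dens (m := m) h2 hD T3 T4 e34 hsq
        rw [← Nat.card_eq_fintype_card] at h5
        refine h5.trans (le_of_eq ?_)
        rw [← pairs_ncard]
        congr 2
        ext z
        rw [Set.mem_setOf_eq, TT, Finset.mem_filter]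
        show _ ↔ cf true z ∈ E3 F (2 * m) ∧ cf false z ∈ E4 F (2 * m)
        rw [cf_true, cf_false, hT3, hT4, Set.mem_toFinset, Set.mem_toFinset]
        exact ⟨fun h => ⟨h.2.1, h.2.2⟩, fun h => ⟨Finset.mem_univ _, h.1, h.2⟩⟩

section dens

variable {R k : Type} [CommRing R] [IsDomain R] [IsIntegrallyClosed R] [IsNoetherianRing R]
  [Field k] [Algebra R k] [IsFractionRing R k]

variable (R) in
theorem densQ [Algebra.FiniteType ℤ R] (hR : ¬ IsField R)
    (h2 : (2 : R) ≠ 0) {m : ℕ} (hm : 3 ≤ m) : ∃ B : ℕ, ∀ (η : ℝ) (hη : 0 < η),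
    ∃ M : Ideal R, Finite (R ⧸ M) ∧
      (1 - η) * (Nat.card (R ⧸ M) : ℝ) ^ (Fintype.card (Fin (m + 1) ⊕ Fin (2 * m + 1))) ≤
      (({x : Fin (m + 1) ⊕ Fin (2 * m + 1) → R ⧸ M | ∀ s : Iq,
        ∃ p ∈ Zg R B, ∀ y : Fin (m + 1) ⊕ Fin (2 * m + 1) → R,
          (∀ j, Ideal.Quotient.mk M (y j) = x j) →
          (fun j => Ideal.Quotient.mk p (y j)) ∈ Gq m s (R ⧸ p)}).ncard : ℝ) := by
  obtain ⟨B, c, hc, h⟩ := Gq_dens hm
  refine ⟨B, fun η hη => ?_⟩
  refine densityG (Zg R B) (Zg_inf R hR h2 _) (fun p hp => hp.1) (fun p hp => hp.2.1)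
    (fun s p => Gq m s (R ⧸ p)) hc ?_ η hη
  intro s p hp
  haveI := hp.1
  letI : Field (R ⧸ p) := Ideal.Quotient.field p
  haveI : Finite (R ⧸ p) := hp.2.1
  exact h (R ⧸ p) (Zg_two hp) hp.2.2.1 s

/-- The group theoretic conditions from the events. -/
theorem gc_of (h2 : (2 : R) ≠ 0) {m B : ℕ} (hm : 3 ≤ m) {y : Fin (m + 1) ⊕ Fin (2 * m + 1) → R}
    (h : ∀ s : Iq, ∃ p ∈ Zg R B,
      (fun j => Ideal.Quotient.mk p (y j)) ∈ Gq m s (R ⧸ p)) (a b : k[X])
    (ha : a = (bF (y ∘ Sum.inl)).map (algebraMap R k))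
    (hb : b = (bF (y ∘ Sum.inr)).map (algebraMap R k)) :
    FF (2 * m) b ∧ FF (2 * m) (a ^ 2 - 4 * b) ∧ PairG b (a ^ 2 - 4 * b) ∧
      PairG (a ^ 2 - 4 * b) b ∧ MinG b (a ^ 2 - 4 * b) := by
  obtain ⟨f1, f2⟩ := goodG (k := k) (m := m) (N := 2 * m) (B := B) le_rfl (by omega)
    (fun s => h (Sum.inl s)) a b ha hb
  have e1 : (pol true y).map (algebraMap R k) = b := by rw [hb]; rfl
  have e2 : (pol false y).map (algebraMap R k) = a ^ 2 - 4 * b := by
    rw [ha, hb, pol]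
    simp only [Bool.false_eq_true, if_false, Polynomial.map_sub, Polynomial.map_pow,
      Polynomial.map_mul, Polynomial.map_ofNat]
  have key : ∀ s : Bool, PairG ((pol (!s) y).map (algebraMap R k)) ((pol s y).map (algebraMap R k)) := by
    intro s
    obtain ⟨p, hp, e⟩ := h (Sum.inr (some s))
    obtain ⟨u1, u2⟩ := e
    haveI := hp.1
    haveI := hp.2.1
    refine frob_pair (N := 2 * m) p k (pol_nd _ le_rfl y) (pol_nd _ le_rfl y) ?_ ?_
    · rw [pol_map, ← bF_cf _ le_rfl]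
      exact u2
    · rw [pol_map, ← bF_cf _ le_rfl]
      exact u1
  have key2 : MinG ((pol true y).map (algebraMap R k)) ((pol false y).map (algebraMap R k)) := by
    obtain ⟨p, hp, e⟩ := h (Sum.inr none)
    have e' : M7 (2 * m) (bF (cf true (fun j => Ideal.Quotient.mk p (y j))))
      (bF (cf false (fun j => Ideal.Quotient.mk p (y j)))) := e
    haveI := hp.1
    haveI := hp.2.1
    refine frob_min7 p k (n := 2 * m) (even_two_mul m) (by omega) (pol_nd _ le_rfl y)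
      (pol_nd _ le_rfl y) (Zg_two hp) ?_
    rw [pol_map, pol_map, ← bF_cf _ le_rfl, ← bF_cf _ le_rfl]
    exact e'
  have k1 := key true
  have k2 := key false
  simp only [Bool.not_true, Bool.not_false] at k1 k2
  rw [e1, e2] at k1 key2
  rw [e1, e2] at k2
  exact ⟨f1, f2, k2, k1, key2⟩

end dens

end Pool.Agent.K9h16.QT
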