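import Pool.Agent.K9h16.QT.Par
import Pool.Agent.K9h16.PT.Sg

/-!
The Kummer generators over the field of the points of order two, and the action of the Galois group.
-/

set_option autoImplicit false
set_option linter.all false

open Polynomial IsDedekindDomain WeierstrassCurve WeierstrassCurve.Affine
open scoped Classical Pointwise

namespace Pool.Agent.K9h16.QT

open Pool.Agent.TH115.GD Pool.Agent.K9h16.PT
open Pool.Agent.W309.TD (locConst_apply exists_root compare)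

section sub

variable {F Ω : Type} [Field F] [Field Ω] [Algebra F Ω] [IsGalois F Ω]

/-- Kummer theory for the stabilizer of an element. -/
theorem exists_root_sub (α : Ω) (χ : (Ω ≃ₐ[F] Ω) → Ω) (hχ : ∀ σ, χ σ = 1 ∨ χ σ = -1)
    (hmul : ∀ σ τ, σ α = α → τ α = α → χ (σ * τ) = χ σ * χ τ) (hc : IsLocallyConstant χ)
    (h2 : (2 : Ω) ≠ 0) : ∃ s : Ω, s ≠ 0 ∧ ∀ σ, σ α = α → σ s = χ σ * s := by
  have h11 : (1 : Ω) ≠ -1 := by
    intro h'
    exact h2 (by linear_combination h')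
  have hone : χ 1 = 1 := by
    have := hmul 1 1 rfl rfl
    rw [mul_one] at this
    rcases hχ 1 with h | h
    · exact h
    · rw [h] at this
      exact absurd (by linear_combination -this) h11
  have hinv : ∀ σ : Ω ≃ₐ[F] Ω, σ α = α → σ⁻¹ α = α := fun σ h => by
    conv_lhs => rw [← h]
    exact σ.symm_apply_apply _
  by_cases htriv : ∀ σ, σ α = α → χ σ = 1
  · exact ⟨1, one_ne_zero, fun σ hσ => by rw [htriv σ hσ, map_one, mul_one]⟩
  · push Not at htriv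
    obtain ⟨τ, hτα, hτ⟩ := htriv
    have hτ' : χ τ = -1 := (hχ τ).resolve_left hτ
    let H : Subgroup (Ω ≃ₐ[F] Ω) :=
      { carrier := {σ | σ α = α ∧ χ σ = 1}
        mul_mem' := by
          rintro a b ⟨ha, ha'⟩ ⟨hb, hb'⟩
          refine ⟨?_, ?_⟩
          · show a (b α) = α
            rw [hb, ha]
          · rw [hmul _ _ ha hb, ha', hb', mul_one]
        one_mem' := ⟨rfl, hone⟩
        inv_mem' := by
          rintro a ⟨ha, ha'⟩
          refine ⟨hinv a ha, ?_⟩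
          have := hmul a⁻¹ a (hinv a ha) ha
          rw [inv_mul_cancel, hone, ha', mul_one] at this
          exact this.symm }
    have hHo : IsOpen (H : Set (Ω ≃ₐ[F] Ω)) := by
      have h1 : IsOpen {σ : Ω ≃ₐ[F] Ω | σ α = α} := (locConst_apply (K := F) α).isOpen_fiber α
      exact h1.inter (hc.isOpen_fiber 1)
    let Hc : ClosedSubgroup (Ω ≃ₐ[F] Ω) := ⟨H, H.isClosed_of_isOpen hHo⟩
    have hfx := InfiniteGalois.fixingSubgroup_fixedField Hc
    have hτn : τ ∉ (IntermediateField.fixedField (Hc : Subgroup (Ω ≃ₐ[F] Ω))).fixingSubgroup := by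
      rw [hfx]
      intro h
      exact hτ h.2
    rw [IntermediateField.mem_fixingSubgroup_iff] at hτn
    push Not at hτn
    obtain ⟨x, hx, hx'⟩ := hτn
    have hxH : ∀ σ, σ α = α → χ σ = 1 → σ x = x := by
      intro σ h hσ
      exact hx ⟨σ, h, hσ⟩
    have hiv : χ τ⁻¹ = -1 := by
      have := hmul τ⁻¹ τ (hinv τ hτα) hτα
      rw [inv_mul_cancel, hone, hτ'] at this
      linear_combination this
    refine ⟨x - τ x, sub_ne_zero.2 (Ne.symm hx'), fun σ hσ => ?_⟩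
    have hστ : (τ⁻¹ * σ) α = α := by
      show τ⁻¹ (σ α) = α
      rw [hσ, hinv τ hτα]
    rw [map_sub]
    rcases hχ σ with h | h
    · have e1 : σ x = x := hxH σ hσ h
      have e2 : σ (τ x) = τ x := by
        have h3 : χ (τ⁻¹ * σ * τ) = 1 := by
          rw [hmul _ _ hστ hτα, hmul _ _ (hinv τ hτα) hσ, h, mul_one, hiv, hτ']
          ring
        have h4 := hxH _ (by
          show (τ⁻¹ * σ) (τ α) = α
          rw [hτα, hστ]) h3
        rw [AlgEquiv.mul_apply, AlgEquiv.mul_apply] at h4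
        have h5 := congrArg τ h4
        rw [← AlgEquiv.mul_apply τ τ⁻¹, mul_inv_cancel, AlgEquiv.one_apply] at h5
        exact h5
      rw [e1, e2, h, one_mul]
    · have e1 : σ x = τ x := by
        have h3 : χ (τ⁻¹ * σ) = 1 := by
          rw [hmul _ _ (hinv τ hτα) hσ, h, hiv]; ring
        have h4 := hxH _ hστ h3
        rw [AlgEquiv.mul_apply] at h4
        have h5 := congrArg τ h4
        rw [← AlgEquiv.mul_apply τ τ⁻¹, mul_inv_cancel, AlgEquiv.one_apply] at h5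
        exact h5
      have e2 : σ (τ x) = x := by
        have h3 : χ (σ * τ) = 1 := by
          rw [hmul _ _ hσ hτα, h, hτ']; ring
        have h4 := hxH _ (by
          show σ (τ α) = α
          rw [hτα, hσ]) h3
        rwa [AlgEquiv.mul_apply] at h4
      rw [e1, e2, h]; ring

end sub

section quad

variable {K F : Type} [Field K] [Field F] [Algebra K F] {a b : K} {α β : Sep F}
  (hR : Roots a b (Sep F) α β)

include hR in
theorem gam_sq : (α - β) ^ 2 = algebraMap F (Sep F) (algebraMap K F (a ^ 2 - 4 * b)) := by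
  rw [← IsScalarTower.algebraMap_apply, map_sub, map_mul, map_pow, map_ofNat]
  linear_combination (α + β - algebraMap K (Sep F) a) * hR.sum - 4 * hR.prod

include hR in
theorem exists_sw (hns : ∀ g : F, g ^ 2 ≠ algebraMap K F (a ^ 2 - 4 * b)) :
    ∃ σ : Sep F ≃ₐ[F] Sep F, σ α = β ∧ σ β = α := by
  by_contra hcon
  push Not at hcon
  have h1 : α - β ∈ Set.range (algebraMap F (Sep F)) := by
    rw [InfiniteGalois.mem_range_algebraMap_iff_fixed]
    intro σ
    rcases hR.perm (rs K σ) with ⟨h, h'⟩ | ⟨h, h'⟩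
    · rw [map_sub]
      have e1 : σ α = α := h
      have e2 : σ β = β := h'
      rw [e1, e2]
    · exact absurd h' (hcon σ h)
  obtain ⟨g, hg⟩ := h1
  apply hns g
  apply (algebraMap F (Sep F)).injective
  rw [← gam_sq hR, ← hg, map_pow]

include hR in
theorem gam_ne : α - β ≠ 0 := sub_ne_zero.2 hR.E.neab

include hR in
theorem coord_unique (hns : ∀ g : F, g ^ 2 ≠ algebraMap K F (a ^ 2 - 4 * b)) {u v u' v' : F}
    (h : algebraMap F (Sep F) u + algebraMap F (Sep F) v * (α - β) =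
      algebraMap F (Sep F) u' + algebraMap F (Sep F) v' * (α - β)) : u = u' ∧ v = v' := by
  have hv : v = v' := by
    by_contra hne
    have h1 : v - v' ≠ 0 := sub_ne_zero.2 hne
    apply hns ((u' - u) / (v - v'))
    apply (algebraMap F (Sep F)).injective
    rw [← gam_sq hR, map_pow, map_div₀]
    have h3 : algebraMap F (Sep F) (v - v') ≠ 0 := (_root_.map_ne_zero _).2 h1
    have h4 : algebraMap F (Sep F) (u' - u) = algebraMap F (Sep F) (v - v') * (α - β) := by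
      rw [map_sub, map_sub]
      linear_combination -h
    rw [h4, mul_div_cancel_left₀ _ h3]
  refine ⟨?_, hv⟩
  apply (algebraMap F (Sep F)).injective
  rw [hv] at h
  exact add_right_cancel h

include hR in
/-- The elements fixed by the stabilizer of `α`. -/
theorem coord {σ0 : Sep F ≃ₐ[F] Sep F} (h0 : σ0 α = β) (h0' : σ0 β = α) {x : Sep F}
    (hx : ∀ σ : Sep F ≃ₐ[F] Sep F, σ α = α → σ x = x) :
    ∃ p q : F, x = algebraMap F (Sep F) p + algebraMap F (Sep F) q * (α - β) ∧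
      σ0 x = algebraMap F (Sep F) p - algebraMap F (Sep F) q * (α - β) := by
  have h2 := hR.E.two
  have hperm : ∀ σ : Sep F ≃ₐ[F] Sep F, (σ α = α ∧ σ β = β) ∨ (σ α = β ∧ σ β = α) :=
    fun σ => hR.perm (rs K σ)
  have i0 : σ0⁻¹ β = α := by rw [← h0]; exact σ0.symm_apply_apply _
  have i0' : σ0⁻¹ α = β := by
    have : σ0⁻¹ (σ0 β) = β := σ0.symm_apply_apply _
    rwa [h0'] at this
  have hA : ∀ σ : Sep F ≃ₐ[F] Sep F, σ α = α → σ x = x ∧ σ (σ0 x) = σ0 x := by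
    intro σ hσ
    refine ⟨hx σ hσ, ?_⟩
    have hσβ : σ β = β := by
      rcases hperm σ with h | h
      · exact h.2
      · exact absurd (h.1.symm.trans hσ).symm hR.E.neab
    have h3 := hx (σ0⁻¹ * σ * σ0) (by
      show σ0⁻¹ (σ (σ0 α)) = α
      rw [h0, hσβ, i0])
    have h4 := congrArg σ0 h3
    have h5 : σ0 ((σ0⁻¹ * σ * σ0) x) = σ (σ0 x) := σ0.apply_symm_apply _
    rw [h5] at h4
    exact h4
  have hB : ∀ σ : Sep F ≃ₐ[F] Sep F, σ α = β → σ x = σ0 x ∧ σ (σ0 x) = x := by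
    intro σ hσ
    have hσβ : σ β = α := by
      rcases hperm σ with h | h
      · exact absurd (h.1.symm.trans hσ) hR.E.neab
      · exact h.2
    constructor
    · have h3 := hx (σ0⁻¹ * σ) (by
        show σ0⁻¹ (σ α) = α
        rw [hσ, i0])
      have h4 := congrArg σ0 h3
      have h5 : σ0 ((σ0⁻¹ * σ) x) = σ x := σ0.apply_symm_apply _
      rw [h5] at h4
      exact h4
    · exact hx (σ * σ0) (by
        show σ (σ0 α) = α
        rw [h0, hσβ])
  have hγ := gam_ne hR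
  have r1 : (x + σ0 x) / 2 ∈ Set.range (algebraMap F (Sep F)) := by
    rw [InfiniteGalois.mem_range_algebraMap_iff_fixed]
    intro σ
    rw [map_div₀, map_add, map_ofNat]
    rcases hperm σ with h | h
    · rw [(hA σ h.1).1, (hA σ h.1).2]
    · rw [(hB σ h.1).1, (hB σ h.1).2, add_comm]
  have r2 : (x - σ0 x) / (2 * (α - β)) ∈ Set.range (algebraMap F (Sep F)) := by
    rw [InfiniteGalois.mem_range_algebraMap_iff_fixed]
    intro σ
    rw [map_div₀, map_sub, map_mul, map_sub, map_ofNat]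
    rcases hperm σ with h | h
    · rw [(hA σ h.1).1, (hA σ h.1).2, h.1, h.2]
    · have hγ' : β - α ≠ 0 := sub_ne_zero.2 (Ne.symm hR.E.neab)
      rw [(hB σ h.1).1, (hB σ h.1).2, h.1, h.2]
      field_simp
      ring
  obtain ⟨p, hp⟩ := r1
  obtain ⟨q, hq⟩ := r2
  refine ⟨p, q, ?_, ?_⟩
  · rw [hp, hq]
    field_simp
    ring
  · rw [hp, hq]
    field_simp
    ring

include hR in
/-- The elements fixed by the stabilizer of `α` and by `σ0`. -/
theorem coord0 {σ0 : Sep F ≃ₐ[F] Sep F} (h0 : σ0 α = β) (h0' : σ0 β = α) {x : Sep F}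
    (hx : ∀ σ : Sep F ≃ₐ[F] Sep F, σ α = α → σ x = x) (hx0 : σ0 x = x) :
    ∃ w : F, x = algebraMap F (Sep F) w := by
  obtain ⟨p, q, e1, e2⟩ := coord hR h0 h0' hx
  refine ⟨p, ?_⟩
  rw [hx0] at e2
  have h2 := hR.E.two
  have h3 : 2 * (x - algebraMap F (Sep F) p) = 0 := by linear_combination e1 + e2
  exact sub_eq_zero.1 ((mul_eq_zero.1 h3).resolve_left h2)

include hR in
/-- The third sign. -/
theorem s1_third {T : Pt (crvT a b) (Sep F)} (hT : T + T = 0) : s1 β T = s0 T * s1 α T := by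
  have hE := hR.E
  rcases tor_cases hE hT with ⟨h, e0, e1⟩ | ⟨hn, h, e0, e1⟩ | ⟨hn, h, e0, e1⟩ | ⟨hn, h, e0, e1⟩
  · rw [e0, e1, h]
    show (1 : Sep F) = 1 * 1
    rw [one_mul]
  · rw [e0, e1, h]
    simp [s1, Ne.symm hE.neb]
  · rw [e0, e1, h]
    simp [s1, hE.neab]
  · rw [e0, e1, h]
    simp [s1]

include hR in
theorem act_tor_fix {φ : Sep F →ₐ[K] Sep F} (hφ : φ α = α) {T : Pt (crvT a b) (Sep F)}
    (hT : T + T = 0) : act (crvT a b) φ T = T := by
  refine tor_ext hR.E ((two_act _ φ T).2 hT) hT (s0_fix φ T) ?_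
  have h1 := s1_act (crvT a b) φ α T
  rw [hφ] at h1
  rw [h1]
  rcases s1_sq α T with h | h <;> rw [h] <;> simp

end quad

section main

variable {K F : Type} [Field K] [Field F] [Algebra K F] {a b : K} {α β : Sep F}
  (hR : Roots a b (Sep F) α β) (hN : Preserves K F (Sep F))

/-- Equality up to the sign. -/
def Eps (x y : Sep F) : Prop := ∃ κ : ZMod 2, x = pm (Sep F) κ * y

theorem Eps.mul {x y x' y' : Sep F} (h : Eps x y) (h' : Eps x' y') : Eps (x * x') (y * y') := by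
  obtain ⟨κ, rfl⟩ := h
  obtain ⟨κ', rfl⟩ := h'
  exact ⟨κ + κ', by rw [pm_add]; ring⟩

theorem Eps.trans {x y z : Sep F} (h : Eps x y) (h' : Eps y z) : Eps x z := by
  obtain ⟨κ, rfl⟩ := h
  obtain ⟨κ', rfl⟩ := h'
  exact ⟨κ + κ', by rw [pm_add]; ring⟩

theorem pm_pm {Ω : Type} [Field Ω] (κ : ZMod 2) : pm Ω κ * pm Ω κ = 1 := by
  rcases zcases κ with rfl | rfl
  · rw [pm_zero, one_mul]
  · rw [pm_one]; ring

theorem Eps.inv {x y : Sep F} (h : Eps x y) : Eps x⁻¹ y⁻¹ := by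
  obtain ⟨κ, rfl⟩ := h
  refine ⟨κ, ?_⟩
  have h1 : (pm (Sep F) κ)⁻¹ = pm (Sep F) κ := by
    rw [inv_eq_iff_eq_inv]
    exact eq_inv_of_mul_eq_one_left (pm_pm κ)
  rw [mul_inv, h1]

theorem Eps.refl (x : Sep F) : Eps x x := ⟨0, by rw [pm_zero, one_mul]⟩

theorem Eps.of {x y z : Sep F} (hz : z = 1 ∨ z = -1) (h : x = z * y) : Eps x y := by
  rcases hz with rfl | rfl
  · exact ⟨0, by rw [pm_zero, h]⟩
  · exact ⟨1, by rw [pm_one, h]⟩

theorem Eps.map {x y : Sep F} (h : Eps x y) (σ : Sep F ≃ₐ[F] Sep F) : Eps (σ x) (σ y) := by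
  obtain ⟨κ, rfl⟩ := h
  exact ⟨κ, by rw [map_mul, map_pm]⟩

theorem Eps.mapK {x y : Sep F} (h : Eps x y) (τ : Sep F ≃ₐ[K] Sep F) : Eps (τ x) (τ y) := by
  obtain ⟨κ, rfl⟩ := h
  exact ⟨κ, by rw [map_mul, map_pm]⟩

theorem eps_sq {x y : Sep F} (h : x ^ 2 = y ^ 2) : Eps x y := by
  rcases sq_eq_sq_iff_eq_or_eq_neg.1 h with h | h
  · exact ⟨0, by rw [pm_zero, h, one_mul]⟩
  · exact ⟨1, by rw [pm_one, h]; ring⟩

include hR hN in
/-- **The relations.** -/
theorem ff_core (hns : ∀ g : F, g ^ 2 ≠ algebraMap K F (a ^ 2 - 4 * b))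
    {g : (Sep F ≃ₐ[F] Sep F) → Pt (crvT a b) (Sep F)} (hg : IsCoc (crvT a b) g)
    (hg2 : ∀ σ, g σ + g σ = 0) {t0 : Sep F} {a0 : F} (n0 : t0 ≠ 0)
    (e0 : t0 ^ 2 = algebraMap F (Sep F) a0) (k0 : ∀ σ, σ t0 = s0 (g σ) * t0)
    (τ : Sep F ≃ₐ[K] Sep F) (hτα : τ α = α) {e : F ≃+* F}
    (he : ∀ x : F, τ (algebraMap F (Sep F) x) = algebraMap F (Sep F) (e x)) (ha0 : e a0 = a0)
    {t1' : Sep F} {a1 : F} (n1' : t1' ≠ 0) (e1' : t1' ^ 2 = algebraMap F (Sep F) a1)
    (k1' : ∀ σ, σ t1' = s1 α (act (crvT a b) (ak τ) (g (cj hN τ σ)) - g σ) * t1') :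
    ∃ (p q R S w : F) (κ κ' : ZMod 2),
      p ^ 2 - q ^ 2 * algebraMap K F (a ^ 2 - 4 * b) = a0 ∧ (R ≠ 0 ∨ S ≠ 0) ∧ w ≠ 0 ∧
      e p * R - e q * S * algebraMap K F (a ^ 2 - 4 * b) =
        pm F κ * (p * R + q * S * algebraMap K F (a ^ 2 - 4 * b)) ∧
      e q * R - e p * S = pm F κ * (q * R + p * S) ∧
      e w = pm F κ' * w * (R ^ 2 - S ^ 2 * algebraMap K F (a ^ 2 - 4 * b)) * a1 := by
  have hE := hR.E
  obtain ⟨σ0, h0, h0'⟩ := exists_sw hR hns
  have hperm : ∀ σ : Sep F ≃ₐ[F] Sep F, (σ α = α ∧ σ β = β) ∨ (σ α = β ∧ σ β = α) :=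
    fun σ => hR.perm (rs K σ)
  have hfixβ : ∀ σ : Sep F ≃ₐ[F] Sep F, σ α = α → σ β = β := by
    intro σ hσ
    rcases hperm σ with h | h
    · exact h.2
    · exact absurd (h.1.symm.trans hσ).symm hE.neab
  have hτβ : τ β = β := by
    have h1 := congrArg τ hR.sum
    rw [map_add, map_neg, τ.commutes, hτα] at h1
    linear_combination h1 - hR.sum
  have hact1 : ∀ σ : Sep F ≃ₐ[F] Sep F, σ α = α → ∀ T : Pt (crvT a b) (Sep F), T + T = 0 →
      act (crvT a b) (rs K σ) T = T := fun σ hσ T hT => act_tor_fix hR (φ := rs K σ) hσ hT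
  -- the second generator over the field of `α`
  obtain ⟨t1, n1, k1⟩ := exists_root_sub (F := F) α (fun σ => s1 α (g σ)) (fun σ => s1_sq _ _)
    (fun σ ρ hσ hρ => by
      show s1 α (g (σ * ρ)) = s1 α (g σ) * s1 α (g ρ)
      rw [hg.mul, hact1 σ hσ _ (hg2 ρ), (s_addA hE (hg2 σ) (hg2 ρ)).2]) (hg.lc.comp (s1 α)) hE.two
  obtain ⟨t2, ht2⟩ : ∃ t2, t2 = σ0 t1 := ⟨_, rfl⟩
  have n2 : t2 ≠ 0 := by
    rw [ht2]
    exact (_root_.map_ne_zero _).2 n1
  have i0 : σ0⁻¹ β = α := by rw [← h0]; exact σ0.symm_apply_apply _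
  have k2 : ∀ σ : Sep F ≃ₐ[F] Sep F, σ α = α → σ t2 = s1 β (g σ) * t2 := by
    intro σ hσ
    obtain ⟨ρ, hρ⟩ : ∃ ρ, ρ = σ0⁻¹ * σ * σ0 := ⟨_, rfl⟩
    have hρα : ρ α = α := by
      rw [hρ]
      show σ0⁻¹ (σ (σ0 α)) = α
      rw [h0, hfixβ σ hσ, i0]
    have hσρ : σ * σ0 = σ0 * ρ := by rw [hρ]; group
    have h1 : σ t2 = σ0 (ρ t1) := by
      rw [ht2]
      exact congrArg (fun φ : Sep F ≃ₐ[F] Sep F => φ t1) hσρ
    have h3 : act (crvT a b) (rs K σ0) (g ρ) = g σ := by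
      have m1 := hg.mul σ σ0
      have m2 := hg.mul σ0 ρ
      rw [hσρ, m2, hact1 σ hσ _ (hg2 σ0)] at m1
      rw [add_comm (g σ)] at m1
      exact add_left_cancel m1
    have h4 : s1 β (g σ) = s1 α (g ρ) := by
      have h5 := s1_act (crvT a b) (rs K σ0) α (g ρ)
      have h6 : (rs K σ0) α = β := h0
      rw [h3, h6] at h5
      rw [h5]
      rcases s1_sq α (g ρ) with h | h <;> rw [h] <;> simp
    rw [h1, k1 ρ hρα, map_mul, h4, ht2]
    congr 1
    rcases s1_sq α (g ρ) with h | h <;> rw [h] <;> simp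
  have hT0 := hg2 σ0
  -- the action of `σ0` on `t2`
  have k3 : σ0 t2 = s0 (g σ0) * t1 := by
    have h1 : (σ0 * σ0) α = α := by
      show σ0 (σ0 α) = α
      rw [h0, h0']
    have h3 := k1 _ h1
    have h4 : act (crvT a b) (rs K σ0) (g σ0) + act (crvT a b) (rs K σ0) (g σ0) = 0 :=
      (two_act _ _ _).2 hT0
    have h5 : s1 α (act (crvT a b) (rs K σ0) (g σ0)) = s1 β (g σ0) := by
      have h6 := s1_act (crvT a b) (rs K σ0) β (g σ0)
      have h7 : (rs K σ0) β = α := h0'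
      rw [h7] at h6
      rw [h6]
      rcases s1_sq β (g σ0) with h | h <;> rw [h] <;> simp
    rw [hg.mul, (s_addA hE hT0 h4).2, h5, s1_third hR hT0] at h3
    rw [ht2]
    have h8 : σ0 (σ0 t1) = (σ0 * σ0) t1 := rfl
    rw [h8, h3]
    rcases s1_sq α (g σ0) with h | h <;> rw [h] <;> ring
  -- `η`
  have sgn : ∀ σ : Sep F ≃ₐ[F] Sep F, σ α = α → s0 (g σ) * s1 α (g σ) * s1 β (g σ) = 1 := by
    intro σ hσ
    rw [s1_third hR (hg2 σ)]
    rcases s0_sq (g σ) with h | h <;> rcases s1_sq α (g σ) with h' | h' <;> rw [h, h'] <;> ring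
  have pmβ : ∀ σ : Sep F ≃ₐ[F] Sep F, s1 β (g σ) ≠ 0 := fun σ => s1_ne _ _
  have hη : ∀ σ : Sep F ≃ₐ[F] Sep F, σ α = α → σ (t0 * t1 / t2) = t0 * t1 / t2 := by
    intro σ hσ
    rw [map_div₀, map_mul, k0, k1 σ hσ, k2 σ hσ]
    have h3 := sgn σ hσ
    have h4 := pmβ σ
    have h5 : s1 β (g σ) * s1 β (g σ) = 1 := by
      rcases s1_sq β (g σ) with h | h <;> rw [h] <;> ring
    rw [div_eq_div_iff (mul_ne_zero h4 n2) n2]
    linear_combination (t0 * t1 * t2 * s1 β (g σ)) * h3 - (s0 (g σ) * s1 α (g σ)) * (t0 * t1 * t2) * h5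
  obtain ⟨p, q, ep, eq⟩ := coord hR h0 h0' hη
  have hη0 : σ0 (t0 * t1 / t2) = t0 * t2 / t1 := by
    rw [map_div₀, map_mul, k0, k3, ← ht2]
    have h4 := s0_ne (g σ0)
    field_simp
  -- `w`
  have hw : ∀ σ : Sep F ≃ₐ[F] Sep F, σ α = α → σ (t1 * t2 / t0) = t1 * t2 / t0 := by
    intro σ hσ
    rw [map_div₀, map_mul, k0, k1 σ hσ, k2 σ hσ]
    have h3 := sgn σ hσ
    have h4 := s0_ne (g σ)
    have h5 : s0 (g σ) * s0 (g σ) = 1 := by
      rcases s0_sq (g σ) with h | h <;> rw [h] <;> ring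
    rw [div_eq_div_iff (mul_ne_zero h4 n0) n0]
    linear_combination (t0 * t1 * t2 * s0 (g σ)) * h3 - (s1 α (g σ) * s1 β (g σ)) * (t0 * t1 * t2) * h5
  have hw0 : σ0 (t1 * t2 / t0) = t1 * t2 / t0 := by
    rw [map_div₀, map_mul, k0, k3, ← ht2]
    have h4 := s0_ne (g σ0)
    field_simp
  obtain ⟨w, hw'⟩ := coord0 hR h0 h0' hw hw0
  -- `x`
  have hcjα : ∀ σ : Sep F ≃ₐ[F] Sep F, σ α = α → cj hN τ σ α = α := by
    intro σ hσ
    apply τ.injective
    rw [cj_spec, hτα, hσ]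
  have hx : ∀ σ : Sep F ≃ₐ[F] Sep F, σ α = α → σ (τ t1 / (t1 * t1')) = τ t1 / (t1 * t1') := by
    intro σ hσ
    have h1 : σ (τ t1) = s1 α (g (cj hN τ σ)) * τ t1 := by
      rw [← cj_spec hN τ σ, k1 _ (hcjα σ hσ), map_mul]
      congr 1
      rcases s1_sq α (g (cj hN τ σ)) with h | h <;> rw [h] <;> simp
    have h3 : s1 α (act (crvT a b) (ak τ) (g (cj hN τ σ))) = s1 α (g (cj hN τ σ)) := by
      have h5 := s1_act (crvT a b) (ak τ) α (g (cj hN τ σ))
      have h6 : (ak τ) α = α := hτα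
      rw [h6] at h5
      rw [h5]
      rcases s1_sq α (g (cj hN τ σ)) with h | h <;> rw [h] <;> simp
    have h4 : act (crvT a b) (ak τ) (g (cj hN τ σ)) + act (crvT a b) (ak τ) (g (cj hN τ σ)) = 0 :=
      (two_act _ _ _).2 (hg2 _)
    have h5 : s1 α (act (crvT a b) (ak τ) (g (cj hN τ σ)) - g σ) =
        s1 α (g (cj hN τ σ)) * s1 α (g σ) := by
      rw [sub_eq_add_neg, neg_eq_of_add_eq_zero_left (hg2 σ), (s_addA hE h4 (hg2 σ)).2, h3]
    rw [map_div₀, map_mul, h1, k1 σ hσ, k1' σ, h5]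
    have h6 := s1_ne α (g σ)
    have h7 := s1_ne α (g (cj hN τ σ))
    have h8 : s1 α (g σ) * s1 α (g σ) = 1 := by
      rcases s1_sq α (g σ) with h | h <;> rw [h] <;> ring
    rw [div_eq_div_iff (by
      exact mul_ne_zero (mul_ne_zero h6 n1) (mul_ne_zero (mul_ne_zero h7 h6) n1'))
      (mul_ne_zero n1 n1')]
    linear_combination -(τ t1 * t1 * t1' * s1 α (g (cj hN τ σ))) * h8
  obtain ⟨R, S, eR, eS⟩ := coord hR h0 h0' hx
  obtain ⟨x, hxdef⟩ : ∃ x, x = τ t1 / (t1 * t1') := ⟨_, rfl⟩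
  rw [← hxdef] at eR eS
  have τt1 : τ t1 = x * (t1 * t1') := by
    rw [hxdef, div_mul_cancel₀ _ (mul_ne_zero n1 n1')]
  have nx : x ≠ 0 := by
    rw [hxdef]
    exact div_ne_zero ((_root_.map_ne_zero _).2 n1) (mul_ne_zero n1 n1')
  have nx0 : σ0 x ≠ 0 := (_root_.map_ne_zero _).2 nx
  -- the action of `τ` on `t0`, `t2`
  have τt0 : Eps (τ t0) t0 := eps_sq (by rw [← map_pow, e0, he, ha0])
  have τt2 : Eps (τ t2) (σ0 x * (t2 * t1')) := by
    obtain ⟨σ1, hσ1⟩ : ∃ σ1, σ1 = cj hN τ σ0 := ⟨_, rfl⟩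
    have hs : ∀ y, τ (σ1 y) = σ0 (τ y) := fun y => by rw [hσ1]; exact cj_spec hN τ σ0 y
    have h1α : σ1 α = β := by
      apply τ.injective
      rw [hs, hτα, h0, hτβ]
    have hρ : (σ0⁻¹ * σ1) α = α := by
      show σ0⁻¹ (σ1 α) = α
      rw [h1α, i0]
    have h3 := k1 _ hρ
    have h4 : σ1 t1 = σ0 ((σ0⁻¹ * σ1) t1) := (σ0.apply_symm_apply _).symm
    have h5 : Eps (σ1 t1) t2 := by
      rw [h4, h3, ht2]
      exact (Eps.of (s1_sq _ _) rfl).map σ0
    have h6 : Eps t2 (σ1 t1) := by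
      obtain ⟨κ, hκ⟩ := h5
      exact ⟨κ, by rw [hκ, ← mul_assoc, pm_pm, one_mul]⟩
    refine (h6.mapK τ).trans ?_
    rw [hs, τt1, map_mul, map_mul, ← ht2]
    exact (Eps.refl _).mul ((Eps.refl _).mul (Eps.of (s1_sq _ _) (k1' σ0)))
  -- the two relations
  have rel1 : Eps (τ (t0 * t1 / t2) * σ0 x) (t0 * t1 / t2 * x) := by
    have h1 : Eps (τ (t0 * t1 / t2)) (t0 * (x * (t1 * t1')) * (σ0 x * (t2 * t1'))⁻¹) := by
      rw [map_div₀, map_mul, div_eq_mul_inv, τt1]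
      exact (τt0.mul (Eps.refl _)).mul τt2.inv
    have h3 := h1.mul (Eps.refl (σ0 x))
    have h4 : t0 * (x * (t1 * t1')) * (σ0 x * (t2 * t1'))⁻¹ * σ0 x = t0 * t1 / t2 * x := by
      field_simp
    rw [h4] at h3
    exact h3
  have rel2 : Eps (τ (t1 * t2 / t0)) (t1 * t2 / t0 * (x * σ0 x) * t1' ^ 2) := by
    have h1 : Eps (τ (t1 * t2 / t0)) (x * (t1 * t1') * (σ0 x * (t2 * t1')) * t0⁻¹) := by
      rw [map_div₀, map_mul, div_eq_mul_inv, τt1]
      exact ((Eps.refl _).mul τt2).mul τt0.inv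
    have h4 : x * (t1 * t1') * (σ0 x * (t2 * t1')) * t0⁻¹ =
        t1 * t2 / t0 * (x * σ0 x) * t1' ^ 2 := by
      field_simp
    rwa [h4] at h1
  have γsq := gam_sq hR
  obtain ⟨bp, hbp⟩ : ∃ bp, bp = algebraMap K F (a ^ 2 - 4 * b) := ⟨_, rfl⟩
  rw [← hbp] at γsq ⊢
  have hpmF : ∀ κ : ZMod 2, algebraMap F (Sep F) (pm F κ) = pm (Sep F) κ := by
    intro κ
    rcases zcases κ with rfl | rfl
    · rw [pm_zero, pm_zero, map_one]
    · rw [pm_one, pm_one, map_neg, map_one]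
  obtain ⟨κ, hκ⟩ := rel1
  obtain ⟨κ', hκ'⟩ := rel2
  have τγ : τ (α - β) = α - β := by rw [map_sub, hτα, hτβ]
  have hrel : algebraMap F (Sep F) (e p * R - e q * S * bp) +
      algebraMap F (Sep F) (e q * R - e p * S) * (α - β) =
      algebraMap F (Sep F) (pm F κ * (p * R + q * S * bp)) +
      algebraMap F (Sep F) (pm F κ * (q * R + p * S)) * (α - β) := by
    rw [ep, map_add τ, map_mul τ, he, he, τγ, eS, eR] at hκ
    simp only [map_sub, map_mul, map_add, hpmF]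
    linear_combination hκ + (algebraMap F (Sep F) (e q) * algebraMap F (Sep F) S +
      pm (Sep F) κ * algebraMap F (Sep F) q * algebraMap F (Sep F) S) * γsq
  obtain ⟨c1, c2⟩ := coord_unique hR hns hrel
  refine ⟨p, q, R, S, w, κ, κ', ?_, ?_, ?_, c1, c2, ?_⟩
  · apply (algebraMap F (Sep F)).injective
    have h1 : (t0 * t1 / t2) * σ0 (t0 * t1 / t2) = t0 ^ 2 := by
      rw [hη0]
      field_simp
    rw [eq, ep, e0] at h1
    rw [← h1]
    simp only [map_sub, map_mul, map_pow]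
    linear_combination (algebraMap F (Sep F) q) ^ 2 * γsq
  · by_contra hcon
    push Not at hcon
    apply nx
    rw [eR, hcon.1, hcon.2, map_zero, zero_mul, add_zero]
  · rintro rfl
    rw [map_zero] at hw'
    exact div_ne_zero (mul_ne_zero n1 n2) n0 hw'
  · apply (algebraMap F (Sep F)).injective
    rw [hw', he, e1'] at hκ'
    rw [hκ', eS, eR]
    simp only [map_sub, map_mul, map_pow, hpmF]
    linear_combination (pm (Sep F) κ' * algebraMap F (Sep F) w * (algebraMap F (Sep F) S) ^ 2 *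
      algebraMap F (Sep F) a1) * (-γsq)

end main

end Pool.Agent.K9h16.QT
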