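import Pool.Agent.TH115.SD.Resid
import Pool.Agent.K9h16.PT.Sg

/-!
The local analysis at a ramified place.
-/

set_option autoImplicit false
set_option linter.all false

open Polynomial IsDedekindDomain
open scoped Classical

namespace Pool.Agent.K9h16.QT

open Pool.Agent.TH115.GD Pool.Agent.K9h16.PT

theorem exists_exp {x : WithZero (Multiplicative ℤ)} (hx : x ≠ 0) : ∃ n : ℤ, x = WithZero.exp n := by
  obtain ⟨m, rfl⟩ := WithZero.ne_zero_iff_exists.1 hx
  exact ⟨Multiplicative.toAdd m, rfl⟩

theorem exp_mul (m n : ℤ) : (WithZero.exp m : WithZero (Multiplicative ℤ)) * WithZero.exp n =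
    WithZero.exp (m + n) := (WithZero.exp_add m n).symm

theorem exp_one : (1 : WithZero (Multiplicative ℤ)) = WithZero.exp 0 := WithZero.exp_zero.symm

section loc

variable {k' F : Type} [Field k'] [Field F] [Algebra k'[X] F] [IsFractionRing k'[X] F] (θ : k')

theorem pm_map (κ : ZMod 2) : cst k' F (pm k' κ) = pm F κ := by
  rcases zcases κ with rfl | rfl
  · rw [pm_zero, pm_zero, map_one]
  · rw [pm_one, pm_one, map_neg, map_one]

theorem val_pm (κ : ZMod 2) : (pl θ).valuation F (pm F κ) = 1 := by
  rcases zcases κ with rfl | rfl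
  · rw [pm_zero, map_one]
  · rw [pm_one, Valuation.map_neg, map_one]

theorem pm_sq {Ω : Type} [Field Ω] (κ : ZMod 2) : pm Ω κ * pm Ω κ = 1 := by
  rcases zcases κ with rfl | rfl
  · rw [pm_zero, one_mul]
  · rw [pm_one]; ring

/-- The valuations of the two coordinates. -/
theorem pq_val {bp p q : F} (hb : (pl θ).valuation F bp = WithZero.exp (-1)) {D : k'[X]}
    (hD : D.eval θ ≠ 0) (hN : p ^ 2 - q ^ 2 * bp = algebraMap k'[X] F D) :
    (pl θ).valuation F p = 1 ∧ (pl θ).valuation F q ≤ 1 := by
  have vD := val_eq_one (F := F) θ hD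
  have hq : (pl θ).valuation F q ≤ 1 := by
    by_contra hlt
    rw [not_le] at hlt
    have hq0 : (pl θ).valuation F q ≠ 0 := fun h => by rw [h] at hlt; exact absurd hlt (by simp)
    obtain ⟨n, hn⟩ := exists_exp hq0
    have hn1 : 1 ≤ n := by
      rw [hn, exp_one, WithZero.exp_lt_exp] at hlt
      omega
    have h1 : (pl θ).valuation F (q ^ 2 * bp) = WithZero.exp (2 * n - 1) := by
      rw [map_mul, map_pow, hn, hb, pow_two, exp_mul, exp_mul]
      congr 1
      ring
    have h2 : (pl θ).valuation F (algebraMap k'[X] F D) < (pl θ).valuation F (q ^ 2 * bp) := by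
      rw [vD, h1, exp_one, WithZero.exp_lt_exp]
      omega
    have h3 : p ^ 2 = algebraMap k'[X] F D + q ^ 2 * bp := by rw [← hN]; ring
    have h4 := congrArg ((pl θ).valuation F) h3
    rw [Valuation.map_add_eq_of_lt_right _ h2, h1, map_pow] at h4
    have hp0 : (pl θ).valuation F p ≠ 0 := by
      intro h
      rw [h, zero_pow two_ne_zero] at h4
      exact WithZero.exp_ne_zero h4.symm
    obtain ⟨m, hm⟩ := exists_exp hp0
    rw [hm, pow_two, exp_mul] at h4
    have h5 : m + m = 2 * n - 1 := WithZero.exp_injective h4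
    omega
  refine ⟨?_, hq⟩
  have h1 : (pl θ).valuation F (q ^ 2 * bp) < 1 := by
    rw [map_mul, map_pow, hb]
    calc (pl θ).valuation F q ^ 2 * WithZero.exp (-1) ≤ 1 * WithZero.exp (-1) :=
          mul_le_mul_left (pow_le_one' hq 2) _
      _ < 1 := by
          rw [one_mul, exp_one, WithZero.exp_lt_exp]
          omega
  have h3 : p ^ 2 = algebraMap k'[X] F D + q ^ 2 * bp := by rw [← hN]; ring
  have h4 := congrArg ((pl θ).valuation F) h3
  rw [Valuation.map_add_eq_of_lt_left _ (by rw [vD]; exact h1), vD, map_pow] at h4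
  exact (pow_eq_one_iff.1 h4).resolve_right two_ne_zero

/-- **The local formula.** -/
theorem loc_formula (s : k' ≃+* k') (hs : s θ = θ) {bp p q R S : F}
    (hb : (pl θ).valuation F bp = WithZero.exp (-1)) {D : k'[X]}
    (hD : D.eval θ ≠ 0) (hN : p ^ 2 - q ^ 2 * bp = algebraMap k'[X] F D)
    (hRS : R ≠ 0 ∨ S ≠ 0) {κ : ZMod 2}
    (e1 : es F s p * R - es F s q * S * bp = pm F κ * (p * R + q * S * bp))
    (e2 : es F s q * R - es F s p * S = pm F κ * (q * R + p * S)) {r : k'}
    (hr : r ^ 2 = D.eval θ) :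
    s r = pm k' (κ + par (pl θ) (R ^ 2 - S ^ 2 * bp)) * r := by
  obtain ⟨vp, vq⟩ := pq_val θ hb hD hN
  obtain ⟨v, hv⟩ : ∃ v, v = (pl θ).valuation F := ⟨_, rfl⟩
  rw [← hv] at vp vq hb
  have vtp : v (es F s p) = 1 := by rw [hv, es_val θ s hs, ← hv, vp]
  have vtq : v (es F s q) ≤ 1 := by rw [hv, es_val θ s hs, ← hv]; exact vq
  have vbp : v bp < 1 := by
    rw [hb, exp_one, WithZero.exp_lt_exp]
    omega
  have vκ : v (pm F κ) = 1 := by rw [hv]; exact val_pm θ κ
  -- the two cases
  obtain ⟨π, hπ, hpar⟩ : ∃ π : ZMod 2, v (es F s p - pm F (κ + π) * p) < 1 ∧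
      par (pl θ) (R ^ 2 - S ^ 2 * bp) = π := by
    by_cases hle : v S ≤ v R
    · have hR0 : R ≠ 0 := by
        rintro rfl
        rw [map_zero, le_zero_iff, Valuation.zero_iff] at hle
        rcases hRS with h | h
        · exact h rfl
        · exact h hle
      have vR0 : v R ≠ 0 := (Valuation.ne_zero_iff v).2 hR0
      obtain ⟨y, hy⟩ : ∃ y, y = S / R := ⟨_, rfl⟩
      have hS : S = y * R := by rw [hy, div_mul_cancel₀ _ hR0]
      have vy : v y ≤ 1 := by
        rw [hy, map_div₀]
        exact div_le_one_of_le₀ hle zero_le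
      refine ⟨0, ?_, ?_⟩
      · have h1 : es F s p - pm F κ * p = (es F s q + pm F κ * q) * (y * bp) := by
          apply mul_right_cancel₀ hR0
          rw [hS] at e1
          linear_combination e1
        rw [add_zero, h1, map_mul, map_mul]
        have h3 : v (es F s q + pm F κ * q) ≤ 1 := by
          refine (v.map_add _ _).trans (max_le vtq ?_)
          rw [map_mul, vκ, one_mul]
          exact vq
        calc v (es F s q + pm F κ * q) * (v y * v bp) ≤ 1 * (1 * v bp) :=
              mul_le_mul' h3 (mul_le_mul' vy le_rfl)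
          _ < 1 := by rw [one_mul, one_mul]; exact vbp
      · rw [par_eq_zero, ← hv]
        have e : R ^ 2 - S ^ 2 * bp = R * R * (1 - y ^ 2 * bp) := by rw [hS]; ring
        have h4 : v (y ^ 2 * bp) < v 1 := by
          rw [map_mul, map_pow, map_one]
          calc v y ^ 2 * v bp ≤ 1 * v bp := mul_le_mul_left (pow_le_one' vy 2) _
            _ < 1 := by rw [one_mul]; exact vbp
        rw [e, map_mul, map_mul, sub_eq_add_neg, Valuation.map_add_eq_of_lt_left v (by
          rw [Valuation.map_neg]; exact h4), map_one, mul_one]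
        exact ⟨v R, rfl⟩
    · rw [not_le] at hle
      have hS0 : S ≠ 0 := by
        rintro rfl
        rw [map_zero] at hle
        exact absurd hle (by simp)
      have vS0 : v S ≠ 0 := (Valuation.ne_zero_iff v).2 hS0
      obtain ⟨z, hz⟩ : ∃ z, z = R / S := ⟨_, rfl⟩
      have hR : R = z * S := by rw [hz, div_mul_cancel₀ _ hS0]
      have vz : v z < 1 := by
        rw [hz, map_div₀]
        exact (div_lt_one₀ (zero_lt_iff.2 vS0)).2 hle
      refine ⟨1, ?_, ?_⟩
      · have h1 : es F s p - pm F (κ + 1) * p = (es F s q - pm F κ * q) * z := by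
          rw [pm_add, pm_one]
          apply mul_right_cancel₀ hS0
          rw [hR] at e2
          linear_combination -e2
        rw [h1, map_mul]
        have h3 : v (es F s q - pm F κ * q) ≤ 1 := by
          refine (v.map_sub _ _).trans (max_le vtq ?_)
          rw [map_mul, vκ, one_mul]
          exact vq
        calc v (es F s q - pm F κ * q) * v z ≤ 1 * v z := mul_le_mul_left h3 _
          _ < 1 := by rw [one_mul]; exact vz
      · unfold par
        rw [if_neg]
        rw [← hv]
        have e : R ^ 2 - S ^ 2 * bp = S ^ 2 * (z ^ 2 - bp) := by rw [hR]; ring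
        have h4 : v (z ^ 2) < v (-bp) := by
          rw [Valuation.map_neg, hb, map_pow]
          by_cases hz0 : v z = 0
          · rw [hz0, zero_pow two_ne_zero]
            exact zero_lt_iff.2 WithZero.exp_ne_zero
          · obtain ⟨n, hn⟩ := exists_exp hz0
            rw [hn, exp_one, WithZero.exp_lt_exp] at vz
            rw [hn, pow_two, exp_mul, WithZero.exp_lt_exp]
            omega
        rw [e, map_mul, sub_eq_add_neg, Valuation.map_add_eq_of_lt_right v h4, Valuation.map_neg, hb,
          map_pow]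
        obtain ⟨n, hn⟩ := exists_exp vS0
        rintro ⟨x, hx⟩
        have hx0 : x ≠ 0 := by
          rintro rfl
          rw [mul_zero, hn, pow_two, exp_mul, exp_mul] at hx
          exact WithZero.exp_ne_zero hx
        obtain ⟨m, hm⟩ := exists_exp hx0
        rw [hn, hm, pow_two, exp_mul, exp_mul, exp_mul] at hx
        have := WithZero.exp_injective hx
        omega
  rw [hpar]
  obtain ⟨c, hc⟩ := res_F (F := F) θ (f := p) (by rw [← hv, vp])
  rw [← hv] at hc
  have hlt : ∀ x y : F, v x < 1 → v y < 1 → v (x + y) < 1 := fun x y hx hy =>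
    Valuation.map_add_lt v hx hy
  have hlt' : ∀ x y : F, v x < 1 → v y < 1 → v (x - y) < 1 := fun x y hx hy => by
    rw [sub_eq_add_neg]
    exact hlt _ _ hx (by rw [Valuation.map_neg]; exact hy)
  have vc : v (cst k' F c) ≤ 1 := by
    have e : cst k' F c = p - (p - cst k' F c) := by ring
    rw [e]
    exact (v.map_sub _ _).trans (max_le vp.le hc.le)
  have hc2 : c ^ 2 = D.eval θ := by
    rw [← sub_eq_zero]
    apply cst_lt (F := F) θ
    rw [← hv]
    have e : cst k' F (c ^ 2 - D.eval θ) = algebraMap k'[X] F (D - C (D.eval θ)) +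
        (q ^ 2 * bp - (p - cst k' F c) * (p + cst k' F c)) := by
      rw [map_sub, map_pow, map_sub, ← hN]
      have : algebraMap k'[X] F (C (D.eval θ)) = cst k' F (D.eval θ) := rfl
      rw [this]
      ring
    rw [e]
    refine hlt _ _ ?_ (hlt' _ _ ?_ ?_)
    · rw [hv]
      apply val_lt_one
      rw [eval_sub, eval_C, sub_self]
    · rw [map_mul, map_pow]
      calc v q ^ 2 * v bp ≤ 1 * v bp := mul_le_mul_left (pow_le_one' vq 2) _
        _ < 1 := by rw [one_mul]; exact vbp
    · rw [map_mul]
      calc v (p - cst k' F c) * v (p + cst k' F c) ≤ v (p - cst k' F c) * 1 :=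
            mul_le_mul_right ((v.map_add _ _).trans (max_le vp.le vc)) _
        _ < 1 := by rw [mul_one]; exact hc
  have hsc : s c = pm k' (κ + π) * c := by
    rw [← sub_eq_zero]
    apply cst_lt (F := F) θ
    rw [← hv]
    have e : cst k' F (s c - pm k' (κ + π) * c) = (es F s p - pm F (κ + π) * p) -
        es F s (p - cst k' F c) + pm F (κ + π) * (p - cst k' F c) := by
      rw [map_sub, map_mul, pm_map, map_sub (es F s), es_cst]
      ring
    rw [e]
    refine hlt _ _ (hlt' _ _ hπ ?_) ?_
    · rw [hv, es_val θ s hs, ← hv]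
      exact hc
    · have : v (pm F (κ + π)) = 1 := by rw [hv]; exact val_pm θ _
      rw [map_mul, this, one_mul]
      exact hc
  rcases sq_eq_sq_iff_eq_or_eq_neg.1 (hr.trans hc2.symm) with h | h
  · rw [h, hsc]
  · rw [h, map_neg, hsc]
    ring

end loc

end Pool.Agent.K9h16.QT
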