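import Pool.Agent.K9h16.QT.FF
import Pool.Agent.K9h16.QT.Val
import Pool.Agent.K9h16.PT.Grp

/-!
The parity functions and the action of the Galois group.
-/

set_option autoImplicit false
set_option linter.all false

open Polynomial IsDedekindDomain WeierstrassCurve WeierstrassCurve.Affine
open scoped Classical Pointwise

namespace Pool.Agent.K9h16.QT

open Pool.Agent.TH115.GD Pool.Agent.K9h16.PT Pool.Agent.R939.EI

section tow

variable {k k' K F : Type} [Field k] [Field k'] [Algebra k k'] [Field K] [Algebra k[X] K]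
    [Field F] [Algebra k'[X] F] [IsFractionRing k'[X] F] [Algebra K F]
    (hT : IsTower k k' K F) {a b : k[X]} (hS : Sd a b)

/-- The roots. -/
noncomputable def RB (k' : Type) [Field k'] [Algebra k k'] (b : k[X]) : Finset k' :=
  (b.map (algebraMap k k')).roots.toFinset

theorem mem_RB {b : k[X]} (hb : b ≠ 0) {θ : k'} : θ ∈ RB k' b ↔ aeval θ b = 0 := by
  rw [RB, Multiset.mem_toFinset, mem_roots ((Polynomial.map_ne_zero_iff
    (algebraMap k k').injective).2 hb), IsRoot.def, eval_map_algebraMap]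

theorem lifts_es {s : k' ≃ₐ[k] k'} {τ : Sep F ≃ₐ[K] Sep F} (h : Lifts s τ) (x : F) :
    τ (algebraMap F (Sep F) x) = algebraMap F (Sep F) (es F (s : k' ≃+* k') x) := by
  obtain ⟨n, d, hd, rfl⟩ := IsFractionRing.div_surjective (A := k'[X]) x
  rw [map_div₀, map_div₀, h, h, map_div₀, es_poly, es_poly, map_div₀]
  rfl

variable {α β : Sep F} (hR : Roots (algebraMap k[X] K a) (algebraMap k[X] K b) (Sep F) α β)
  (hN : Preserves K F (Sep F))

/-- The parity function of a conjugate. -/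
theorem pf_TA {c : Cc (Wc K a b) F} {f : k' → ZMod 2} (hf : PF (Wc K a b) (c 1) f)
    {s : k' ≃ₐ[k] k'} {τ : Sep F ≃ₐ[K] Sep F} (hs : Lifts s τ) :
    PF (Wc K a b) (TA hN τ c 1) (fun θ => f (s.symm θ)) := by
  obtain ⟨t0, a0, n0, e0, k0, p0⟩ := hf
  refine ⟨τ t0, es F (s : k' ≃+* k') a0, (_root_.map_ne_zero _).2 n0, ?_, fun σ => ?_, fun θ => ?_⟩
  · rw [← map_pow, e0, lifts_es hs]
  · show σ (τ t0) = s0 (act (Wc K a b) (ak τ) (c 1 (cj hN τ σ))) * τ t0
    rw [← cj_spec hN τ σ, k0, map_mul, s0_fix]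
    congr 1
    rcases s0_sq (c 1 (cj hN τ σ)) with h | h <;> rw [h] <;> simp
  · have h1 := par_galois (K := K) τ s hs (a0_ne n0 e0) (lifts_es hs a0) (s.symm θ)
    show f (s.symm θ) = _
    rw [p0, ← h1, s.apply_symm_apply]

theorem two_tc {W : WeierstrassCurve K} {c : Cc W F} (hc : IsTC W c) (σ : Sep F ≃ₐ[F] Sep F) :
    c 1 σ + c 1 σ = 0 := by
  rw [← two_nsmul, hc.two 0 σ, hc.zero]

variable {H : Subgroup (Sep F ≃ₐ[K] Sep F)} (hH : H.Normal)

include hT hN hH in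
theorem pc_diff {W : WeierstrassCurve K} {c : Cc W F} (hc : PC k' W H c)
    (τ : Sep F ≃ₐ[K] Sep F) : PC k' W H (TA hN τ c - c) := by
  rw [sub_eq_add_neg]
  exact (PC.TA hT hN hH hc τ).add hc.neg

include hT hS hR hN hH in
/-- The differences have parity zero. -/
theorem diff_one {c : Cc (Wc K a b) F} (hc : PC k' (Wc K a b) H c)
    {s : k' ≃ₐ[k] k'} {τ : Sep F ≃ₐ[K] Sep F} (hs : Lifts s τ)
    (hsb : ∀ θ : k', aeval θ b = 0 → s θ = θ) (σ : Sep F ≃ₐ[F] Sep F) :
    (TA hN τ c - c) 1 σ = 0 ∨ (TA hN τ c - c) 1 σ = pt0 hR.E := by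
  obtain ⟨f, hf⟩ := pf_exists hR k' (hc.tc.coc 1) (two_tc hc.tc)
  have hf' := pf_TA hN hf hs
  have hc' := PC.TA hT hN hH hc τ
  have hd := pc_diff hT hN hH hc τ
  have h1 := pf_sub hR hf' hf (two_tc hc'.tc) (two_tc hc.tc)
  refine pf_zero hT hS hR (g := (TA hN τ c - c) 1) (two_tc hd.tc) (hd.loc 1) h1
    (fun θ hθ => ?_) σ
  show f (s.symm θ) + f θ = 0
  have h3 : s.symm θ = θ := by
    rw [AlgEquiv.symm_apply_eq]
    exact (hsb θ hθ).symm
  rw [h3]
  exact CharTwo.add_self_eq_zero _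

include hT in
/-- The valuation at a simple root. -/
theorem val_root {p : k[X]} (hp : p.Separable) {θ : k'} (h : aeval θ p = 0) :
    (pl θ).valuation F (algebraMap K F (algebraMap k[X] K p)) = WithZero.exp (-1) := by
  have h0 : p.map (algebraMap k k') ≠ 0 :=
    (Polynomial.map_ne_zero_iff (algebraMap k k').injective).2 hp.ne_zero
  have h1 : rootMultiplicity θ (p.map (algebraMap k k')) = 1 := by
    have h3 := rootMultiplicity_le_one_of_separable
      (p := p.map (algebraMap k k')) hp.map θ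
    have h4 : 0 < rootMultiplicity θ (p.map (algebraMap k k')) := by
      refine (rootMultiplicity_pos h0).2 ?_
      rw [IsRoot.def, eval_map_algebraMap]
      exact h
    omega
  rw [hT.map, val_poly θ h0, h1]
  rfl

theorem map_prod_fix {s : k' ≃ₐ[k] k'} {D : Finset k'} (h : ∀ θ ∈ D, s θ = θ) :
    (∏ θ ∈ D, (X - C θ)).map ((s : k' ≃+* k') : k' →+* k') = ∏ θ ∈ D, (X - C θ) := by
  rw [Polynomial.map_prod]
  refine Finset.prod_congr rfl fun θ hθ => ?_
  rw [Polynomial.map_sub, map_X, map_C]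
  have : ((s : k' ≃+* k') : k' →+* k') θ = θ := h θ hθ
  rw [this]

/-- The data of the isogeny. -/
theorem dat1 {K : Type} [Field K] [Algebra k[X] K] [IsFractionRing k[X] K] (hS : Sd a b) :
    Dat (algebraMap k[X] K a) (algebraMap k[X] K b) (algebraMap k[X] K (-2 * a))
      (algebraMap k[X] K (a ^ 2 - 4 * b)) 1 := by
  have injK := IsFractionRing.injective k[X] K
  refine ⟨?_, ?_, one_ne_zero, ?_, ?_⟩
  · rw [Ne, map_eq_zero_iff _ injK]
    exact hS.b0
  · rw [Ne, map_eq_zero_iff _ injK]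
    exact hS.d0
  · rw [map_mul, map_neg, map_ofNat]
    ring
  · rw [map_sub, map_mul, map_pow, map_ofNat]
    ring

/-- The data of the dual isogeny. -/
theorem dat2 {K : Type} [Field K] [Algebra k[X] K] [IsFractionRing k[X] K] (hS : Sd a b) :
    Dat (algebraMap k[X] K (-2 * a)) (algebraMap k[X] K (a ^ 2 - 4 * b)) (algebraMap k[X] K a)
      (algebraMap k[X] K b) 2 := by
  have injK := IsFractionRing.injective k[X] K
  refine ⟨?_, ?_, tt hS.h2, ?_, ?_⟩
  · rw [Ne, map_eq_zero_iff _ injK]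
    exact hS.d0
  · rw [Ne, map_eq_zero_iff _ injK]
    exact hS.b0
  · rw [map_mul, map_neg, map_ofNat]
    ring
  · rw [map_sub, map_mul, map_mul, map_pow, map_neg, map_ofNat, map_ofNat]
    ring

theorem cop_ne' {a b : k[X]} (hco : IsCoprime a b) {θ : k'} (h1 : aeval θ a = 0)
    (h2 : aeval θ b = 0) : False := cop_ne hco h1 h2

include hT hS hR hN hH in
/-- **The formula.** -/
theorem frm [NeZero (2 : K)] {c : Cc (Wc K a b) F} (hc : PC k' (Wc K a b) H c)
    {s : k' ≃ₐ[k] k'} {τ : Sep F ≃ₐ[K] Sep F} (hs : Lifts s τ) (hτ : τ α = α)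
    (hsb : ∀ θ : k', aeval θ b = 0 → s θ = θ) (hsd : ∀ θ : k', aeval θ (a ^ 2 - 4 * b) = 0 → s θ = θ)
    {a₁ b₁ u : K} (hD : Dat (algebraMap k[X] K a) (algebraMap k[X] K b) a₁ b₁ u)
    {f f' : k' → ZMod 2} (hf : PF (Wc K a b) (c 1) f)
    (hf' : PF (crvT a₁ b₁) (shp (isoN hD) (TA hN τ c - c) 1) f') :
    ∃ κ : ZMod 2, ∀ θ : k', aeval θ (a ^ 2 - 4 * b) = 0 →
      f' θ = ∑ η ∈ (RB k' b).filter (fun η => f η = 1), sg s (θ - η) + κ := by
  haveI := hT.sep
  haveI := hT.fracK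
  haveI : IsSepClosed k' := IsSepClosure.sep_closed k
  have h2k' := two_k' (k' := k') hS.h2
  obtain ⟨t0, n0, e0, k0⟩ := pf_rep hT hS hR (two_tc hc.tc) (hc.loc 1) hf
  obtain ⟨D, hDdef⟩ : ∃ D : k'[X], D = ∏ θ ∈ (RB k' b).filter (fun θ => f θ = 1), (X - C θ) :=
    ⟨_, rfl⟩
  have e0' : t0 ^ 2 = algebraMap F (Sep F) (algebraMap k'[X] F D) := by
    rw [hDdef]
    exact e0
  obtain ⟨t1', a1, n1', e1', k1', p1⟩ := hf'
  have hdiff := pc_diff hT hN hH hc τ
  have hone := diff_one hT hS hR hN hH hc hs hsb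
  have hk1 : ∀ σ, σ t1' = s1 α (act (Wc K a b) (ak τ) (c 1 (cj hN τ σ)) - c 1 σ) * t1' := by
    intro σ
    rw [k1' σ]
    have h1 : (TA hN τ c - c) 2 σ + (TA hN τ c - c) 2 σ = (TA hN τ c - c) 1 σ := by
      rw [← two_nsmul, hdiff.tc.two 1 σ]
    have h3 := iso_s0 hR hD (P := (TA hN τ c - c) 2 σ) (by
      rw [h1]
      exact hone σ)
    rw [h1] at h3
    exact congrArg (fun z => z * t1') h3
  have hDmap : D.map ((s : k' ≃+* k') : k' →+* k') = D := by
    rw [hDdef]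
    exact map_prod_fix (fun θ hθ => hsb θ ((mem_RB hS.b0).1 (Finset.mem_filter.1 hθ).1))
  have hdK : algebraMap K F (algebraMap k[X] K (a ^ 2 - 4 * b)) =
      algebraMap K F ((algebraMap k[X] K a) ^ 2 - 4 * algebraMap k[X] K b) := by
    rw [map_sub (algebraMap k[X] K), map_mul (algebraMap k[X] K), map_pow (algebraMap k[X] K),
      map_ofNat (algebraMap k[X] K)]
  obtain ⟨p, q, R, S, w, κ, κ', hpq, hRS, hw, r1, r2, r3⟩ := ff_core hR hN
    (fun g => by rw [← hdK]; exact not_sq hT hS.sd hS.dd g) (hc.tc.coc 1) (two_tc hc.tc) n0 e0' k0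
    τ hτ (e := es F (s : k' ≃+* k')) (lifts_es hs) (by rw [es_poly, hDmap]) n1' e1' hk1
  refine ⟨κ, fun θ hθ => ?_⟩
  have hsθ : (s : k' ≃+* k') θ = θ := hsd θ hθ
  have hvb := val_root (F := F) hT hS.sd hθ
  rw [hdK] at hvb
  have hDθ : D.eval θ ≠ 0 := by
    rw [hDdef, eval_prod, Finset.prod_ne_zero_iff]
    intro η hη
    rw [eval_sub, eval_X, eval_C, sub_ne_zero]
    rintro rfl
    exact cop_ne hS.cop ((mem_RB hS.b0).1 (Finset.mem_filter.1 hη).1) hθ
  have hloc := loc_formula θ (s : k' ≃+* k') hsθ hvb hDθ hpq hRS r1 r2 (rt_sq h2k' (D.eval θ))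
  have hsg : sg s (D.eval θ) = κ + par (pl θ) (R ^ 2 - S ^ 2 *
      algebraMap K F ((algebraMap k[X] K a) ^ 2 - 4 * algebraMap k[X] K b)) :=
    sg_unique h2k' hDθ (rt_sq h2k' (D.eval θ)) hloc
  have ha1 : a1 ≠ 0 := a0_ne n1' e1'
  obtain ⟨N, hNdef⟩ : ∃ N, N = R ^ 2 - S ^ 2 *
      algebraMap K F ((algebraMap k[X] K a) ^ 2 - 4 * algebraMap k[X] K b) := ⟨_, rfl⟩
  rw [← hNdef] at hsg r3
  have hew : es F (s : k' ≃+* k') w ≠ 0 := (map_ne_zero_iff _ (es F (s : k' ≃+* k')).injective).2 hw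
  have hN0 : N ≠ 0 := by
    rintro h
    rw [h, mul_zero, zero_mul] at r3
    exact hew r3
  have hpar : par (pl θ) (es F (s : k' ≃+* k') w) = par (pl θ) w := by
    unfold par
    rw [es_val θ _ hsθ]
  have hpm0 : pm F κ' ≠ 0 := by
    intro h
    rw [h, zero_mul, zero_mul, zero_mul] at r3
    exact hew r3
  have hparpm : par (pl θ) (pm F κ') = 0 := by
    rw [par_eq_zero, val_pm]
    exact ⟨1, (mul_one 1).symm⟩
  rw [r3, par_mul _ (mul_ne_zero (mul_ne_zero hpm0 hw) hN0) ha1, par_mul _ (mul_ne_zero hpm0 hw) hN0,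
    par_mul _ hpm0 hw, hparpm, zero_add] at hpar
  have h5 : par (pl θ) N = par (pl θ) a1 := by
    have : ∀ x y z : ZMod 2, x + y + z = x → y = z := by decide
    exact this _ _ _ hpar
  rw [h5] at hsg
  have hsum : sg s (D.eval θ) = ∑ η ∈ (RB k' b).filter (fun η => f η = 1), sg s (θ - η) := by
    rw [hDdef, eval_prod]
    have : ∀ η ∈ (RB k' b).filter (fun η => f η = 1), eval θ (X - C η) = θ - η := fun η _ => by
      rw [eval_sub, eval_X, eval_C]
    rw [Finset.prod_congr rfl this]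
    refine sg_prod h2k' s _ _ (fun η hη => ?_) (fun η hη => ?_)
    · rw [sub_ne_zero]
      rintro rfl
      exact cop_ne hS.cop ((mem_RB hS.b0).1 (Finset.mem_filter.1 hη).1) hθ
    · rw [map_sub, hsd θ hθ, hsb η ((mem_RB hS.b0).1 (Finset.mem_filter.1 hη).1)]
  rw [p1, ← hsum, hsg]
  have : ∀ x y : ZMod 2, y = x + y + x := by decide
  exact this _ _

end tow

end Pool.Agent.K9h16.QT
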