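import Pool.Agent.K9h16.PT.Eig

/-!
The group of the classes: torsion-free, separated, with the action of a finite quotient of the Galois
group; maps of finite order which are the identity modulo four.
-/

set_option autoImplicit false
set_option linter.all false

open Polynomial IsDedekindDomain WeierstrassCurve WeierstrassCurve.Affine
open scoped Classical Pointwise

namespace Pool.Agent.K9h16.QT

open Pool.Agent.TH115.GD Pool.Agent.K9h16.PT

section grp

variable {G V : Type*} [Group G] [AddCommGroup V] (ρ : G → (V →+ V))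
  (rho_one : ∀ v, ρ 1 v = v) (rho_mul : ∀ g h v, ρ (g * h) v = ρ g (ρ h v))
  (htf : ∀ v : V, (2 : ℤ) • v = 0 → v = 0)
  (hsep : ∀ v : V, (∀ j : ℕ, ∃ w, v = (2 : ℤ) ^ j • w) → v = 0)

include rho_one rho_mul htf hsep in
/-- A map of finite order which is the identity modulo four is the identity. -/
theorem fin_one {g : G} (hg : Cg 2 (ρ g)) {m : ℕ} (hm : 0 < m) (hgm : ∀ v, ρ (g ^ m) v = v)
    (v : V) : ρ g v = v := by
  obtain ⟨ρ', hρ'⟩ : ∃ ρ' : Multiplicative ℤ → (V →+ V), ρ' = fun n => ρ (g ^ n.toAdd) := ⟨_, rfl⟩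
  have e1 : ρ' (Multiplicative.ofAdd 1) = ρ g := by
    rw [hρ']
    show ρ (g ^ (1 : ℤ)) = ρ g
    rw [zpow_one]
  have rone' : ∀ v, ρ' 1 v = v := by
    intro v
    rw [hρ']
    show ρ (g ^ (0 : ℤ)) v = v
    rw [zpow_zero, rho_one]
  have rmul' : ∀ x y v, ρ' (x * y) v = ρ' x (ρ' y v) := by
    intro x y v
    rw [hρ']
    show ρ (g ^ (x.toAdd + y.toAdd)) v = ρ (g ^ x.toAdd) (ρ (g ^ y.toAdd) v)
    rw [zpow_add, rho_mul]
  have hnat : ∀ n : ℕ, ∀ v, ∃ w, ρ (g ^ n) v - v = (2 : ℤ) • w := by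
    intro n
    induction n with
    | zero => exact fun v => ⟨0, by rw [pow_zero, rho_one, sub_self, smul_zero]⟩
    | succ n ih =>
      intro v
      obtain ⟨w, hw⟩ := ih (ρ g v)
      obtain ⟨u, hu⟩ := hg v
      refine ⟨w + (2 : ℤ) • u, ?_⟩
      rw [pow_succ, rho_mul, smul_add, ← hw, smul_smul]
      have : ((2 : ℤ) * 2) • u = (2 : ℤ) ^ 2 • u := by norm_num
      rw [this, ← hu]
      abel
  have hmod' : ∀ x v, ∃ w, ρ' x v - v = (2 : ℤ) • w := by
    intro x v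
    rw [hρ']
    show ∃ w, ρ (g ^ x.toAdd) v - v = (2 : ℤ) • w
    obtain ⟨n, h | h⟩ := Int.eq_nat_or_neg x.toAdd
    · rw [h, zpow_natCast]
      exact hnat n v
    · rw [h, zpow_neg, zpow_natCast]
      obtain ⟨w, hw⟩ := hnat n v
      refine ⟨-ρ ((g ^ n)⁻¹) w, ?_⟩
      rw [smul_neg, ← map_zsmul, ← hw, map_sub, ← rho_mul, inv_mul_cancel, rho_one]
      abel
  have h1 : ∀ v, ρ' (Multiplicative.ofAdd 1 * Multiplicative.ofAdd 1) v = v := fun v =>
    sq_trivial ρ' rone' rmul' htf hsep hmod' hm (fun v => by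
      rw [hρ']
      show ρ (g ^ ((Multiplicative.ofAdd (1 : ℤ)) ^ m).toAdd) v = v
      rw [← ofAdd_nsmul]
      show ρ (g ^ (m • (1 : ℤ))) v = v
      rw [nsmul_eq_mul, mul_one, zpow_natCast]
      exact hgm v) v
  have h2 := inv_trivial ρ' rmul' htf hsep (g := Multiplicative.ofAdd 1) (by rw [e1]; exact hg) h1 v
  rw [e1] at h2
  exact h2

include rho_one rho_mul htf hsep in
/-- The main relation. -/
theorem unip {g : G} (h1 : ∀ v, ∃ w, ρ g v - v = (2 : ℤ) • w) {m : ℕ} (hm : 0 < m)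
    (hgm : ∀ v, ρ (g ^ m) v = v) {v w w' : V} (hv : ρ g v - v = (2 : ℤ) • w)
    (hw : ρ g w - w = (2 : ℤ) • w') : w + w' = 0 := by
  have hc1 : Cg 1 (ρ g) := fun v => by
    obtain ⟨w, hw⟩ := h1 v
    exact ⟨w, by rw [pow_one]; exact hw⟩
  have hgg : ∀ v, ρ (g * g) v = ρ g (ρ g v) := fun v => rho_mul g g v
  have hc2 : Cg 2 (ρ (g * g)) := fun v => by
    obtain ⟨w, hw⟩ := hc1.sq htf le_rfl v
    exact ⟨w, by rw [← hw, hgg]; rfl⟩
  have hpow : ∀ n : ℕ, ∀ v, ρ (g ^ (m * n)) v = v := by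
    intro n
    induction n with
    | zero => intro v; rw [mul_zero, pow_zero, rho_one]
    | succ n ih => intro v; rw [mul_add, mul_one, pow_add, rho_mul, hgm, ih]
  have h2 := fin_one ρ rho_one rho_mul htf hsep hc2 hm (fun v => by
    rw [← pow_two, ← pow_mul, mul_comm]; exact hpow 2 v) v
  rw [hgg] at h2
  have e1 : ρ g v = v + (2 : ℤ) • w := by rw [← hv]; abel
  have e2 : ρ g w = w + (2 : ℤ) • w' := by rw [← hw]; abel
  rw [e1, map_add, map_zsmul, e1, e2] at h2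
  apply htf
  apply htf
  have h3 : (v + (2 : ℤ) • w + (2 : ℤ) • (w + (2 : ℤ) • w')) - v = 0 := by rw [h2, sub_self]
  rw [← h3, smul_add, smul_add]
  rw [smul_add]
  have : (2 : ℤ) • (2 : ℤ) • w = (2 : ℤ) • w + (2 : ℤ) • w := two_smul _ _
  rw [this]
  abel

end grp

section main

variable {k k' K F : Type} [Field k] [Field k'] [Algebra k k'] [Field K] [Algebra k[X] K]
    [Field F] [Algebra k'[X] F] [IsFractionRing k'[X] F] [Algebra K F]
    (hT : IsTower k k' K F) {W : WeierstrassCurve K} {H : Subgroup (Sep F ≃ₐ[K] Sep F)}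
    (hN : Preserves K F (Sep F)) (hF : NoFour W F) (hH : H.Normal)

include hF in
theorem q_htf (v : UU k' W H ⧸ NN k' W H) (h : (2 : ℤ) • v = 0) : v = 0 := by
  obtain ⟨c, rfl⟩ := QuotientAddGroup.mk_surjective v
  rw [← QuotientAddGroup.mk_zsmul, QuotientAddGroup.eq_zero_iff] at h
  rw [QuotientAddGroup.eq_zero_iff]
  have h1 : Nul W (((2 : ℤ) • c : UU k' W H) : Cc W F) := h
  show Nul W c.1
  refine nul_of_pow hF c.2.tc (m := 1) (fun n => ?_)
  obtain ⟨R, hR, e⟩ := h1 n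
  refine ⟨R, n + 1, hR, fun σ => ?_⟩
  rw [← e, pow_one]
  show 2 • c.1 n σ = (2 : ℤ) • c.1 n σ
  exact (natCast_zsmul (c.1 n σ) 2).symm

theorem q_hsep (v : UU k' W H ⧸ NN k' W H) (h : ∀ j : ℕ, ∃ w, v = (2 : ℤ) ^ j • w) : v = 0 := by
  have hval : ∀ (z : ℤ) (c : UU k' W H), ((z • c : UU k' W H) : Cc W F) = z • (c : Cc W F) :=
    fun z c => rfl
  obtain ⟨c, rfl⟩ := QuotientAddGroup.mk_surjective v
  rw [QuotientAddGroup.eq_zero_iff]
  show Nul W c.1
  intro n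
  obtain ⟨w, hw⟩ := h n
  obtain ⟨d, rfl⟩ := QuotientAddGroup.mk_surjective w
  rw [← QuotientAddGroup.mk_zsmul, mk_eq, hval] at hw
  obtain ⟨R, hR, e⟩ := hw n
  refine ⟨R, hR, fun σ => ?_⟩
  rw [← e]
  show c.1 n σ = c.1 n σ - (2 : ℤ) ^ n • d.1 n σ
  have h1 : (2 : ℤ) ^ n • d.1 n σ = 0 := by
    have h2 := pow_tc d.2.tc n σ
    rw [← natCast_zsmul] at h2
    push_cast at h2
    exact h2
  rw [h1, sub_zero]

include hF in
theorem q_act (τ : Sep F ≃ₐ[K] Sep F) (hτ : τ ∈ H) (v : UU k' W H ⧸ NN k' W H) :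
    rho hT hN hH τ v = v := by
  obtain ⟨c, rfl⟩ := QuotientAddGroup.mk_surjective v
  rw [rho_mk, mk_eq]
  obtain ⟨m, Q, hQ, h1⟩ := c.2.inv τ hτ
  have hQ' : ∀ n, 2 ^ n • Q n = 0 := by
    intro n
    induction n with
    | zero => rw [pow_zero, one_smul, hQ.zero]
    | succ n ih => rw [pow_succ, mul_smul, hQ.two, ih]
  have htc : IsTC W ((TU hT hN hH τ c).1 - c.1) := (TU hT hN hH τ c - c).2.tc
  refine nul_of_pow hF htc (m := m) (fun n => ⟨Q n, n, hQ' n, fun σ => ?_⟩)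
  exact h1 n σ _ (cj_spec hN τ σ)

theorem q_one (v : UU k' W H ⧸ NN k' W H) : rho hT hN hH 1 v = v := by
  obtain ⟨c, rfl⟩ := QuotientAddGroup.mk_surjective v
  rw [rho_mk]
  congr 1
  exact Subtype.ext (TA_one hN c.1)

theorem q_mul (g h : Sep F ≃ₐ[K] Sep F) (v : UU k' W H ⧸ NN k' W H) :
    rho hT hN hH (g * h) v = rho hT hN hH g (rho hT hN hH h v) := by
  obtain ⟨c, rfl⟩ := QuotientAddGroup.mk_surjective v
  rw [rho_mk, rho_mk, rho_mk]
  congr 1
  exact Subtype.ext (TA_mul hN g h c.1)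

include hT hN hF hH in
/-- **The relation for the classes.** -/
theorem z_sum (hfin : H.FiniteIndex) {τ : Sep F ≃ₐ[K] Sep F}
    (hall : ∀ c : Cc W F, PC k' W H c → ∃ z, PC k' W H z ∧ TA hN τ (TA hN τ c) - c = z + z)
    {c z z' : Cc W F} (hc : PC k' W H c) (hz : PC k' W H z) (hz' : PC k' W H z')
    (h1 : TA hN τ (TA hN τ c) - c = z + z) (h2 : TA hN τ (TA hN τ z) - z = z' + z') :
    Nul W (z + z') := by
  have key : ∀ (x y : UU k' W H), TA hN τ (TA hN τ x.1) - x.1 = y.1 + y.1 →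
      rho hT hN hH (τ * τ) (QuotientAddGroup.mk x) - QuotientAddGroup.mk x =
        (2 : ℤ) • (QuotientAddGroup.mk y : UU k' W H ⧸ NN k' W H) := by
    intro x y h
    rw [rho_mk, two_zsmul, ← QuotientAddGroup.mk_sub, ← QuotientAddGroup.mk_add]
    congr 1
    apply Subtype.ext
    show TA hN (τ * τ) x.1 - x.1 = y.1 + y.1
    rw [TA_mul, h]
  have h3 := unip (rho hT hN hH) (q_one hT hN hH) (q_mul hT hN hH) (q_htf (k' := k') hF)
    (q_hsep (k' := k')) (g := τ * τ) (fun v => by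
      obtain ⟨x, rfl⟩ := QuotientAddGroup.mk_surjective v
      obtain ⟨y, hy, h⟩ := hall x.1 x.2
      exact ⟨_, key x ⟨y, hy⟩ h⟩) (m := H.index) (Nat.pos_of_ne_zero hfin.index_ne_zero)
    (fun v => q_act hT hN hF hH _ (Subgroup.pow_index_mem H _) v) (key ⟨c, hc⟩ ⟨z, hz⟩ h1)
    (key ⟨z, hz⟩ ⟨z', hz'⟩ h2)
  rw [← QuotientAddGroup.mk_add, QuotientAddGroup.eq_zero_iff] at h3
  exact h3

end main

end Pool.Agent.K9h16.QT
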