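import Pool.Agent.K9h16.QT.Lft
import Pool.Agent.K9h16.QT.Quo
import Pool.Agent.K9h16.PT.Cmb

/-!
The parity functions are constant.
-/

set_option autoImplicit false
set_option linter.all false

open Polynomial IsDedekindDomain WeierstrassCurve WeierstrassCurve.Affine
open scoped Classical Pointwise

namespace Pool.Agent.K9h16.QT

open Pool.Agent.TH115.GD Pool.Agent.K9h16.PT Pool.Agent.R939.EI

section sums

variable {I : Type}

theorem sum_filter_one (S : Finset I) (f φ : I → ZMod 2) :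
    ∑ η ∈ S.filter (fun η => f η = 1), φ η = ∑ η ∈ S, f η * φ η := by
  rw [Finset.sum_filter]
  refine Finset.sum_congr rfl fun η _ => ?_
  rcases zcases (f η) with h | h
  · rw [h, if_neg zero_ne_one, zero_mul]
  · rw [h, if_pos rfl, one_mul]

theorem sum_ee_mem {S : Finset I} {u : I} (hu : u ∈ S) (φ : I → ZMod 2) :
    ∑ η ∈ S, φ η * ee u η = φ u := by
  unfold ee
  simp [hu]

theorem row_sum {S : Finset I} {u1 u2 u3 u4 : I} (h1 : u1 ∈ S) (h2 : u2 ∈ S) (h3 : u3 ∈ S)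
    (h4 : u4 ∈ S) (f : I → ZMod 2) (x y : ZMod 2) :
    ∑ η ∈ S, f η * ((ee u1 η + ee u2 η) * x + (ee u3 η + ee u4 η) * y) =
      (f u1 + f u2) * x + (f u3 + f u4) * y := by
  have : ∀ η, f η * ((ee u1 η + ee u2 η) * x + (ee u3 η + ee u4 η) * y) =
      (f η * ee u1 η) * x + (f η * ee u2 η) * x + (f η * ee u3 η) * y + (f η * ee u4 η) * y := by
    intro η; ring
  rw [Finset.sum_congr rfl fun η _ => this η, Finset.sum_add_distrib, Finset.sum_add_distrib,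
    Finset.sum_add_distrib, ← Finset.sum_mul, ← Finset.sum_mul, ← Finset.sum_mul,
    ← Finset.sum_mul, sum_ee_mem h1, sum_ee_mem h2, sum_ee_mem h3, sum_ee_mem h4]
  ring

end sums

section grp

variable {k : Type} [Field k] (k' : Type) [Field k'] [Algebra k k']

/-- Elements with a single minor. -/
def PureG (P Q : k[X]) : Prop :=
  ∀ β β' e e' : k', aeval β P = 0 → aeval β' P = 0 → aeval e Q = 0 → aeval e' Q = 0 → β ≠ β' →
    e ≠ e' → ∃ w : k' ≃ₐ[k] k', (∀ θ : k', aeval θ P = 0 → w θ = θ) ∧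
      (∀ θ : k', aeval θ Q = 0 → w θ = θ) ∧ (∀ c : k, c ≠ 0 → sg w (algebraMap k k' c) = 0) ∧
      ∀ θ η : k', aeval θ P = 0 → aeval η Q = 0 →
        sg w (θ - η) = (ee β θ + ee β' θ) * (ee e η + ee e' η)

/-- All the transpositions. -/
def SwG (P : k[X]) : Prop :=
  ∀ β β' : k', aeval β P = 0 → aeval β' P = 0 → β ≠ β' → ∃ s : k' ≃ₐ[k] k',
    s β = β' ∧ s β' = β ∧ ∀ θ : k', aeval θ P = 0 → θ ≠ β → θ ≠ β' → s θ = θ

/-- Many roots. -/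
def Five (P : k[X]) : Prop :=
  ∀ x y : k', ∃ z1 z2 z3 : k', aeval z1 P = 0 ∧ aeval z2 P = 0 ∧ aeval z3 P = 0 ∧ z1 ≠ z2 ∧
    z1 ≠ z3 ∧ z2 ≠ z3 ∧ z1 ≠ x ∧ z1 ≠ y ∧ z2 ≠ x ∧ z2 ≠ y ∧ z3 ≠ x ∧ z3 ≠ y

variable {k'}

theorem PureG.symm [IsSepClosed k'] (h2 : (2 : k') ≠ 0) {P Q : k[X]} (hco : IsCoprime P Q)
    (h : PureG k' P Q) : PureG k' Q P := by
  intro β β' e e' h1 h1' h3 h3' hn hn'
  obtain ⟨w, w1, w2, w3, w4⟩ := h e e' β β' h3 h3' h1 h1' hn' hn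
  refine ⟨w, w2, w1, w3, fun θ η hθ hη => ?_⟩
  have h5 : η - θ ≠ 0 := by
    intro e
    rw [sub_eq_zero] at e
    subst e
    exact cop_ne hco hη hθ
  have h6 := sg_neg h2 w3 h5 (by rw [map_sub, w1 η hη, w2 θ hθ])
  rw [neg_sub] at h6
  rw [h6, w4 η θ hη hθ, mul_comm]

theorem PureG.congr {P Q P' Q' : k[X]} (hP : ∀ θ : k', aeval θ P' = 0 ↔ aeval θ P = 0)
    (hQ : ∀ θ : k', aeval θ Q' = 0 ↔ aeval θ Q = 0) (h : PureG k' P Q) : PureG k' P' Q' := by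
  intro β β' e e' h1 h1' h3 h3' hn hn'
  obtain ⟨w, w1, w2, w3, w4⟩ := h β β' e e' ((hP _).1 h1) ((hP _).1 h1') ((hQ _).1 h3)
    ((hQ _).1 h3') hn hn'
  exact ⟨w, fun θ hθ => w1 θ ((hP _).1 hθ), fun θ hθ => w2 θ ((hQ _).1 hθ), w3,
    fun θ η hθ hη => w4 θ η ((hP _).1 hθ) ((hQ _).1 hη)⟩

/-- The element for the argument. -/
theorem exists_A [IsSepClosed k'] (h2 : (2 : k') ≠ 0) {P Q : k[X]} (hco : IsCoprime P Q)
    (h : PureG k' P Q) {β1 β2 β3 β4 e1 e2 e3 : k'} (b1 : aeval β1 P = 0) (b2 : aeval β2 P = 0)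
    (b3 : aeval β3 P = 0) (b4 : aeval β4 P = 0) (d1 : aeval e1 Q = 0) (d2 : aeval e2 Q = 0)
    (d3 : aeval e3 Q = 0) (n12 : β1 ≠ β2) (n34 : β3 ≠ β4) (m12 : e1 ≠ e2) (m23 : e2 ≠ e3) :
    ∃ w : k' ≃ₐ[k] k', (∀ θ : k', aeval θ P = 0 → w θ = θ) ∧
      (∀ θ : k', aeval θ Q = 0 → w θ = θ) ∧
      (∀ θ η : k', aeval θ P = 0 → aeval η Q = 0 →
        sg w (θ - η) = (ee β1 θ + ee β2 θ) * (ee e1 η + ee e2 η) +
          (ee β3 θ + ee β4 θ) * (ee e2 η + ee e3 η)) ∧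
      ∀ θ η : k', aeval θ P = 0 → aeval η Q = 0 → sg w (η - θ) = sg w (θ - η) := by
  obtain ⟨w, w1, w2, w3, w4⟩ := h β1 β2 e1 e2 b1 b2 d1 d2 n12 m12
  obtain ⟨v, v1, v2, v3, v4⟩ := h β3 β4 e2 e3 b3 b4 d2 d3 n34 m23
  have hne : ∀ θ η : k', aeval θ P = 0 → aeval η Q = 0 → θ - η ≠ 0 := by
    intro θ η hθ hη e
    rw [sub_eq_zero] at e
    subst e
    exact cop_ne hco hθ hη
  have u1 : ∀ θ : k', aeval θ P = 0 → (w * v) θ = θ := fun θ hθ => by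
    show w (v θ) = θ
    rw [v1 θ hθ, w1 θ hθ]
  have u2 : ∀ θ : k', aeval θ Q = 0 → (w * v) θ = θ := fun θ hθ => by
    show w (v θ) = θ
    rw [v2 θ hθ, w2 θ hθ]
  have u3 : ∀ c : k, c ≠ 0 → sg (w * v) (algebraMap k k' c) = 0 := fun c hc => by
    rw [sg_mul_l h2 ((_root_.map_ne_zero _).2 hc) (w.commutes c) (v.commutes c), w3 c hc, v3 c hc,
      add_zero]
  refine ⟨w * v, u1, u2, fun θ η hθ hη => ?_, fun θ η hθ hη => ?_⟩
  · rw [sg_mul_l h2 (hne θ η hθ hη) (by rw [map_sub, w1 θ hθ, w2 η hη])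
      (by rw [map_sub, v1 θ hθ, v2 η hη]), w4 θ η hθ hη, v4 θ η hθ hη]
  · have h6 := sg_neg h2 u3 (hne θ η hθ hη) (by rw [map_sub, u1 θ hθ, u2 η hη])
    rw [neg_sub] at h6
    exact h6

end grp

section tow

variable {k k' K F : Type} [Field k] [Field k'] [Algebra k k'] [Field K] [Algebra k[X] K]
    [Field F] [Algebra k'[X] F] [IsFractionRing k'[X] F] [Algebra K F]
    (hT : IsTower k k' K F) {a b : k[X]} (hS : Sd a b)
  (hN : Preserves K F (Sep F)) {H : Subgroup (Sep F ≃ₐ[K] Sep F)} (hH : H.Normal)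
  (hfin : H.FiniteIndex)

include hT hS hN hH hfin in
/-- **The parity functions are constant.** -/
theorem kth (hsw : SwG k' b) (hpure : PureG k' b (a ^ 2 - 4 * b)) (h5 : Five k' b)
    (h5' : Five k' (a ^ 2 - 4 * b))
    {c : Cc (Wc K a b) F} (hc : PC k' (Wc K a b) H c) {f : k' → ZMod 2}
    (hf : PF (Wc K a b) (c 1) f) : ∃ κ : ZMod 2, ∀ θ : k', aeval θ b = 0 → f θ = κ := by
  haveI := hT.sep
  haveI := hT.fracK
  haveI : IsSepClosed k' := IsSepClosure.sep_closed k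
  have h2' : (2 : k') ≠ 0 := two_k' hS.h2
  haveI : NeZero (2 : K) := ⟨tt hS.h2⟩
  obtain ⟨α, γ, hR⟩ := exists_rts hT hS
  obtain ⟨α', γ', hR'⟩ := exists_rts hT hS.dual
  by_contra hcon
  push Not at hcon
  obtain ⟨β, hβ, -⟩ := hcon 0
  obtain ⟨β', hβ', hne⟩ := hcon (f β)
  have hββ : β' ≠ β := fun h => hne (by rw [h])
  have hsum : f β' + f β = 1 := by
    have : ∀ x y : ZMod 2, x ≠ y → x + y = 1 := by decide
    exact this _ _ hne
  -- the first class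
  obtain ⟨s, s1, s2, s3⟩ := hsw β β' hβ hβ' hββ.symm
  obtain ⟨τ0, hτ0⟩ := exists_lift (K := K) (F := F) hT s
  obtain ⟨c1, hc1⟩ : ∃ c1, c1 = TA hN τ0 c - c := ⟨_, rfl⟩
  have hP1 : PC k' (Wc K a b) H c1 := by rw [hc1]; exact pc_diff hT hN hH hc τ0
  obtain ⟨f1, hf1⟩ : ∃ f1 : k' → ZMod 2, f1 = (fun θ => f (s.symm θ)) + f := ⟨_, rfl⟩
  have hF1 : PF (Wc K a b) (c1 1) f1 := by
    rw [hc1, hf1]
    exact pf_sub hR (pf_TA hN hf hτ0) hf (two_tc (PC.TA hT hN hH hc τ0).tc) (two_tc hc.tc)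
  have s1' : s.symm β' = β := by rw [AlgEquiv.symm_apply_eq, s1]
  have s2' : s.symm β = β' := by rw [AlgEquiv.symm_apply_eq, s2]
  have v1 : f1 β = 1 := by
    rw [hf1]
    show f (s.symm β) + f β = 1
    rw [s2', hsum]
  have v2 : f1 β' = 1 := by
    rw [hf1]
    show f (s.symm β') + f β' = 1
    rw [s1', add_comm, hsum]
  have v3 : ∀ θ : k', aeval θ b = 0 → θ ≠ β → θ ≠ β' → f1 θ = 0 := by
    intro θ hθ h h'
    rw [hf1]
    show f (s.symm θ) + f θ = 0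
    have : s.symm θ = θ := by rw [AlgEquiv.symm_apply_eq, s3 θ hθ h h']
    rw [this]
    exact zz _
  -- the roots
  obtain ⟨β1, β3, β4, r1, r3, r4, n13, n14, n34, n1, n1', n3, n3', n4, n4'⟩ := h5 β β'
  obtain ⟨e1, e2, e3, t1, t2, t3, m12, m13, m23, -, -, -, -, -, -⟩ := h5' β β
  obtain ⟨w, w1, w2, w3, w4⟩ := exists_A h2' hS.cop hpure (β1 := β1) (β2 := β) (β3 := β3)
    (β4 := β4) (e1 := e1) (e2 := e2) (e3 := e3) r1 hβ r3 r4 t1 t2 t3 n1 n34 m12 m23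
  obtain ⟨τ, hτ, hτα, hτα'⟩ := lift_fix hT hS hR hR' w
  have key := fun (c : Cc (Wc K a b) F) (hc : PC k' (Wc K a b) H c) (f : k' → ZMod 2)
    (hf : PF (Wc K a b) (c 1) f) => zlm hT hS hR hR' hN hH hc hτ hτα hτα' w1 w2 hf
  have hall : ∀ c : Cc (Wc K a b) F, PC k' (Wc K a b) H c →
      ∃ z, PC k' (Wc K a b) H z ∧ TA hN τ (TA hN τ c) - c = z + z := by
    intro c hc
    obtain ⟨f, hf⟩ := pf_exists hR k' (hc.tc.coc 1) (two_tc hc.tc)
    obtain ⟨z, hz, hz', -⟩ := key c hc f hf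
    exact ⟨z, hz, hz'⟩
  obtain ⟨z, hz, hze, hzf⟩ := key c1 hP1 f1 hF1
  obtain ⟨g, hg⟩ := pf_exists hR k' (hz.tc.coc 1) (two_tc hz.tc)
  obtain ⟨z', hz', hze', hzf'⟩ := key z hz g hg
  obtain ⟨g', hg'⟩ := pf_exists hR k' (hz'.tc.coc 1) (two_tc hz'.tc)
  obtain ⟨f', κ, κ', p1, p2⟩ := hzf g hg
  obtain ⟨f'', κ₂, κ₂', q1, q2⟩ := hzf' g' hg'
  have hnul := z_sum hT hN (noFour_Wc hT hS hR) hH hfin hall hP1 hz hz' hze hze'
  obtain ⟨κ₃, h3⟩ := pf_nul hT hS hR (hz.add hz').tc hnul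
    (pf_add hR hg hg' (two_tc hz.tc) (two_tc hz'.tc))
  -- the formulas
  have mB : ∀ {θ : k'}, aeval θ b = 0 → θ ∈ RB k' b := fun h => (mem_RB hS.b0).2 h
  have mD : ∀ {θ : k'}, aeval θ (a ^ 2 - 4 * b) = 0 → θ ∈ RB k' (a ^ 2 - 4 * b) :=
    fun h => (mem_RB hS.d0).2 h
  have formD : ∀ (φ : k' → ZMod 2) (e : k'), aeval e (a ^ 2 - 4 * b) = 0 →
      ∑ η ∈ (RB k' b).filter (fun η => φ η = 1), sg w (e - η) =
        (φ β1 + φ β) * (ee e1 e + ee e2 e) + (φ β3 + φ β4) * (ee e2 e + ee e3 e) := by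
    intro φ e he
    rw [sum_filter_one, ← row_sum (mB r1) (mB hβ) (mB r3) (mB r4) φ]
    refine Finset.sum_congr rfl fun η hη => ?_
    rw [mem_RB hS.b0] at hη
    rw [w4 η e hη he, w3 η e hη he]
  have formB : ∀ (φ : k' → ZMod 2) (θ : k'), aeval θ b = 0 →
      ∑ η ∈ (RB k' (a ^ 2 - 4 * b)).filter (fun η => φ η = 1), sg w (θ - η) =
        (φ e1 + φ e2) * (ee β1 θ + ee β θ) + (φ e2 + φ e3) * (ee β3 θ + ee β4 θ) := by
    intro φ θ hθ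
    rw [sum_filter_one, ← row_sum (mD t1) (mD t2) (mD t2) (mD t3) φ]
    refine Finset.sum_congr rfl fun η hη => ?_
    rw [mem_RB hS.d0] at hη
    rw [w3 θ η hθ hη, mul_comm (ee β1 θ + ee β θ), mul_comm (ee β3 θ + ee β4 θ)]
  have x0 := v3 β1 r1 n1 n1'
  have x3 := v3 β3 r3 n3 n3'
  have x4 := v3 β4 r4 n4 n4'
  -- the first step
  have a1 : f' e1 = 1 + κ := by
    rw [p1 e1 t1, formD f1 e1 t1, x0, v1, x3, x4, ee_self, ee_ne m12, ee_ne m13]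
    ring
  have a2 : f' e2 = 1 + κ := by
    rw [p1 e2 t2, formD f1 e2 t2, x0, v1, x3, x4, ee_self, ee_ne m12.symm, ee_ne m23]
    ring
  have a3 : f' e3 = κ := by
    rw [p1 e3 t3, formD f1 e3 t3, x0, v1, x3, x4, ee_self, ee_ne m13.symm, ee_ne m23.symm]
    ring
  have c0 : f' e1 + f' e2 = 0 := by rw [a1, a2]; exact zz _
  have c2 : f' e2 + f' e3 = 1 := by
    rw [a2, a3, add_assoc, zz, add_zero]
  have g1 : g β1 = κ' := by
    rw [p2 β1 r1, formB f' β1 r1, c0, c2, ee_ne n13, ee_ne n14]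
    ring
  have g2 : g β = κ' := by
    rw [p2 β hβ, formB f' β hβ, c0, c2, ee_ne n3.symm, ee_ne n4.symm]
    ring
  have g3 : g β3 = 1 + κ' := by
    rw [p2 β3 r3, formB f' β3 r3, c0, c2, ee_self, ee_ne n34]
    ring
  have g4 : g β4 = 1 + κ' := by
    rw [p2 β4 r4, formB f' β4 r4, c0, c2, ee_self, ee_ne n34.symm]
    ring
  -- the second step
  have d1 : ∀ e : k', aeval e (a ^ 2 - 4 * b) = 0 → f'' e = κ₂ := by
    intro e he
    rw [q1 e he, formD g e he, g1, g2, g3, g4, zz, zz, zero_mul, zero_mul, zero_add, zero_add]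
  have g5 : ∀ θ : k', aeval θ b = 0 → g' θ = κ₂' := by
    intro θ hθ
    rw [q2 θ hθ, formB f'' θ hθ, d1 e1 t1, d1 e2 t2, d1 e3 t3, zz, zero_mul, zero_mul, zero_add,
      zero_add]
  have y1 := h3 β1 r1
  have y3 := h3 β3 r3
  rw [Pi.add_apply, g1, g5 β1 r1] at y1
  rw [Pi.add_apply, g3, g5 β3 r3] at y3
  rw [← y1] at y3
  have : ∀ x y : ZMod 2, 1 + x + y ≠ x + y := by decide
  exact this _ _ y3

end tow

end Pool.Agent.K9h16.QT
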