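import Pool.Agent.K9h16.QT.Zlm
import Pool.Agent.K9h16.PT.One

/-!
Lifts of the automorphisms of the field of constants which fix the points of order two of the two
isogenous curves.
-/

set_option autoImplicit false
set_option linter.all false

open Polynomial IsDedekindDomain WeierstrassCurve WeierstrassCurve.Affine
open scoped Classical Pointwise

namespace Pool.Agent.K9h16.QT

open Pool.Agent.TH115.GD Pool.Agent.K9h16.PT Pool.Agent.R939.EI

section flip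

variable {F : Type} [Field F]

theorem sq_pm {x : F} {r : Sep F} (hr : r ^ 2 = algebraMap F (Sep F) x)
    (σ : Sep F ≃ₐ[F] Sep F) : σ r = r ∨ σ r = -r := by
  apply sq_eq_sq_iff_eq_or_eq_neg.1
  rw [← map_pow, hr, σ.commutes]

theorem exists_flip {x : F} {r : Sep F} (hr : r ^ 2 = algebraMap F (Sep F) x)
    (hx : ∀ g : F, g ^ 2 ≠ x) : ∃ σ : Sep F ≃ₐ[F] Sep F, σ r = -r := by
  by_contra hcon
  push Not at hcon
  have h1 : r ∈ Set.range (algebraMap F (Sep F)) := by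
    rw [InfiniteGalois.mem_range_algebraMap_iff_fixed]
    intro σ
    exact (sq_pm hr σ).resolve_right (hcon σ)
  obtain ⟨g, hg⟩ := h1
  apply hx g
  apply (algebraMap F (Sep F)).injective
  rw [← hr, ← hg, map_pow]

theorem exists_flip2 {x y : F} {r t : Sep F} (hr : r ^ 2 = algebraMap F (Sep F) x)
    (ht : t ^ 2 = algebraMap F (Sep F) y) (hx : ∀ g : F, g ^ 2 ≠ x)
    (hxy : ∀ g : F, g ^ 2 ≠ x * y) : ∃ σ : Sep F ≃ₐ[F] Sep F, σ r = -r ∧ σ t = t := by
  have hr0 : r ≠ 0 := by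
    rintro rfl
    rw [zero_pow two_ne_zero] at hr
    have : x = 0 := (_root_.map_eq_zero _).1 hr.symm
    exact hx 0 (by rw [this, zero_pow two_ne_zero])
  have ht0 : t ≠ 0 := by
    rintro rfl
    rw [zero_pow two_ne_zero] at ht
    have : y = 0 := (_root_.map_eq_zero _).1 ht.symm
    exact hxy 0 (by rw [this, zero_pow two_ne_zero, mul_zero])
  obtain ⟨σ3, h3⟩ := exists_flip (r := r * t) (x := x * y) (by rw [mul_pow, hr, ht, map_mul]) hxy
  rw [map_mul] at h3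
  rcases sq_pm hr σ3 with e | e
  · rw [e] at h3
    have e' : σ3 t = -t := mul_left_cancel₀ hr0 (by rw [h3, mul_neg])
    obtain ⟨σ1, h1⟩ := exists_flip hr hx
    rcases sq_pm ht σ1 with f | f
    · exact ⟨σ1, h1, f⟩
    · refine ⟨σ3 * σ1, ?_, ?_⟩
      · show σ3 (σ1 r) = -r
        rw [h1, map_neg, e]
      · show σ3 (σ1 t) = t
        rw [f, map_neg, e', neg_neg]
  · refine ⟨σ3, e, ?_⟩
    rw [e] at h3
    exact mul_left_cancel₀ (neg_ne_zero.2 hr0) (by rw [h3, neg_mul])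

end flip

section tow

variable {k k' K F : Type} [Field k] [Field k'] [Algebra k k'] [Field K] [Algebra k[X] K]
    [Field F] [Algebra k'[X] F] [IsFractionRing k'[X] F] [Algebra K F]
    (hT : IsTower k k' K F) {a b : k[X]} (hS : Sd a b)
    {α β : Sep F} (hR : Roots (algebraMap k[X] K a) (algebraMap k[X] K b) (Sep F) α β)
    {α' β' : Sep F} (hR' : Roots (algebraMap k[X] K (-2 * a)) (algebraMap k[X] K (a ^ 2 - 4 * b))
      (Sep F) α' β')

theorem gam_sq' {a b : k[X]} {α β : Sep F}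
    (hR : Roots (algebraMap k[X] K a) (algebraMap k[X] K b) (Sep F) α β) :
    (α - β) ^ 2 = algebraMap F (Sep F) (algebraMap K F (algebraMap k[X] K (a ^ 2 - 4 * b))) := by
  rw [gam_sq hR, map_sub (algebraMap k[X] K), map_mul (algebraMap k[X] K),
    map_pow (algebraMap k[X] K), map_ofNat (algebraMap k[X] K)]

theorem lifts_mul_K {s : k' ≃ₐ[k] k'} {τ : Sep F ≃ₐ[K] Sep F} (h : Lifts s τ)
    (ρ : Sep F ≃ₐ[F] Sep F) : Lifts s (τ * ρ.restrictScalars K) := by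
  intro p
  rw [AlgEquiv.mul_apply]
  have : (ρ.restrictScalars K) (algebraMap F (Sep F) (algebraMap k'[X] F p)) =
    algebraMap F (Sep F) (algebraMap k'[X] F p) := ρ.commutes _
  rw [this, h]

theorem perm_of_neg {a b : K} {α β : Sep F} (hR : Roots a b (Sep F) α β) (h2 : (2 : Sep F) ≠ 0)
    {ρ : Sep F ≃ₐ[F] Sep F} (h : ρ (α - β) = -(α - β)) : ρ α = β ∧ ρ β = α := by
  rcases hR.perm (rs K ρ) with ⟨h1, h3⟩ | ⟨h1, h3⟩
  · exfalso
    have e1 : ρ α = α := h1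
    have e3 : ρ β = β := h3
    rw [map_sub, e1, e3] at h
    have : 2 * (α - β) = 0 := by linear_combination h
    rcases mul_eq_zero.1 this with h | h
    · exact h2 h
    · exact gam_ne hR h
  · exact ⟨h1, h3⟩

theorem perm_of_pos {a b : K} {α β : Sep F} (hR : Roots a b (Sep F) α β) (h2 : (2 : Sep F) ≠ 0)
    {ρ : Sep F ≃ₐ[F] Sep F} (h : ρ (α - β) = (α - β)) : ρ α = α ∧ ρ β = β := by
  rcases hR.perm (rs K ρ) with ⟨h1, h3⟩ | ⟨h1, h3⟩
  · exact ⟨h1, h3⟩
  · exfalso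
    have e1 : ρ α = β := h1
    have e3 : ρ β = α := h3
    rw [map_sub, e1, e3] at h
    have : 2 * (α - β) = 0 := by linear_combination -h
    rcases mul_eq_zero.1 this with h | h
    · exact h2 h
    · exact gam_ne hR h

include hT hS hR hR' in
theorem lift_fix (s : k' ≃ₐ[k] k') :
    ∃ τ : Sep F ≃ₐ[K] Sep F, Lifts s τ ∧ τ α = α ∧ τ α' = α' := by
  haveI := hT.sep
  haveI := hT.fracK
  have hS' := hS.dual
  have h2F : (2 : F) ≠ 0 := by
    rw [← map_ofNat (algebraMap K F) 2]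
    exact (_root_.map_ne_zero _).2 (tt hS.h2)
  have h2 : (2 : Sep F) ≠ 0 := by
    rw [← map_ofNat (algebraMap F (Sep F)) 2]
    exact (_root_.map_ne_zero _).2 h2F
  have hr := gam_sq' (F := F) hR
  have ht := gam_sq' (F := F) hR'
  have hx := not_sq (F := F) hT hS.sd hS.dd
  have hy := not_sq (F := F) hT hS'.sd hS'.dd
  have hco : IsCoprime (a ^ 2 - 4 * b) ((-2 * a) ^ 2 - 4 * (a ^ 2 - 4 * b)) := hS'.cop
  have hxy := not_sq (F := F) hT (Separable.mul hS.sd hS'.sd hco) (by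
    rw [natDegree_mul hS.d0 hS'.d0]
    exact Nat.add_pos_left hS.dd _)
  rw [map_mul, map_mul] at hxy
  have hyx := hxy
  rw [mul_comm] at hyx
  obtain ⟨ρ1, h1, h1'⟩ := exists_flip2 hr ht hx hxy
  obtain ⟨ρ2, h2a, h2b⟩ := exists_flip2 ht hr hy hyx
  obtain ⟨u1, -⟩ := perm_of_neg hR h2 h1
  obtain ⟨u1', -⟩ := perm_of_pos hR' h2 h1'
  obtain ⟨u2, -⟩ := perm_of_neg hR' h2 h2a
  obtain ⟨u2', -⟩ := perm_of_pos hR h2 h2b
  -- first step
  obtain ⟨τ0, hτ0⟩ := exists_lift (K := K) (F := F) hT s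
  obtain ⟨τ1, hτ1, e1⟩ : ∃ τ : Sep F ≃ₐ[K] Sep F, Lifts s τ ∧ τ α = α := by
    rcases hR.perm (ak τ0) with ⟨g1, g3⟩ | ⟨g1, g3⟩
    · exact ⟨τ0, hτ0, g1⟩
    · refine ⟨τ0 * ρ1.restrictScalars K, lifts_mul_K hτ0 ρ1, ?_⟩
      show τ0 (ρ1 α) = α
      rw [u1]
      exact g3
  rcases hR'.perm (ak τ1) with ⟨g1, g3⟩ | ⟨g1, g3⟩
  · exact ⟨τ1, hτ1, e1, g1⟩
  · refine ⟨τ1 * ρ2.restrictScalars K, lifts_mul_K hτ1 ρ2, ?_, ?_⟩
    · show τ1 (ρ2 α) = α
      rw [u2', e1]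
    · show τ1 (ρ2 α') = α'
      rw [u2]
      exact g3

end tow

end Pool.Agent.K9h16.QT
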