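import Pool.Agent.X243.Sol.Cnt6

/-!
The mixing lemma: the number of pairs `(a, b)` of polynomials over a finite field of odd characteristic
such that `b` and `a ^ 2 - 4 b` are in given sets.
-/

set_option autoImplicit false
set_option linter.all false

open Polynomial
open scoped Classical

namespace Pool.Agent.K9h16.QT

open Pool.Agent.Y160.T3 Pool.Agent.X243.Tate

section mix

variable {F : Type} [Field F] [Fintype F] {ψ : AddChar F ℂ}

/-- The pairing. -/
def dp {ι : Type} [Fintype ι] (y v : ι → F) : F := ∑ j, y j * v j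

theorem dp_add {ι : Type} [Fintype ι] (y v w : ι → F) : dp y (v + w) = dp y v + dp y w := by
  unfold dp
  rw [← Finset.sum_add_distrib]
  exact Finset.sum_congr rfl fun j _ => by rw [Pi.add_apply, mul_add]

theorem dp_neg {ι : Type} [Fintype ι] (y v : ι → F) : dp y (-v) = -dp y v := by
  unfold dp
  rw [← Finset.sum_neg_distrib]
  exact Finset.sum_congr rfl fun j _ => by rw [Pi.neg_apply, mul_neg]

theorem dp_zero {ι : Type} [Fintype ι] (v : ι → F) : dp 0 v = 0 := by
  unfold dp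
  exact Finset.sum_eq_zero fun j _ => by rw [Pi.zero_apply, zero_mul]

theorem psi_sum {ι : Type} (s : Finset ι) (f : ι → F) : ψ (∑ j ∈ s, f j) = ∏ j ∈ s, ψ (f j) := by
  induction s using Finset.induction_on with
  | empty => rw [Finset.sum_empty, Finset.prod_empty, AddChar.map_zero_eq_one]
  | insert a s ha ih => rw [Finset.sum_insert ha, Finset.prod_insert ha, AddChar.map_add_eq_mul, ih]

/-- Orthogonality. -/
theorem orth (hψ : ψ.IsPrimitive) {ι : Type} [Fintype ι] [DecidableEq ι] (v : ι → F) :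
    ∑ y : ι → F, ψ (dp y v) = if v = 0 then (Fintype.card F : ℂ) ^ Fintype.card ι else 0 := by
  have h1 : ∀ y : ι → F, ψ (dp y v) = ∏ j, ψ (y j * v j) := fun y => psi_sum _ _
  rw [Finset.sum_congr rfl fun y _ => h1 y]
  have h2 := Finset.prod_univ_sum (fun _ : ι => (Finset.univ : Finset F))
    (fun j t => ψ (t * v j))
  rw [Fintype.piFinset_univ] at h2
  rw [← h2]
  have h3 : ∀ j, ∑ t : F, ψ (t * v j) = if v j = 0 then (Fintype.card F : ℂ) else 0 := by
    intro j
    rw [AddChar.sum_mulShift (v j) hψ]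
    split_ifs <;> simp
  rw [Finset.prod_congr rfl fun j _ => h3 j]
  split_ifs with hv
  · rw [hv]
    simp
  · obtain ⟨j, hj⟩ : ∃ j, v j ≠ 0 := by
      by_contra hcon
      push Not at hcon
      exact hv (funext hcon)
    exact Finset.prod_eq_zero (Finset.mem_univ j) (if_neg hj)

/-- The square of the absolute value of a sum of characters. -/
theorem norm_sq_sum {A : Type} (S : Finset A) (φ : A → F) :
    ((‖∑ b ∈ S, ψ (φ b)‖ ^ 2 : ℝ) : ℂ) = ∑ b ∈ S, ∑ b' ∈ S, ψ (φ b + -φ b') := by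
  push_cast
  rw [← Complex.mul_conj', map_sum, Finset.sum_mul_sum]
  refine Finset.sum_congr rfl fun b _ => Finset.sum_congr rfl fun b' _ => ?_
  rw [AddChar.map_add_eq_mul, AddChar.map_neg_eq_conj]

/-- Parseval. -/
theorem parseval (hψ : ψ.IsPrimitive) {ι : Type} [Fintype ι] [DecidableEq ι] (S : Finset (ι → F))
    {g : (ι → F) → (ι → F)} (hg : Function.Injective g) :
    ∑ y : ι → F, ‖∑ b ∈ S, ψ (dp y (g b))‖ ^ 2 = (Fintype.card F : ℝ) ^ Fintype.card ι * S.card := by
  have h1 : ((∑ y : ι → F, ‖∑ b ∈ S, ψ (dp y (g b))‖ ^ 2 : ℝ) : ℂ) =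
      (((Fintype.card F : ℝ) ^ Fintype.card ι * S.card : ℝ) : ℂ) := by
    rw [Complex.ofReal_sum]
    simp_rw [norm_sq_sum]
    rw [Finset.sum_comm]
    have h2 : ∀ b ∈ S, ∑ y : ι → F, ∑ b' ∈ S, ψ (dp y (g b) + -dp y (g b')) =
        (Fintype.card F : ℂ) ^ Fintype.card ι := by
      intro b hb
      rw [Finset.sum_comm]
      have h3 : ∀ b' ∈ S, ∑ y : ι → F, ψ (dp y (g b) + -dp y (g b')) =
          if b' = b then (Fintype.card F : ℂ) ^ Fintype.card ι else 0 := by
        intro b' _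
        have h4 : ∀ y : ι → F, dp y (g b) + -dp y (g b') = dp y (g b + -g b') := by
          intro y; rw [dp_add, dp_neg]
        rw [Finset.sum_congr rfl fun y _ => by rw [h4 y], orth hψ]
        by_cases hbb : b' = b
        · rw [if_pos hbb, if_pos (by rw [hbb, add_neg_cancel])]
        · rw [if_neg hbb, if_neg (fun h => hbb (hg (by
            have := eq_of_sub_eq_zero (by rw [sub_eq_add_neg]; exact h : g b - g b' = 0)
            exact this.symm)))]
      rw [Finset.sum_congr rfl h3, Finset.sum_ite_eq' S b, if_pos hb]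
    rw [Finset.sum_congr rfl h2, Finset.sum_const, nsmul_eq_mul]
    push_cast
    ring
  exact_mod_cast h1

/-! ### The quadratic form -/

variable {m : ℕ}

/-- The bilinear form. -/
def bil (y : Fin (2 * m + 1) → F) (a h : Fin (m + 1) → F) : F :=
  ∑ i, ∑ l, a i * h l * y ⟨(i : ℕ) + l, by omega⟩

/-- The coefficients of the square. -/
noncomputable def sq (a : Fin (m + 1) → F) : Fin (2 * m + 1) → F := fun j => ((bF a) ^ 2).coeff j

theorem dp_sq (y : Fin (2 * m + 1) → F) (a : Fin (m + 1) → F) : dp y (sq a) = bil y a a := by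
  have h1 : (bF a) ^ 2 = ∑ i : Fin (m + 1), ∑ l : Fin (m + 1),
      C (a i * a l) * X ^ ((i : ℕ) + l) := by
    rw [pow_two]
    unfold bF
    rw [Finset.sum_mul_sum]
    refine Finset.sum_congr rfl fun i _ => Finset.sum_congr rfl fun l _ => ?_
    rw [C_mul, pow_add]
    ring
  unfold dp sq bil
  rw [h1]
  have h2 : ∀ j : Fin (2 * m + 1), y j * (∑ i : Fin (m + 1), ∑ l : Fin (m + 1),
      C (a i * a l) * X ^ ((i : ℕ) + l) : F[X]).coeff j =
      ∑ i : Fin (m + 1), ∑ l : Fin (m + 1),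
        if j = ⟨(i : ℕ) + l, by omega⟩ then a i * a l * y j else 0 := by
    intro j
    rw [finset_sum_coeff, Finset.mul_sum]
    refine Finset.sum_congr rfl fun i _ => ?_
    rw [finset_sum_coeff, Finset.mul_sum]
    refine Finset.sum_congr rfl fun l _ => ?_
    rw [coeff_C_mul_X_pow]
    by_cases hj : (j : ℕ) = (i : ℕ) + l
    · rw [if_pos hj, if_pos (Fin.ext hj)]
      ring
    · rw [if_neg hj, if_neg (fun h => hj (congrArg Fin.val h)), mul_zero]
  rw [Finset.sum_congr rfl fun j _ => h2 j, Finset.sum_comm]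
  refine Finset.sum_congr rfl fun i _ => ?_
  rw [Finset.sum_comm]
  refine Finset.sum_congr rfl fun l _ => ?_
  rw [Finset.sum_ite_eq' Finset.univ (⟨(i : ℕ) + l, by omega⟩ : Fin (2 * m + 1))]
  rw [if_pos (Finset.mem_univ _)]

/-- The linear form of `h`. -/
def lin (y : Fin (2 * m + 1) → F) (h : Fin (m + 1) → F) : Fin (m + 1) → F :=
  fun i => ∑ l, h l * y ⟨(i : ℕ) + l, by omega⟩

theorem bil_lin (y : Fin (2 * m + 1) → F) (a h : Fin (m + 1) → F) : bil y a h = dp a (lin y h) := by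
  unfold bil dp lin
  refine Finset.sum_congr rfl fun i _ => ?_
  rw [Finset.mul_sum]
  exact Finset.sum_congr rfl fun l _ => by rw [mul_assoc]

theorem bil_symm (y : Fin (2 * m + 1) → F) (a h : Fin (m + 1) → F) : bil y a h = bil y h a := by
  unfold bil
  rw [Finset.sum_comm]
  refine Finset.sum_congr rfl fun i _ => Finset.sum_congr rfl fun l _ => ?_
  have : (⟨(l : ℕ) + i, by omega⟩ : Fin (2 * m + 1)) = ⟨(i : ℕ) + l, by omega⟩ :=
    Fin.ext (add_comm _ _)
  rw [this]
  ring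

theorem bil_add (y : Fin (2 * m + 1) → F) (a h h' : Fin (m + 1) → F) :
    bil y a (h + h') = bil y a h + bil y a h' := by
  unfold bil
  rw [← Finset.sum_add_distrib]
  refine Finset.sum_congr rfl fun i _ => ?_
  rw [← Finset.sum_add_distrib]
  exact Finset.sum_congr rfl fun l _ => by rw [Pi.add_apply]; ring

/-- The kernel of the linear form is small. -/
theorem ker_lin {y : Fin (2 * m + 1) → F} (hy : y ≠ 0) :
    (Finset.univ.filter (fun h : Fin (m + 1) → F => lin y h = 0)).card ≤ Fintype.card F ^ m := by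
  obtain ⟨j, hj⟩ : ∃ j, y j ≠ 0 := by
    by_contra hcon
    push Not at hcon
    exact hy (funext hcon)
  obtain ⟨i0, l0, hil⟩ : ∃ i0 l0 : Fin (m + 1), (i0 : ℕ) + l0 = j := by
    by_cases hjm : (j : ℕ) ≤ m
    · exact ⟨⟨j, by omega⟩, ⟨0, by omega⟩, rfl⟩
    · exact ⟨⟨m, by omega⟩, ⟨j - m, by omega⟩, by simp only; omega⟩
  have hy0 : y ⟨(i0 : ℕ) + l0, by omega⟩ ≠ 0 := by
    have : (⟨(i0 : ℕ) + l0, by omega⟩ : Fin (2 * m + 1)) = j := Fin.ext hil
    rw [this]
    exact hj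
  have hc : Fintype.card F ^ m = Fintype.card ({l : Fin (m + 1) // l ≠ l0} → F) := by
    rw [Fintype.card_fun, Fintype.card_subtype_compl, Fintype.card_fin, Fintype.card_subtype_eq]
    rfl
  rw [hc, ← Finset.card_univ]
  refine Finset.card_le_card_of_injOn (fun h l => h l.1) (fun _ _ => Finset.mem_univ _) ?_
  intro h hh h' hh' heq
  rw [Finset.mem_coe, Finset.mem_filter] at hh hh'
  have e1 := congrFun hh.2 i0
  have e2 := congrFun hh'.2 i0
  have hne : ∀ l, l ≠ l0 → h l = h' l := fun l hl => congrFun heq ⟨l, hl⟩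
  have e3 : (∑ l, h l * y ⟨(i0 : ℕ) + l, by omega⟩) = ∑ l, h' l * y ⟨(i0 : ℕ) + l, by omega⟩ :=
    e1.trans e2.symm
  have e4 : h l0 = h' l0 := by
    rw [← Finset.add_sum_erase _ _ (Finset.mem_univ l0), ← Finset.add_sum_erase _ _
      (Finset.mem_univ l0)] at e3
    have e5 : ∑ l ∈ Finset.univ.erase l0, h l * y ⟨(i0 : ℕ) + l, by omega⟩ =
        ∑ l ∈ Finset.univ.erase l0, h' l * y ⟨(i0 : ℕ) + l, by omega⟩ :=
      Finset.sum_congr rfl fun l hl => by rw [hne l (Finset.ne_of_mem_erase hl)]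
    rw [e5] at e3
    exact mul_right_cancel₀ hy0 (add_right_cancel e3)
  funext l
  by_cases hl : l = l0
  · rw [hl, e4]
  · exact hne l hl

/-- The Gauss sum. -/
theorem gauss (hψ : ψ.IsPrimitive) (h2 : (2 : F) ≠ 0) {y : Fin (2 * m + 1) → F} (hy : y ≠ 0) :
    ‖∑ a : Fin (m + 1) → F, ψ (dp y (sq a))‖ ^ 2 ≤ (Fintype.card F : ℝ) ^ (2 * m + 1) := by
  have h1 : ((‖∑ a : Fin (m + 1) → F, ψ (dp y (sq a))‖ ^ 2 : ℝ) : ℂ) =
      ∑ h ∈ Finset.univ.filter (fun h : Fin (m + 1) → F => lin y h = 0),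
        (Fintype.card F : ℂ) ^ (m + 1) * ψ (bil y h h) := by
    rw [norm_sq_sum, Finset.sum_comm]
    have e1 : ∀ a' : Fin (m + 1) → F, ∑ a : Fin (m + 1) → F, ψ (dp y (sq a) + -dp y (sq a')) =
        ∑ h : Fin (m + 1) → F, ψ (2 * bil y a' h) * ψ (bil y h h) := by
      intro a'
      rw [← Equiv.sum_comp (Equiv.addRight a')]
      refine Finset.sum_congr rfl fun h _ => ?_
      rw [← AddChar.map_add_eq_mul]
      congr 1
      show dp y (sq (h + a')) + -dp y (sq a') = _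
      rw [dp_sq, dp_sq, bil_add, bil_symm y (h + a') h, bil_symm y (h + a') a', bil_add, bil_add,
        bil_symm y h a']
      ring
    rw [Finset.sum_congr rfl fun a' _ => e1 a', Finset.sum_comm, Finset.sum_filter]
    refine Finset.sum_congr rfl fun h _ => ?_
    rw [← Finset.sum_mul]
    have e2 : ∀ a' : Fin (m + 1) → F, 2 * bil y a' h = dp a' (fun i => 2 * lin y h i) := by
      intro a'
      rw [bil_lin]
      unfold dp
      rw [Finset.mul_sum]
      exact Finset.sum_congr rfl fun i _ => by ring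
    rw [Finset.sum_congr rfl fun a' _ => by rw [e2 a'], orth hψ, Fintype.card_fin]
    by_cases hl : lin y h = 0
    · rw [if_pos hl, if_pos]
      funext i
      rw [hl, Pi.zero_apply, mul_zero]
    · rw [if_neg hl, if_neg, zero_mul]
      intro h0
      apply hl
      funext i
      have := congrFun h0 i
      exact (mul_eq_zero.1 this).resolve_left h2
  have h3 : ‖∑ a : Fin (m + 1) → F, ψ (dp y (sq a))‖ ^ 2 =
      ‖((‖∑ a : Fin (m + 1) → F, ψ (dp y (sq a))‖ ^ 2 : ℝ) : ℂ)‖ := by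
    rw [Complex.norm_real, Real.norm_of_nonneg (by positivity)]
  rw [h3, h1]
  refine (norm_sum_le _ _).trans ?_
  have h4 : ∀ h ∈ Finset.univ.filter (fun h : Fin (m + 1) → F => lin y h = 0),
      ‖(Fintype.card F : ℂ) ^ (m + 1) * ψ (bil y h h)‖ = (Fintype.card F : ℝ) ^ (m + 1) := by
    intro h _
    rw [norm_mul, AddChar.norm_apply, mul_one, norm_pow, Complex.norm_natCast]
  rw [Finset.sum_congr rfl h4, Finset.sum_const, nsmul_eq_mul]
  have h5 : ((Finset.univ.filter (fun h : Fin (m + 1) → F => lin y h = 0)).card : ℝ) ≤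
      (Fintype.card F : ℝ) ^ m := by
    exact_mod_cast ker_lin hy
  calc _ ≤ (Fintype.card F : ℝ) ^ m * (Fintype.card F : ℝ) ^ (m + 1) :=
        mul_le_mul_of_nonneg_right h5 (by positivity)
    _ = _ := by rw [← pow_add]; congr 1; ring

/-- Multiplication by `-4`. -/
def n4 {ι : Type} (b : ι → F) : ι → F := fun j => (-4) * b j

theorem n4_inj (h2 : (2 : F) ≠ 0) {ι : Type} : Function.Injective (n4 (F := F) (ι := ι)) := by
  intro b b' h
  have h4 : (-4 : F) ≠ 0 := by
    rw [neg_ne_zero, show (4 : F) = 2 * 2 by norm_num]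
    exact mul_ne_zero h2 h2
  funext j
  exact mul_left_cancel₀ h4 (congrFun h j)

/-- The pairs. -/
noncomputable def TT (S S' : Finset (Fin (2 * m + 1) → F)) :
    Finset ((Fin (m + 1) → F) × (Fin (2 * m + 1) → F)) :=
  Finset.univ.filter (fun x => x.2 ∈ S ∧ sq x.1 + n4 x.2 ∈ S')

theorem card_TT (S S' : Finset (Fin (2 * m + 1) → F)) :
    ((TT S S').card : ℂ) = ∑ a : Fin (m + 1) → F, ∑ b ∈ S, ∑ d ∈ S',
      if sq a + n4 b + -d = 0 then 1 else 0 := by
  have h1 : ∀ (a : Fin (m + 1) → F) (b : Fin (2 * m + 1) → F),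
      (∑ d ∈ S', if sq a + n4 b + -d = 0 then (1 : ℂ) else 0) =
        if sq a + n4 b ∈ S' then 1 else 0 := by
    intro a b
    have h3 : ∀ d ∈ S', (if sq a + n4 b + -d = 0 then (1 : ℂ) else 0) =
        if d = sq a + n4 b then 1 else 0 := by
      intro d _
      by_cases hd : d = sq a + n4 b
      · rw [if_pos hd, if_pos (by rw [hd, add_neg_cancel])]
      · rw [if_neg hd, if_neg (fun h => hd (by
          have := eq_of_sub_eq_zero (by rw [sub_eq_add_neg]; exact h : sq a + n4 b - d = 0)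
          exact this.symm))]
    rw [Finset.sum_congr rfl h3, Finset.sum_ite_eq']
  simp_rw [h1]
  rw [TT, Finset.card_filter, ← Finset.univ_product_univ, Finset.sum_product]
  push_cast
  refine Finset.sum_congr rfl fun a _ => ?_
  rw [← Finset.sum_filter (fun b => sq a + n4 b ∈ S')]
  rw [← Finset.sum_filter, Finset.sum_const, Finset.sum_const]
  congr 2
  ext b
  simp [Finset.mem_filter]

theorem mix_id (hψ : ψ.IsPrimitive) (S S' : Finset (Fin (2 * m + 1) → F)) :
    (Fintype.card F : ℂ) ^ (2 * m + 1) * ((TT S S').card : ℂ) =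
      ∑ y : Fin (2 * m + 1) → F, (∑ a : Fin (m + 1) → F, ψ (dp y (sq a))) *
        ((∑ b ∈ S, ψ (dp y (n4 b))) * (∑ d ∈ S', ψ (dp y (-d)))) := by
  have h1 : ∀ y : Fin (2 * m + 1) → F, (∑ a : Fin (m + 1) → F, ψ (dp y (sq a))) *
        ((∑ b ∈ S, ψ (dp y (n4 b))) * (∑ d ∈ S', ψ (dp y (-d)))) =
      ∑ a : Fin (m + 1) → F, ∑ b ∈ S, ∑ d ∈ S', ψ (dp y (sq a + n4 b + -d)) := by
    intro y
    rw [Finset.sum_mul_sum S S', Finset.sum_mul]
    refine Finset.sum_congr rfl fun a _ => ?_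
    rw [Finset.mul_sum]
    refine Finset.sum_congr rfl fun b _ => ?_
    rw [Finset.mul_sum]
    refine Finset.sum_congr rfl fun d _ => ?_
    rw [dp_add, dp_add, AddChar.map_add_eq_mul, AddChar.map_add_eq_mul]
    ring
  rw [Finset.sum_congr rfl fun y _ => h1 y, card_TT, Finset.mul_sum, Finset.sum_comm]
  refine Finset.sum_congr rfl fun a _ => ?_
  rw [Finset.mul_sum, Finset.sum_comm]
  refine Finset.sum_congr rfl fun b _ => ?_
  rw [Finset.mul_sum, Finset.sum_comm]
  refine Finset.sum_congr rfl fun d _ => ?_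
  rw [orth hψ, Fintype.card_fin, mul_ite, mul_one, mul_zero]

/-- **The mixing lemma.** -/
theorem mix (h2 : (2 : F) ≠ 0) (S S' : Finset (Fin (2 * m + 1) → F)) :
    (S.card : ℝ) * S'.card ≤ (Fintype.card F : ℝ) ^ m * (TT S S').card +
      Real.sqrt (Fintype.card F) * (Fintype.card F : ℝ) ^ (4 * m + 1) := by
  obtain ⟨ψ, hψ⟩ : ∃ ψ : AddChar F ℂ, ψ.IsPrimitive :=
    ⟨_, AddChar.FiniteField.primitiveChar_to_Complex_isPrimitive F⟩
  obtain ⟨q, hq⟩ : ∃ q : ℝ, q = (Fintype.card F : ℝ) := ⟨_, rfl⟩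
  have hq0 : 0 < q := by
    rw [hq]
    exact_mod_cast Fintype.card_pos
  obtain ⟨G, hG⟩ : ∃ G : (Fin (2 * m + 1) → F) → ℂ,
    G = fun y => ∑ a : Fin (m + 1) → F, ψ (dp y (sq a)) := ⟨_, rfl⟩
  obtain ⟨H, hH⟩ : ∃ H : (Fin (2 * m + 1) → F) → ℂ,
    H = fun y => ∑ b ∈ S, ψ (dp y (n4 b)) := ⟨_, rfl⟩
  obtain ⟨H', hH'⟩ : ∃ H' : (Fin (2 * m + 1) → F) → ℂ,
    H' = fun y => ∑ d ∈ S', ψ (dp y (-d)) := ⟨_, rfl⟩
  have hid := mix_id hψ S S'
  have hid' : (Fintype.card F : ℂ) ^ (2 * m + 1) * ((TT S S').card : ℂ) =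
      ∑ y, G y * (H y * H' y) := by
    rw [hid, hG, hH, hH']
  have cS : ∀ S : Finset (Fin (2 * m + 1) → F), (S.card : ℝ) ≤ q ^ (2 * m + 1) := by
    intro S
    have h1 := Finset.card_le_univ S
    rw [Fintype.card_fun, Fintype.card_fin] at h1
    rw [hq]
    exact_mod_cast h1
  have pH : ∑ y, ‖H y‖ ^ 2 ≤ q ^ (4 * m + 2) := by
    have h1 := parseval hψ S (n4_inj h2)
    rw [Fintype.card_fin, ← hq] at h1
    rw [hH, h1]
    calc q ^ (2 * m + 1) * (S.card : ℝ) ≤ q ^ (2 * m + 1) * q ^ (2 * m + 1) :=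
          mul_le_mul_of_nonneg_left (cS S) (by positivity)
      _ = q ^ (4 * m + 2) := by rw [← pow_add]; congr 1; ring
  have pH' : ∑ y, ‖H' y‖ ^ 2 ≤ q ^ (4 * m + 2) := by
    have h1 := parseval hψ S' (g := fun d => -d) neg_injective
    rw [Fintype.card_fin, ← hq] at h1
    rw [hH', h1]
    calc q ^ (2 * m + 1) * (S'.card : ℝ) ≤ q ^ (2 * m + 1) * q ^ (2 * m + 1) :=
          mul_le_mul_of_nonneg_left (cS S') (by positivity)
      _ = q ^ (4 * m + 2) := by rw [← pow_add]; congr 1; ring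
  have hHH : ∑ y, ‖H y‖ * ‖H' y‖ ≤ q ^ (4 * m + 2) := by
    have h1 := Finset.sum_mul_sq_le_sq_mul_sq Finset.univ (fun y => ‖H y‖) (fun y => ‖H' y‖)
    have h3 : (∑ y, ‖H y‖ * ‖H' y‖) ^ 2 ≤ (q ^ (4 * m + 2)) ^ 2 := by
      refine h1.trans ?_
      rw [pow_two (q ^ (4 * m + 2))]
      exact mul_le_mul pH pH' (Finset.sum_nonneg fun y _ => by positivity) (by positivity)
    exact le_of_sq_le_sq h3 (by positivity)
  have gB : ∀ y ∈ Finset.univ.erase (0 : Fin (2 * m + 1) → F), ‖G y‖ ≤ Real.sqrt (q ^ (2 * m + 1)) := by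
    intro y hy
    have h1 := gauss hψ h2 (Finset.ne_of_mem_erase hy)
    rw [← hq] at h1
    rw [hG]
    exact Real.le_sqrt_of_sq_le h1
  -- the main term
  have e0 : G 0 * (H 0 * H' 0) = ((q ^ (m + 1) * (S.card * S'.card) : ℝ) : ℂ) := by
    rw [hG, hH, hH']
    simp only [dp_zero, AddChar.map_zero_eq_one, Finset.sum_const, Finset.card_univ,
      Fintype.card_fun, Fintype.card_fin, nsmul_eq_mul, mul_one]
    rw [hq]
    push_cast
    ring
  rw [← Finset.add_sum_erase _ _ (Finset.mem_univ (0 : Fin (2 * m + 1) → F)), e0] at hid'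
  have e1 : ((q ^ (2 * m + 1) * ((TT S S').card : ℝ) - q ^ (m + 1) * (S.card * S'.card) : ℝ) : ℂ) =
      ∑ y ∈ Finset.univ.erase (0 : Fin (2 * m + 1) → F), G y * (H y * H' y) := by
    rw [← sub_eq_iff_eq_add'] at hid'
    rw [← hid', hq]
    push_cast
    ring
  have e2 : |q ^ (2 * m + 1) * ((TT S S').card : ℝ) - q ^ (m + 1) * (S.card * S'.card)| ≤
      Real.sqrt (q ^ (2 * m + 1)) * q ^ (4 * m + 2) := by
    rw [← Real.norm_eq_abs, ← Complex.norm_real, e1]
    refine (norm_sum_le _ _).trans ?_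
    calc ∑ y ∈ Finset.univ.erase (0 : Fin (2 * m + 1) → F), ‖G y * (H y * H' y)‖ ≤
          ∑ y ∈ Finset.univ.erase (0 : Fin (2 * m + 1) → F),
            Real.sqrt (q ^ (2 * m + 1)) * (‖H y‖ * ‖H' y‖) := by
            refine Finset.sum_le_sum fun y hy => ?_
            rw [norm_mul, norm_mul]
            exact mul_le_mul_of_nonneg_right (gB y hy) (by positivity)
      _ ≤ ∑ y, Real.sqrt (q ^ (2 * m + 1)) * (‖H y‖ * ‖H' y‖) :=
            Finset.sum_le_sum_of_subset_of_nonneg (Finset.subset_univ _)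
              (fun y _ _ => by positivity)
      _ = Real.sqrt (q ^ (2 * m + 1)) * ∑ y, ‖H y‖ * ‖H' y‖ := by rw [Finset.mul_sum]
      _ ≤ _ := mul_le_mul_of_nonneg_left hHH (Real.sqrt_nonneg _)
  have e3 : Real.sqrt (q ^ (2 * m + 1)) = q ^ m * Real.sqrt q := by
    rw [pow_succ, Real.sqrt_mul (by positivity), mul_comm 2 m, pow_mul, Real.sqrt_sq (by positivity)]
  rw [e3] at e2
  have e4 := (abs_le.1 e2).1
  rw [← hq]
  have hqp : 0 < q ^ (m + 1) := by positivity
  refine le_of_mul_le_mul_left ?_ hqp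
  have e5 : q ^ (m + 1) * (q ^ m * ((TT S S').card : ℝ) + Real.sqrt q * q ^ (4 * m + 1)) =
      q ^ (2 * m + 1) * ((TT S S').card : ℝ) + q ^ m * Real.sqrt q * q ^ (4 * m + 2) := by
    have a1 : q ^ (2 * m + 1) = q ^ (m + 1) * q ^ m := by rw [← pow_add]; congr 1; ring
    have a2 : q ^ (4 * m + 2) = q * q ^ (4 * m + 1) := by rw [← pow_succ']
    have a3 : q ^ (m + 1) = q * q ^ m := by rw [← pow_succ']
    rw [a1, a2, a3]
    ring
  rw [e5]
  linarith

end mix

end Pool.Agent.K9h16.QT
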