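import Pool.Agent.K9h16.QT.Frm

/-!
The zero classes.
-/

set_option autoImplicit false
set_option linter.all false

open Polynomial IsDedekindDomain WeierstrassCurve WeierstrassCurve.Affine
open scoped Classical Pointwise

namespace Pool.Agent.K9h16.QT

open Pool.Agent.TH115.GD Pool.Agent.K9h16.PT Pool.Agent.R939.EI

section tow

variable {k k' K F : Type} [Field k] [Field k'] [Algebra k k'] [Field K] [Algebra k[X] K]
    [Field F] [Algebra k'[X] F] [IsFractionRing k'[X] F] [Algebra K F]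
    (hT : IsTower k k' K F) {a b : k[X]} (hS : Sd a b)
    {α β : Sep F} (hR : Roots (algebraMap k[X] K a) (algebraMap k[X] K b) (Sep F) α β)

include hT hS hR in
theorem tors_Wc {X : Pt (Wc K a b) (Sep F)} {m : ℕ}
    (hX : ∀ σ : Sep F ≃ₐ[F] Sep F, act (Wc K a b) (rs K σ) X = X) (hm : 2 ^ m • X = 0) :
    X = 0 ∨ X = pt0 hR.E := by
  have hdK : algebraMap K F (algebraMap k[X] K (a ^ 2 - 4 * b)) =
      algebraMap K F ((algebraMap k[X] K a) ^ 2 - 4 * algebraMap k[X] K b) := by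
    rw [map_sub (algebraMap k[X] K), map_mul (algebraMap k[X] K), map_pow (algebraMap k[X] K),
      map_ofNat (algebraMap k[X] K)]
  exact torsF (F := F) hR (fun g => not_sq hT hS.sb hS.db g)
    (fun g => by rw [← hdK]; exact not_sq hT hS.sd hS.dd g) m X hX hm

include hT hS hR in
theorem noFour_Wc : NoFour (Wc K a b) F := by
  intro R hRR
  have h1 := tors_Wc hT hS hR (X := act (Wc K a b) (incl K F (Sep F)) R) (m := 2)
    (fun σ => rs_act_incl _ σ R) (by
      have : 2 ^ 2 • R = (R + R) + (R + R) := by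
        rw [show (2 : ℕ) ^ 2 = 4 by norm_num]
        abel
      rw [← map_nsmul, this, hRR, map_zero])
  apply act_inj (Wc K a b) (incl K F (Sep F))
  rw [map_add, map_zero]
  rcases h1 with h | h
  · rw [h, add_zero]
  · rw [h, pt0_two]

include hT hS hR in
/-- The parity function of a zero class is constant on the roots. -/
theorem pf_nul {c : Cc (Wc K a b) F} (hc : IsTC (Wc K a b) c) (hn : Nul (Wc K a b) c)
    {f : k' → ZMod 2} (hf : PF (Wc K a b) (c 1) f) :
    ∃ κ : ZMod 2, ∀ θ : k', aeval θ b = 0 → f θ = κ := by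
  obtain ⟨R, hR4, e⟩ := hn 1
  have hRR : ∀ σ : Sep F ≃ₐ[F] Sep F, act (Wc K a b) (rs K σ) (R + R) = R + R := by
    intro σ
    have h1 := two_tc hc σ
    rw [e σ, sub_add_sub_comm, ← map_add, sub_eq_zero] at h1
    exact h1
  have hsgn := fun σ => (sign0 hR hRR σ).2
  have hsq := h0_sq hR.E R
  rcases tors_Wc hT hS hR (X := R + R) (m := 1) hRR (by
      rw [pow_one, ← hR4]
      have : (2 : ℕ) ^ (1 + 1) = 4 := by norm_num
      rw [this]
      abel) with h | h
  · refine ⟨0, fun θ _ => ?_⟩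
    have h1 : PF (Wc K a b) (c 1) (fun θ : k' => par (pl θ) (1 : F)) := by
      refine ⟨h0 α β R, 1, h0_ne hR.E R, ?_, fun σ => ?_, fun θ => rfl⟩
      · rw [hsq, h, map_one]
        rfl
      · rw [e σ]
        exact hsgn σ
    rw [pf_unique hf h1]
    exact par_one _
  · refine ⟨1, fun θ hθ => ?_⟩
    have h1 : PF (Wc K a b) (c 1) (fun θ : k' => par (pl θ)
        (algebraMap K F (algebraMap k[X] K b))) := by
      refine ⟨h0 α β R, algebraMap K F (algebraMap k[X] K b), h0_ne hR.E R, ?_, fun σ => ?_,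
        fun θ => rfl⟩
      · rw [hsq, h, hR.d0_eq, ← IsScalarTower.algebraMap_apply K F (Sep F)]
        simp [pt0, dT]
      · rw [e σ]
        exact hsgn σ
    rw [pf_unique hf h1]
    exact mult_one hT hS.sb hθ

include hT hS hR in
/-- The class with the parity function one. -/
theorem exists_nu (H : Subgroup (Sep F ≃ₐ[K] Sep F)) : ∃ ν : Cc (Wc K a b) F,
    PC k' (Wc K a b) H ν ∧ Nul (Wc K a b) ν ∧ ∀ f : k' → ZMod 2, PF (Wc K a b) (ν 1) f →
      ∀ θ : k', aeval θ b = 0 → f θ = 1 := by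
  choose hv hhv using halve_sep hR.E
  obtain ⟨R, hR0, hR2⟩ : ∃ R : ℕ → Pt (Wc K a b) (Sep F), R 0 = pt0 hR.E ∧
      ∀ n, R (n + 1) + R (n + 1) = R n := by
    refine ⟨fun n => Nat.rec (pt0 hR.E) (fun _ X => hv X) n, rfl, fun n => hhv _⟩
  have hpow : ∀ n, 2 ^ n • R n = pt0 hR.E := by
    intro n
    induction n with
    | zero => rw [pow_zero, one_smul, hR0]
    | succ n ih => rw [pow_succ, mul_smul, two_nsmul (R (n + 1)), hR2, ih]
  have hpow' : ∀ n, 2 ^ (n + 1) • R n = 0 := by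
    intro n
    rw [pow_succ', mul_smul, hpow, two_nsmul, pt0_two]
  have hpt : ∀ φ : Sep F →ₐ[K] Sep F, act (Wc K a b) φ (pt0 hR.E) = pt0 hR.E := hR.pt0_act
  have hTM : ∀ τ : Sep F ≃ₐ[K] Sep F, IsTM (Wc K a b)
      (fun n => act (Wc K a b) (ak τ) (R n) - R n) := by
    intro τ
    refine ⟨?_, fun n => ?_⟩
    · show act (Wc K a b) (ak τ) (R 0) - R 0 = 0
      rw [hR0, hpt, sub_self]
    · show 2 • (act (Wc K a b) (ak τ) (R (n + 1)) - R (n + 1)) = _
      rw [smul_sub, ← map_nsmul, two_nsmul, hR2]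
  refine ⟨fun n σ => act (Wc K a b) (rs K σ) (R n) - R n, ⟨⟨fun n => cob_isCoc _ _, fun σ => ?_,
    fun n σ => ?_⟩, fun n => ?_, fun τ _ => ⟨0, _, hTM τ, fun n σ σ' hσ => ?_⟩⟩,
    fun n => ⟨R n, hpow' n, fun σ => rfl⟩, fun f hf θ hθ => ?_⟩
  · show act (Wc K a b) (rs K σ) (R 0) - R 0 = 0
    rw [hR0, hpt, sub_self]
  · show 2 • (act (Wc K a b) (rs K σ) (R (n + 1)) - R (n + 1)) = act (Wc K a b) (rs K σ) (R n) - R n
    rw [smul_sub, ← map_nsmul, two_nsmul, hR2]
  · have h1 : LocallyTrivial k' (Wc K a b) (fun _ : Sep F ≃ₐ[F] Sep F => (0 : Pt (Wc K a b) (Sep F))) :=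
      ⟨fun v => LocTriv.zero _, LocTriv.zero _⟩
    have h3 := lt_subT h1 (-(R n))
    have e : (fun σ : Sep F ≃ₐ[F] Sep F => (0 : Pt (Wc K a b) (Sep F)) -
        (act (Wc K a b) (rs K σ) (-(R n)) - -(R n))) =
        fun σ => act (Wc K a b) (rs K σ) (R n) - R n := by
      funext σ
      rw [map_neg]
      abel
    rw [e] at h3
    exact h3
  · have hcomp : act (Wc K a b) (ak τ) (act (Wc K a b) (rs K σ') (R n)) =
        act (Wc K a b) (rs K σ) (act (Wc K a b) (ak τ) (R n)) := by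
      have h5 : (ak τ).comp (rs K σ') = (rs K σ).comp (ak τ) := AlgHom.ext fun x => hσ x
      rw [act_act, act_act, h5]
    show 2 ^ 0 • (act (Wc K a b) (ak τ) (act (Wc K a b) (rs K σ') (R n) - R n) -
      (act (Wc K a b) (rs K σ) (R n) - R n)) = act (Wc K a b) (rs K σ)
        (act (Wc K a b) (ak τ) (R n) - R n) - (act (Wc K a b) (ak τ) (R n) - R n)
    rw [pow_zero, one_smul, map_sub, hcomp, map_sub]
    abel
  · have hRR : ∀ σ : Sep F ≃ₐ[F] Sep F, act (Wc K a b) (rs K σ) (R 1 + R 1) = R 1 + R 1 := by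
      intro σ
      have h3 : R 1 + R 1 = pt0 hR.E := by rw [← hR0]; exact hR2 0
      rw [h3, hpt]
    have h1 : PF (Wc K a b) (fun σ : Sep F ≃ₐ[F] Sep F => act (Wc K a b) (rs K σ) (R 1) - R 1)
        (fun θ : k' => par (pl θ) (algebraMap K F (algebraMap k[X] K b))) := by
      refine ⟨h0 α β (R 1), algebraMap K F (algebraMap k[X] K b), h0_ne hR.E _, ?_, fun σ =>
        (sign0 hR hRR σ).2, fun θ => rfl⟩
      have h3 : R 1 + R 1 = pt0 hR.E := by rw [← hR0]; exact hR2 0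
      rw [h0_sq hR.E, h3, hR.d0_eq, ← IsScalarTower.algebraMap_apply K F (Sep F)]
      simp [pt0, dT]
    rw [pf_unique hf h1]
    exact mult_one hT hS.sb hθ

end tow

end Pool.Agent.K9h16.QT
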