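import Pool.Agent.K9h16.QT.Push
import Pool.Agent.TH115.SD.Psi
import Pool.Agent.TH115.SD.Resid

/-!
The parity function of a class.
-/

set_option autoImplicit false
set_option linter.all false

open Polynomial IsDedekindDomain WeierstrassCurve WeierstrassCurve.Affine
open scoped Classical Pointwise

namespace Pool.Agent.K9h16.QT

open Pool.Agent.TH115.GD Pool.Agent.K9h16.PT
open Pool.Agent.W309.TD (locConst_apply exists_root compare)

/-- The conditions on the coefficients. -/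
structure Sd {k : Type} [Field k] (a b : k[X]) : Prop where
  h2 : (2 : k) ≠ 0
  sb : b.Separable
  sd : (a ^ 2 - 4 * b).Separable
  cop : IsCoprime b (a ^ 2 - 4 * b)
  db : 0 < b.natDegree
  dd : 0 < (a ^ 2 - 4 * b).natDegree

/-- The curve. -/
noncomputable abbrev Wc {k : Type} [Field k] (K : Type) [Field K] [Algebra k[X] K] (a b : k[X]) :
    WeierstrassCurve K := crvT (algebraMap k[X] K a) (algebraMap k[X] K b)

section pf

variable {K F : Type} [Field K] [Field F] [Algebra K F] {k' : Type} [Field k'] [Algebra k'[X] F]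
  [IsFractionRing k'[X] F]

/-- `f` is the parity function of the cochain `g`. -/
def PF (W : WeierstrassCurve K) (g : (Sep F ≃ₐ[F] Sep F) → Pt W (Sep F)) (f : k' → ZMod 2) : Prop :=
  ∃ (t0 : Sep F) (a0 : F), t0 ≠ 0 ∧ t0 ^ 2 = algebraMap F (Sep F) a0 ∧
    (∀ σ, σ t0 = s0 (g σ) * t0) ∧ ∀ θ, f θ = par (pl θ) a0

theorem a0_ne {t0 : Sep F} {a0 : F} (n0 : t0 ≠ 0) (e0 : t0 ^ 2 = algebraMap F (Sep F) a0) :
    a0 ≠ 0 := by
  rintro rfl
  rw [map_zero] at e0
  exact pow_ne_zero 2 n0 e0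

theorem pf_unique {W : WeierstrassCurve K} {g : (Sep F ≃ₐ[F] Sep F) → Pt W (Sep F)}
    {f f' : k' → ZMod 2} (h : PF W g f) (h' : PF W g f') : f = f' := by
  obtain ⟨t0, a0, n0, e0, k0, p0⟩ := h
  obtain ⟨t1, a1, n1, e1, k1, p1⟩ := h'
  obtain ⟨c, hc, e⟩ := compare (K := F) n0 n1 _ (fun σ => s0_ne (g σ)) k0 k1
  have h3 : a0 = c ^ 2 * a1 := by
    apply (algebraMap F (Sep F)).injective
    rw [← e0, e, map_mul, map_pow, ← e1]
    ring
  funext θ
  rw [p0, p1, h3, par_sq _ hc (a0_ne n1 e1)]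

theorem pf_congr {W : WeierstrassCurve K} {g g' : (Sep F ≃ₐ[F] Sep F) → Pt W (Sep F)}
    {f : k' → ZMod 2} (h : PF W g f) (hs : ∀ σ, g σ = g' σ) : PF W g' f := by
  have : g = g' := funext hs
  rwa [this] at h

variable {a b : K} {α β : Sep F} (hR : Roots a b (Sep F) α β)

include hR

theorem pf_exists (k' : Type) [Field k'] [Algebra k'[X] F] [IsFractionRing k'[X] F]
    {g : (Sep F ≃ₐ[F] Sep F) → Pt (crvT a b) (Sep F)} (hg : IsCoc (crvT a b) g)
    (hg2 : ∀ σ, g σ + g σ = 0) : ∃ f : k' → ZMod 2, PF (crvT a b) g f := by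
  obtain ⟨t0, a0, n0, e0, k0⟩ := kummer0 hR hg hg2
  exact ⟨_, t0, a0, n0, e0, k0, fun θ => rfl⟩

theorem pf_add {g g' : (Sep F ≃ₐ[F] Sep F) → Pt (crvT a b) (Sep F)} {f f' : k' → ZMod 2}
    (h : PF (crvT a b) g f) (h' : PF (crvT a b) g' f') (hg2 : ∀ σ, g σ + g σ = 0)
    (hg2' : ∀ σ, g' σ + g' σ = 0) : PF (crvT a b) (fun σ => g σ + g' σ) (f + f') := by
  obtain ⟨t0, a0, n0, e0, k0, p0⟩ := h
  obtain ⟨t1, a1, n1, e1, k1, p1⟩ := h'
  refine ⟨t0 * t1, a0 * a1, mul_ne_zero n0 n1, by rw [mul_pow, e0, e1, map_mul], fun σ => ?_,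
    fun θ => ?_⟩
  · rw [map_mul, k0, k1, (s_addA hR.E (hg2 σ) (hg2' σ)).1]
    ring
  · rw [Pi.add_apply, p0, p1, par_mul _ (a0_ne n0 e0) (a0_ne n1 e1)]

theorem pf_sub {g g' : (Sep F ≃ₐ[F] Sep F) → Pt (crvT a b) (Sep F)} {f f' : k' → ZMod 2}
    (h : PF (crvT a b) g f) (h' : PF (crvT a b) g' f') (hg2 : ∀ σ, g σ + g σ = 0)
    (hg2' : ∀ σ, g' σ + g' σ = 0) : PF (crvT a b) (fun σ => g σ - g' σ) (f + f') := by
  refine pf_congr (pf_add hR h h' hg2 hg2') (fun σ => ?_)
  rw [sub_eq_add_neg, neg_eq_of_add_eq_zero_left (hg2' σ)]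

theorem pf_zero' : PF (k' := k') (crvT a b) (fun _ : Sep F ≃ₐ[F] Sep F => 0) 0 :=
  ⟨1, 1, one_ne_zero, by rw [one_pow, map_one], fun σ => by
    rw [map_one]
    show (1 : Sep F) = 1 * 1
    rw [one_mul], fun θ => (par_one _).symm⟩

end pf

section tow

variable {k k' K F : Type} [Field k] [Field k'] [Algebra k k'] [Field K] [Algebra k[X] K]
    [Field F] [Algebra k'[X] F] [IsFractionRing k'[X] F] [Algebra K F]
    (hT : IsTower k k' K F) {a b : k[X]} (hS : Sd a b)

include hS in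
theorem Sd.b0 : b ≠ 0 := hS.sb.ne_zero

include hS in
theorem Sd.d0 : a ^ 2 - 4 * b ≠ 0 := hS.sd.ne_zero

theorem two_k' (h2 : (2 : k) ≠ 0) : (2 : k') ≠ 0 := by
  rw [← map_ofNat (algebraMap k k') 2]
  exact (_root_.map_ne_zero _).2 h2

include hT hS in
theorem exists_rts : ∃ α β : Sep F, Roots (algebraMap k[X] K a) (algebraMap k[X] K b) (Sep F) α β := by
  haveI := hT.fracK
  have injK := IsFractionRing.injective k[X] K
  refine exists_roots (tt hS.h2) (fun h => hS.b0 (injK (by rw [h, map_zero]))) (fun h => hS.d0 ?_)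
  apply injK
  rw [map_sub, map_mul, map_pow, map_ofNat, h, map_zero]

include hT in
theorem mult_one {p : k[X]} (hp : p.Separable) {θ : k'} (h : aeval θ p = 0) :
    par (pl θ) (algebraMap K F (algebraMap k[X] K p)) = 1 := by
  haveI := hT.sep
  haveI := hT.fracK
  have h1 : rootMultiplicity θ (p.map (algebraMap k k')) = 1 := by
    have h3 := rootMultiplicity_le_one_of_separable
      (p := p.map (algebraMap k k')) hp.map θ
    have h4 : 0 < rootMultiplicity θ (p.map (algebraMap k k')) := by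
      refine (rootMultiplicity_pos ((Polynomial.map_ne_zero_iff (algebraMap k k').injective).2
        hp.ne_zero)).2 ?_
      rw [IsRoot.def, eval_map_algebraMap]
      exact h
    omega
  rw [par_root hT.map p hp.ne_zero, h1, Nat.cast_one]

include hT in
theorem not_sq {p : k[X]} (hp : p.Separable) (hd : 0 < p.natDegree) (g : F) :
    g ^ 2 ≠ algebraMap K F (algebraMap k[X] K p) := by
  haveI := hT.sep
  haveI := hT.fracK
  haveI : IsSepClosed k' := IsSepClosure.sep_closed k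
  intro hg
  obtain ⟨θ, hθ⟩ := IsSepClosed.exists_root (p.map (algebraMap k k')) (by
    rw [degree_map]
    exact (natDegree_pos_iff_degree_pos.1 hd).ne') hp.map
  have hg0 : g ≠ 0 := by
    rintro rfl
    rw [zero_pow two_ne_zero] at hg
    have : algebraMap K F (algebraMap k[X] K p) ≠ 0 := by simpa using hp.ne_zero
    exact this hg.symm
  have h7 := mult_one hT hp (θ := θ) (by rw [← eval_map_algebraMap]; exact hθ)
  rw [← hg, par_pow_two _ hg0] at h7
  exact absurd h7 (by decide)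

include hT in
theorem splits' {p : k[X]} (hp : p.Separable) : (p.map (algebraMap k k')).Splits := by
  haveI := hT.sep
  haveI : IsSepClosed k' := IsSepClosure.sep_closed k
  exact IsSepClosed.splits_of_separable _ hp.map

variable {α β : Sep F} (hR : Roots (algebraMap k[X] K a) (algebraMap k[X] K b) (Sep F) α β)

include hT hR in
/-- The support of the parity function. -/
theorem pf_supp {g : (Sep F ≃ₐ[F] Sep F) → Pt (Wc K a b) (Sep F)}
    (hg2 : ∀ σ, g σ + g σ = 0) (hl : LocallyTrivial k' (Wc K a b) g) {t0 : Sep F} {a0 : F}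
    (n0 : t0 ≠ 0) (e0 : t0 ^ 2 = algebraMap F (Sep F) a0) (k0 : ∀ σ, σ t0 = s0 (g σ) * t0)
    (v : HeightOneSpectrum k'[X]) (hv : b.map (algebraMap k k') ∉ v.asIdeal) : par v a0 = 0 := by
  rw [par_eq_zero]
  refine gen0 (F := F) (L := Comp k'[X] F v)
        (Valued.v (R := v.adicCompletion F) (Γ₀ := WithZero (Multiplicative ℤ)))
        (v.valuation F) (wFin v) ?_ ?_ (loc0T hR hg2 (hl.1 v) n0 e0 k0)
  · rw [hT.map]
    exact v.valuation_le_one _
  · rw [hT.map, v.valuation_of_algebraMap, HeightOneSpectrum.intValuation_eq_one_iff]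
    exact hv

include hT hR hS in
/-- The form of the generator. -/
theorem pf_rep {g : (Sep F ≃ₐ[F] Sep F) → Pt (Wc K a b) (Sep F)}
    (hg2 : ∀ σ, g σ + g σ = 0) (hl : LocallyTrivial k' (Wc K a b) g) {f : k' → ZMod 2}
    (hf : PF (Wc K a b) g f) :
    ∃ t0 : Sep F, t0 ≠ 0 ∧ t0 ^ 2 = algebraMap F (Sep F) (algebraMap k'[X] F
      (∏ θ ∈ (b.map (algebraMap k k')).roots.toFinset.filter (fun θ => f θ = 1), (X - C θ))) ∧
      ∀ σ, σ t0 = s0 (g σ) * t0 := by
  haveI := hT.sep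
  haveI := hT.fracK
  haveI : IsSepClosed k' := IsSepClosure.sep_closed k
  obtain ⟨t0, a0, n0, e0, k0, p0⟩ := hf
  have hb0 : b.map (algebraMap k k') ≠ 0 :=
    (Polynomial.map_ne_zero_iff (algebraMap k k').injective).2 hS.b0
  obtain ⟨c, hc, e⟩ := rep (two_k' hS.h2) (a0_ne n0 e0) (b.map (algebraMap k k')).roots.toFinset
    (fun v hv => pf_supp hT hR hg2 hl n0 e0 k0 v (fun hmem => by
      obtain ⟨θ, hθ, rfl⟩ := exists_root_of_mem hb0 (splits' hT hS.sb) hmem
      exact hv θ (Multiset.mem_toFinset.2 hθ) rfl))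
  have hc' : algebraMap F (Sep F) c ≠ 0 := (_root_.map_ne_zero _).2 hc
  refine ⟨t0 / algebraMap F (Sep F) c, div_ne_zero n0 hc', ?_, fun σ => ?_⟩
  · rw [div_pow, e0, e, map_mul, map_pow, mul_div_cancel_left₀ _ (pow_ne_zero 2 hc')]
    congr 4
    ext θ
    rw [p0]
  · rw [map_div₀, k0, σ.commutes, mul_div_assoc]

include hT hR hS in
theorem pf_zero {g : (Sep F ≃ₐ[F] Sep F) → Pt (Wc K a b) (Sep F)}
    (hg2 : ∀ σ, g σ + g σ = 0) (hl : LocallyTrivial k' (Wc K a b) g) {f : k' → ZMod 2}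
    (hf : PF (Wc K a b) g f) (h0 : ∀ θ : k', aeval θ b = 0 → f θ = 0)
    (σ : Sep F ≃ₐ[F] Sep F) : g σ = 0 ∨ g σ = pt0 hR.E := by
  obtain ⟨t0, n0, e0, k0⟩ := pf_rep hT hS hR hg2 hl hf
  have hb0 : b.map (algebraMap k k') ≠ 0 :=
    (Polynomial.map_ne_zero_iff (algebraMap k k').injective).2 hS.b0
  have hemp : (b.map (algebraMap k k')).roots.toFinset.filter (fun θ => f θ = 1) = ∅ := by
    rw [Finset.filter_eq_empty_iff]
    intro θ hθ h1
    rw [Multiset.mem_toFinset, mem_roots hb0, IsRoot.def, eval_map_algebraMap] at hθ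
    rw [h0 θ hθ] at h1
    exact zero_ne_one h1
  rw [hemp, Finset.prod_empty, map_one, map_one] at e0
  apply tor_s0 hR.E (hg2 σ)
  have h1 : σ t0 = t0 := by
    rcases sq_eq_sq_iff_eq_or_eq_neg.1 (e0.trans (one_pow 2).symm) with h | h
    · rw [h, map_one]
    · rw [h, map_neg, map_one]
  have h3 := k0 σ
  rw [h1] at h3
  exact mul_right_cancel₀ n0 (by rw [← h3, one_mul])

end tow

end Pool.Agent.K9h16.QT
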