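import Pool.Agent.R939.EI.IsoH
import Pool.Agent.K9h16.PT.Eig
import Pool.Agent.TH115.ID.Main

/-!
Natural homomorphisms between curves, isogenies of degree two, and the classes.
-/

set_option autoImplicit false
set_option linter.all false

open Polynomial IsDedekindDomain WeierstrassCurve WeierstrassCurve.Affine
open scoped Classical Pointwise

namespace Pool.Agent.K9h16.QT

open Pool.Agent.TH115.GD Pool.Agent.K9h16.PT Pool.Agent.R939.EI

/-- Natural homomorphisms. -/
structure NH {K : Type} [Field K] (W W' : WeierstrassCurve K) : Type 1 where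
  f : ∀ (E : Type) [Field E] [Algebra K E], Pt W E →+ Pt W' E
  nat : ∀ (E E' : Type) [Field E] [Field E'] [Algebra K E] [Algebra K E'] (φ : E →ₐ[K] E')
    (P : Pt W E), act W' φ (f E P) = f E' (act W φ P)

section push

variable {K F : Type} [Field K] [Field F] [Algebra K F] {W W' : WeierstrassCurve K} (φ : NH W W')
  (ψ : NH W' W)

/-- The image of a cochain. -/
noncomputable def push (c : Cc W F) : Cc W' F := fun n σ => φ.f (Sep F) (c n σ)

/-- The image of a shifted cochain. -/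
noncomputable def shp (c : Cc W F) : Cc W' F := fun n σ => φ.f (Sep F) (c (n + 1) σ)

theorem coc_push {f : (Sep F ≃ₐ[F] Sep F) → Pt W (Sep F)} (hf : IsCoc W f) :
    IsCoc W' (fun σ => φ.f (Sep F) (f σ)) := by
  refine ⟨hf.lc.comp _, fun σ τ => ?_⟩
  rw [hf.mul, map_add, φ.nat]

theorem tc_push {c : Cc W F} (hc : IsTC W c) : IsTC W' (push φ c) := by
  refine ⟨fun n => coc_push φ (hc.coc n), fun σ => ?_, fun n σ => ?_⟩
  · show φ.f (Sep F) (c 0 σ) = 0
    rw [hc.zero, map_zero]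
  · show 2 • φ.f (Sep F) (c (n + 1) σ) = φ.f (Sep F) (c n σ)
    rw [← map_nsmul, hc.two]

theorem tc_shp {c : Cc W F} (hc : IsTC W c) (h1 : ∀ σ, φ.f (Sep F) (c 1 σ) = 0) :
    IsTC W' (shp φ c) := by
  refine ⟨fun n => coc_push φ (hc.coc (n + 1)), fun σ => h1 σ, fun n σ => ?_⟩
  show 2 • φ.f (Sep F) (c (n + 1 + 1) σ) = φ.f (Sep F) (c (n + 1) σ)
  rw [← map_nsmul, hc.two]

theorem tm_push {Q : ℕ → Pt W (Sep F)} (hQ : IsTM W Q) :
    IsTM W' (fun n => φ.f (Sep F) (Q n)) := by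
  refine ⟨?_, fun n => ?_⟩
  · show φ.f (Sep F) (Q 0) = 0
    rw [hQ.zero, map_zero]
  · show 2 • φ.f (Sep F) (Q (n + 1)) = φ.f (Sep F) (Q n)
    rw [← map_nsmul, hQ.two]

theorem loc_push {L : Type} [Field L] [Algebra F L] [Algebra K L] [IsScalarTower K F L]
    {f : (Sep F ≃ₐ[F] Sep F) → Pt W (Sep F)} (hf : LocTriv W L (Sep L) f) :
    LocTriv W' L (Sep L) (fun σ => φ.f (Sep F) (f σ)) := by
  obtain ⟨ι, P, hP⟩ := hf
  refine ⟨ι, φ.f (Sep L) P, fun τ σ hτ => ?_⟩
  rw [φ.nat, φ.nat, ← map_sub]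
  exact congrArg _ (hP τ σ hτ)

theorem nul_push {c : Cc W F} (hc : Nul W c) : Nul W' (push φ c) := by
  intro n
  obtain ⟨R, hR, e⟩ := hc n
  refine ⟨φ.f (Sep F) R, by rw [← map_nsmul, hR, map_zero], fun σ => ?_⟩
  show φ.f (Sep F) (c n σ) = _
  rw [e, map_sub, φ.nat]

theorem push_add (c c' : Cc W F) : push φ (c + c') = push φ c + push φ c' := by
  funext n σ
  exact map_add _ _ _

theorem push_sub (c c' : Cc W F) : push φ (c - c') = push φ c - push φ c' := by
  funext n σ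
  exact map_sub _ _ _

theorem push_TA (hN : Preserves K F (Sep F)) (τ : Sep F ≃ₐ[K] Sep F) (c : Cc W F) :
    TA hN τ (push φ c) = push φ (TA hN τ c) := by
  funext n σ
  exact φ.nat _ _ _ _

theorem shp_TA (hN : Preserves K F (Sep F)) (τ : Sep F ≃ₐ[K] Sep F) (c : Cc W F) :
    TA hN τ (shp φ c) = shp φ (TA hN τ c) := by
  funext n σ
  exact φ.nat _ _ _ _

theorem push_shp (h2 : ∀ P : Pt W (Sep F), ψ.f (Sep F) (φ.f (Sep F) P) = P + P) {c : Cc W F}
    (hc : IsTC W c) : push ψ (shp φ c) = c := by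
  funext n σ
  show ψ.f (Sep F) (φ.f (Sep F) (c (n + 1) σ)) = c n σ
  rw [h2, ← two_nsmul, hc.two]

theorem push_push (h2 : ∀ P : Pt W (Sep F), ψ.f (Sep F) (φ.f (Sep F) P) = P + P) (c : Cc W F) :
    push ψ (push φ c) = c + c := by
  funext n σ
  exact h2 _

variable {k' : Type} [Field k'] [Algebra k'[X] F] [IsFractionRing k'[X] F]
  {H : Subgroup (Sep F ≃ₐ[K] Sep F)}

theorem lt_push {f : (Sep F ≃ₐ[F] Sep F) → Pt W (Sep F)}
    (hf : LocallyTrivial k' W f) :
    LocallyTrivial k' W' (fun σ => φ.f (Sep F) (f σ)) :=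
  ⟨fun v => loc_push φ (hf.1 v), loc_push φ hf.2⟩

theorem pc_push {c : Cc W F} (hc : PC k' W H c) : PC k' W' H (push φ c) := by
  refine ⟨tc_push φ hc.tc, fun n => lt_push φ (hc.loc n), fun τ hτ => ?_⟩
  obtain ⟨m, Q, hQ, e⟩ := hc.inv τ hτ
  refine ⟨m, fun n => φ.f (Sep F) (Q n), tm_push φ hQ, fun n σ σ' hσ => ?_⟩
  show 2 ^ m • (act W' (ak τ) (φ.f (Sep F) (c n σ')) - φ.f (Sep F) (c n σ)) = _
  rw [φ.nat, ← map_sub, ← map_nsmul, e n σ σ' hσ, map_sub, φ.nat]

theorem pc_shp {c : Cc W F} (hc : PC k' W H c) (h1 : ∀ σ, φ.f (Sep F) (c 1 σ) = 0) :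
    PC k' W' H (shp φ c) := by
  refine ⟨tc_shp φ hc.tc h1, fun n => lt_push φ (hc.loc (n + 1)), fun τ hτ => ?_⟩
  obtain ⟨m, Q, hQ, e⟩ := hc.inv τ hτ
  refine ⟨m + 1, fun n => φ.f (Sep F) (Q n), tm_push φ hQ, fun n σ σ' hσ => ?_⟩
  show 2 ^ (m + 1) • (act W' (ak τ) (φ.f (Sep F) (c (n + 1) σ')) - φ.f (Sep F) (c (n + 1) σ)) = _
  rw [φ.nat, ← map_sub, ← map_nsmul, pow_succ, mul_smul, smul_sub 2, ← map_nsmul (act W (ak τ)),
    hc.tc.two, hc.tc.two, e n σ σ' hσ, map_sub, φ.nat]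

end push

section iso

variable {K : Type} [Field K] [NeZero (2 : K)] {a b a' b' u : K}

/-- The isogeny of degree two. -/
noncomputable def isoN (h : Dat a b a' b' u) : NH (crvT a b) (crvT a' b') where
  f E _ _ := isoH E h
  nat E E' _ _ _ _ φ P := isoH_act E h φ P

theorem isoH_some (E : Type) [Field E] [Algebra K E] (h : Dat a b a' b' u) {x y : E}
    (hxy : ((crvT a b).baseChange E).toAffine.Nonsingular x y) (hx : x ≠ 0) :
    ∃ h', isoH E h (Point.some x y hxy) = Point.some (y ^ 2 / (algebraMap K E u ^ 2 * x ^ 2))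
      (y * (algebraMap K E b - x ^ 2) / (algebraMap K E u ^ 3 * x ^ 2)) h' := by
  have : NeZero (2 : E) := nz K E
  exact isoW_some (bc a b E) (bc a' b' E) (h.base E) hxy hx

variable {Ω : Type} [Field Ω] [Algebra K Ω] {α β : Ω} (hR : Roots a b Ω α β)
  (h : Dat a b a' b' u)

include hR in
theorem iso_ker {P : Pt (crvT a b) Ω} : isoH Ω h P = 0 ↔ P = 0 ∨ P = pt0 hR.E := by
  rcases P with _ | ⟨x, y, hxy⟩
  · exact ⟨fun _ => Or.inl rfl, fun _ => map_zero (isoH Ω h)⟩
  · by_cases hx : x = 0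
    · have hy : y = 0 := by
        have h3 := crvT_eq hxy
        rw [hx, zero_mul] at h3
        exact pow_eq_zero_iff (two_ne_zero) |>.1 h3
      refine ⟨fun _ => Or.inr ?_, fun _ => isoH_zero Ω h hxy hx⟩
      subst hx hy
      rfl
    · obtain ⟨h', e⟩ := isoH_some Ω h hxy hx
      rw [e]
      constructor
      · intro h0
        exact absurd h0 (Point.some_ne_zero _)
      · rintro (h0 | h0)
        · exact absurd h0 (Point.some_ne_zero _)
        · exact absurd (Point.some.inj h0).1 hx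

include hR in
/-- The sign of the image. -/
theorem iso_s0 {P : Pt (crvT a b) Ω} (hP : P + P = 0 ∨ P + P = pt0 hR.E) :
    s0 (isoH Ω h P) = s1 α (P + P) := by
  rcases P with _ | ⟨x, y, hxy⟩
  · have e1 : isoH Ω h (Point.zero : Pt (crvT a b) Ω) = 0 := map_zero (isoH Ω h)
    have e2 : (Point.zero : Pt (crvT a b) Ω) + Point.zero = 0 := add_zero _
    rw [e1, e2]
    rfl
  · by_cases hy : y = 0
    · have e2 : (Point.some x y hxy : Pt (crvT a b) Ω) + Point.some x y hxy = 0 :=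
        (add_self_eq_zero_iff hR.E hxy).2 hy
      rw [e2]
      by_cases hx : x = 0
      · rw [isoH_zero Ω h hxy hx]
        rfl
      · obtain ⟨h', e⟩ := isoH_some Ω h hxy hx
        rw [e]
        simp only [s0, hy, s1_zero]
        rw [if_pos (by ring)]
    · have e2 : (Point.some x y hxy : Pt (crvT a b) Ω) + Point.some x y hxy = pt0 hR.E := by
        rcases hP with h0 | h0
        · exact absurd ((add_self_eq_zero_iff hR.E hxy).1 h0) hy
        · exact h0
      rw [e2, s1_pt0]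
      have hx : x ≠ 0 := by
        intro hx
        have h3 := crvT_eq hxy
        rw [hx, zero_mul] at h3
        exact hy (pow_eq_zero_iff (two_ne_zero) |>.1 h3)
      obtain ⟨h', e⟩ := isoH_some Ω h hxy hx
      rw [e]
      have hu : algebraMap K Ω u ≠ 0 := (_root_.map_ne_zero _).2 h.hu
      simp only [s0]
      rw [if_neg (div_ne_zero (pow_ne_zero 2 hy) (mul_ne_zero (pow_ne_zero 2 hu)
        (pow_ne_zero 2 hx)))]

end iso

end Pool.Agent.K9h16.QT
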