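import Pool.Agent.K9h16.PT.TrC
import Pool.Agent.K9h16.PT.Tow
import Pool.Agent.TH115.ID.Basic

/-!
Isomorphisms `(x, y) ↦ (ρ² x, ρ³ y)` between the curves `y² = x (x² + a x + b)` over different subfields
of `F`, and the classes.
-/

set_option autoImplicit false
set_option linter.all false

open Polynomial IsDedekindDomain WeierstrassCurve WeierstrassCurve.Affine
open scoped Classical Pointwise

namespace Pool.Agent.K9h16.QT

open Pool.Agent.TH115.GD Pool.Agent.K9h16.PT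

section one

variable {K K' F : Type} [Field K] [Field K'] [Field F] [Algebra K F] [Algebra K' F]

/-- `α' = ρ² α`, `β' = ρ⁴ β` in `F`. -/
structure IsTrT (α β : K) (α' β' : K') (ρ : F) : Prop where
  ne : ρ ≠ 0
  ha : algebraMap K' F α' = ρ ^ 2 * algebraMap K F α
  hb : algebraMap K' F β' = ρ ^ 4 * algebraMap K F β

theorem IsTrT.symm {α β : K} {α' β' : K'} {ρ : F} (h : IsTrT α β α' β' ρ) :
    IsTrT α' β' α β ρ⁻¹ := by
  have := h.ne
  refine ⟨inv_ne_zero h.ne, ?_, ?_⟩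
  · rw [h.ha]; field_simp
  · rw [h.hb]; field_simp

variable {α β : K} {α' β' : K'} {ρ : F} (h : IsTrT α β α' β' ρ)
  (E : Type) [Field E] [Algebra F E] [Algebra K E] [IsScalarTower K F E] [Algebra K' E]
  [IsScalarTower K' F E]

include h in
theorem IsTrT.scaled : Scaled ((crvT α β).baseChange E).toAffine ((crvT α' β').baseChange E).toAffine
    (algebraMap F E ρ) := by
  have e1 : algebraMap K' E α' = algebraMap F E ρ ^ 2 * algebraMap K E α := by
    rw [IsScalarTower.algebraMap_apply K' F E, h.ha, map_mul, map_pow,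
      ← IsScalarTower.algebraMap_apply]
  have e2 : algebraMap K' E β' = algebraMap F E ρ ^ 4 * algebraMap K E β := by
    rw [IsScalarTower.algebraMap_apply K' F E, h.hb, map_mul, map_pow,
      ← IsScalarTower.algebraMap_apply]
  refine ⟨(_root_.map_ne_zero _).2 h.ne, ?_, ?_, ?_, ?_, ?_⟩
  · show algebraMap K' E 0 = _ * algebraMap K E 0
    rw [map_zero, map_zero, mul_zero]
  · show algebraMap K' E α' = _ * algebraMap K E α
    rw [e1]
  · show algebraMap K' E 0 = _ * algebraMap K E 0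
    rw [map_zero, map_zero, mul_zero]
  · show algebraMap K' E β' = _ * algebraMap K E β
    rw [e2]
  · show algebraMap K' E 0 = _ * algebraMap K E 0
    rw [map_zero, map_zero, mul_zero]

/-- The isomorphism on the points. -/
def PhiT : Pt (crvT α β) E →+ Pt (crvT α' β') E := scaleHom (h.scaled E)

theorem PhiT_some {x y : E} (hn : ((crvT α β).baseChange E).toAffine.Nonsingular x y) :
    ∃ hn', PhiT h E (Point.some x y hn) =
      Point.some (algebraMap F E ρ ^ 2 * x) (algebraMap F E ρ ^ 3 * y) hn' := ⟨_, rfl⟩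

theorem PhiT_symm (P : Pt (crvT α' β') E) : PhiT h E (PhiT h.symm E P) = P := by
  rcases P with _ | ⟨x, y, hn⟩
  · exact (map_zero (PhiT h E))
  · obtain ⟨hn1, e1⟩ := PhiT_some h.symm E hn
    rw [e1]
    obtain ⟨hn2, e2⟩ := PhiT_some h E hn1
    rw [e2]
    have hρ : algebraMap F E ρ ≠ 0 := (_root_.map_ne_zero _).2 h.ne
    apply some_congr
    · rw [map_inv₀]; field_simp
    · rw [map_inv₀]; field_simp

theorem PhiT_symm' (P : Pt (crvT α β) E) : PhiT h.symm E (PhiT h E P) = P := by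
  rcases P with _ | ⟨x, y, hn⟩
  · exact (map_zero (PhiT h.symm E))
  · obtain ⟨hn1, e1⟩ := PhiT_some h E hn
    rw [e1]
    obtain ⟨hn2, e2⟩ := PhiT_some h.symm E hn1
    rw [e2]
    have hρ : algebraMap F E ρ ≠ 0 := (_root_.map_ne_zero _).2 h.ne
    apply some_congr
    · rw [map_inv₀]; field_simp
    · rw [map_inv₀]; field_simp

variable {E} {E' : Type} [Field E'] [Algebra F E'] [Algebra K E'] [IsScalarTower K F E']
  [Algebra K' E'] [IsScalarTower K' F E']

theorem PhiT_act (φ : E →ₐ[F] E') (P : Pt (crvT α β) E) :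
    act (crvT α' β') (φ.restrictScalars K') (PhiT h E P) =
      PhiT h E' (act (crvT α β) (φ.restrictScalars K) P) := by
  rcases P with _ | ⟨x, y, hn⟩
  · exact (map_zero (act (crvT α' β') (φ.restrictScalars K'))).trans
      (map_zero (PhiT h E')).symm
  · obtain ⟨hn1, e1⟩ := PhiT_some h E hn
    obtain ⟨hn2, e2⟩ := act_some (crvT α β) (φ.restrictScalars K) hn
    obtain ⟨hn3, e3⟩ := act_some (crvT α' β') (φ.restrictScalars K') hn1
    obtain ⟨hn4, e4⟩ := PhiT_some h E' hn2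
    rw [e1, e2, e3, e4]
    apply some_congr
    · show φ (algebraMap F E ρ ^ 2 * x) = algebraMap F E' ρ ^ 2 * φ x
      rw [map_mul, map_pow, φ.commutes]
    · show φ (algebraMap F E ρ ^ 3 * y) = algebraMap F E' ρ ^ 3 * φ y
      rw [map_mul, map_pow, φ.commutes]

/-- Semilinear automorphisms. -/
theorem PhiT_semi (τ : E ≃ₐ[K] E) (τ' : E ≃ₐ[K'] E) (hττ : ∀ x, τ x = τ' x) {ε : ℤˣ}
    (hρ : τ (algebraMap F E ρ) = ((ε : ℤ) : E) * algebraMap F E ρ) (P : Pt (crvT α β) E) :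
    act (crvT α' β') (ak τ') (PhiT h E P) = (ε : ℤ) • PhiT h E (act (crvT α β) (ak τ) P) := by
  rcases P with _ | ⟨x, y, hn⟩
  · have e1 : (PhiT h E) (Point.zero : Pt (crvT α β) E) = 0 := map_zero _
    have e2 : act (crvT α β) (ak τ) (Point.zero : Pt (crvT α β) E) = 0 := map_zero _
    rw [e1, e2, map_zero, map_zero, smul_zero]
  · obtain ⟨hn1, e1⟩ := PhiT_some h E hn
    obtain ⟨hn2, e2⟩ := act_some (crvT α β) (ak τ) hn
    obtain ⟨hn3, e3⟩ := act_some (crvT α' β') (ak τ') hn1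
    obtain ⟨hn4, e4⟩ := PhiT_some h E hn2
    rw [e1, e2, e3, e4]
    rcases Int.units_eq_one_or ε with rfl | rfl
    · rw [Units.val_one, one_smul]
      rw [Units.val_one, Int.cast_one, one_mul] at hρ
      apply some_congr
      · show τ' (algebraMap F E ρ ^ 2 * x) = algebraMap F E ρ ^ 2 * τ x
        rw [← hττ, map_mul, map_pow, hρ]
      · show τ' (algebraMap F E ρ ^ 3 * y) = algebraMap F E ρ ^ 3 * τ y
        rw [← hττ, map_mul, map_pow, hρ]
    · rw [Units.val_neg, Units.val_one, neg_smul, one_smul, Point.neg_some]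
      rw [Units.val_neg, Units.val_one, Int.cast_neg, Int.cast_one, neg_one_mul] at hρ
      apply some_congr
      · show τ' (algebraMap F E ρ ^ 2 * x) = algebraMap F E ρ ^ 2 * τ x
        rw [← hττ, map_mul, map_pow, hρ, neg_sq]
      · show τ' (algebraMap F E ρ ^ 3 * y) = -(algebraMap F E ρ ^ 3 * τ y) -
          algebraMap K' E 0 * (algebraMap F E ρ ^ 2 * τ x) - algebraMap K' E 0
        rw [← hττ, map_mul, map_pow, hρ, map_zero]
        ring

end one

section two

variable {K K' F : Type} [Field K] [Field K'] [Field F] [Algebra K F] [Algebra K' F]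
  {α β : K} {α' β' : K'} {ρ : F} (h : IsTrT α β α' β' ρ)

/-- The transport of cochains. -/
noncomputable def trCT (c : Cc (crvT α β) F) : Cc (crvT α' β') F := fun n σ => PhiT h (Sep F) (c n σ)

theorem PhiT_rs (σ : Sep F ≃ₐ[F] Sep F) (P : Pt (crvT α β) (Sep F)) :
    act (crvT α' β') (rs K' σ) (PhiT h (Sep F) P) = PhiT h (Sep F) (act (crvT α β) (rs K σ) P) :=
  PhiT_act h σ.toAlgHom P

theorem coc_tr {f : (Sep F ≃ₐ[F] Sep F) → Pt (crvT α β) (Sep F)} (hf : IsCoc (crvT α β) f) :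
    IsCoc (crvT α' β') (fun σ => PhiT h (Sep F) (f σ)) := by
  refine ⟨hf.lc.comp _, fun σ τ => ?_⟩
  rw [hf.mul, map_add, PhiT_rs]

theorem tc_tr {c : Cc (crvT α β) F} (hc : IsTC (crvT α β) c) : IsTC (crvT α' β') (trCT h c) := by
  refine ⟨fun n => coc_tr h (hc.coc n), fun σ => ?_, fun n σ => ?_⟩
  · show PhiT h (Sep F) (c 0 σ) = 0
    rw [hc.zero, map_zero]
  · show 2 • PhiT h (Sep F) (c (n + 1) σ) = PhiT h (Sep F) (c n σ)
    rw [← map_nsmul, hc.two]

theorem tm_tr {Q : ℕ → Pt (crvT α β) (Sep F)} (hQ : IsTM (crvT α β) Q) :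
    IsTM (crvT α' β') (fun n => PhiT h (Sep F) (Q n)) := by
  refine ⟨?_, fun n => ?_⟩
  · show PhiT h (Sep F) (Q 0) = 0
    rw [hQ.zero, map_zero]
  · show 2 • PhiT h (Sep F) (Q (n + 1)) = PhiT h (Sep F) (Q n)
    rw [← map_nsmul, hQ.two]

theorem loc_tr {L : Type} [Field L] [Algebra F L] [Algebra K L] [IsScalarTower K F L]
    [Algebra K' L] [IsScalarTower K' F L]
    {f : (Sep F ≃ₐ[F] Sep F) → Pt (crvT α β) (Sep F)} (hf : LocTriv (crvT α β) L (Sep L) f) :
    LocTriv (crvT α' β') L (Sep L) (fun σ => PhiT h (Sep F) (f σ)) := by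
  obtain ⟨ι, P, hP⟩ := hf
  refine ⟨ι, PhiT h (Sep L) P, fun τ σ hτ => ?_⟩
  rw [PhiT_act h ι]
  have h1 : act (crvT α' β') (rs K' τ) (PhiT h (Sep L) P) =
      PhiT h (Sep L) (act (crvT α β) (rs K τ) P) := PhiT_act h (τ.toAlgHom.restrictScalars F) P
  rw [h1, ← map_sub]
  exact congrArg _ (hP τ σ hτ)

theorem nul_tr {c : Cc (crvT α β) F} (hc : Nul (crvT α β) c) : Nul (crvT α' β') (trCT h c) := by
  intro n
  obtain ⟨R, hR, e⟩ := hc n
  refine ⟨PhiT h (Sep F) R, by rw [← map_nsmul, hR, map_zero], fun σ => ?_⟩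
  show PhiT h (Sep F) (c n σ) = _
  rw [e, map_sub, PhiT_rs]

theorem tr_symm (c : Cc (crvT α' β') F) : trCT h (trCT h.symm c) = c := by
  funext n σ
  exact PhiT_symm h (Sep F) (c n σ)

variable {k' : Type} [Field k'] [Algebra k'[X] F] [IsFractionRing k'[X] F]

theorem lt_tr {f : (Sep F ≃ₐ[F] Sep F) → Pt (crvT α β) (Sep F)}
    (hf : LocallyTrivial k' (crvT α β) f) :
    LocallyTrivial k' (crvT α' β') (fun σ => PhiT h (Sep F) (f σ)) :=
  ⟨fun v => loc_tr h (hf.1 v), loc_tr h hf.2⟩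

/-- The transport of classes which are fixed by a subgroup. -/
theorem pc_tr {H : Subgroup (Sep F ≃ₐ[K] Sep F)} {H' : Subgroup (Sep F ≃ₐ[K'] Sep F)}
    (hH : ∀ τ' ∈ H', ∃ τ ∈ H, (∀ x, τ x = τ' x) ∧
      τ (algebraMap F (Sep F) ρ) = algebraMap F (Sep F) ρ) {c : Cc (crvT α β) F}
    (hc : PC k' (crvT α β) H c) : PC k' (crvT α' β') H' (trCT h c) := by
  refine ⟨tc_tr h hc.tc, fun n => lt_tr h (hc.loc n), fun τ' hτ' => ?_⟩
  obtain ⟨τ, hτ, hττ, hρ⟩ := hH τ' hτ'
  obtain ⟨m, Q, hQ, e⟩ := hc.inv τ hτ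
  refine ⟨m, fun n => PhiT h (Sep F) (Q n), tm_tr h hQ, fun n σ σ' hσ => ?_⟩
  have h1 := e n σ σ' (fun x => by rw [hττ, hττ]; exact hσ x)
  have h2 := PhiT_semi h τ τ' hττ (ε := 1) (by
    rw [Units.val_one, Int.cast_one, one_mul]
    exact hρ) (c n σ')
  rw [Units.val_one, one_smul] at h2
  show 2 ^ m • (act (crvT α' β') (ak τ') (PhiT h (Sep F) (c n σ')) - PhiT h (Sep F) (c n σ)) = _
  rw [h2, ← map_sub, ← map_nsmul, h1, map_sub, PhiT_rs]

theorem nul_tr' {c : Cc (crvT α β) F} (hc : Nul (crvT α' β') (trCT h c)) : Nul (crvT α β) c := by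
  have h1 := nul_tr h.symm hc
  have h3 : trCT h.symm (trCT h c) = c := by
    funext n σ
    exact PhiT_symm' h (Sep F) (c n σ)
  rwa [h3] at h1

end two

end Pool.Agent.K9h16.QT
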