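import Pool.Agent.K9h16.QT.Nu

/-!
The square of an automorphism which fixes the roots, modulo two.
-/

set_option autoImplicit false
set_option linter.all false

open Polynomial IsDedekindDomain WeierstrassCurve WeierstrassCurve.Affine
open scoped Classical Pointwise

namespace Pool.Agent.K9h16.QT

open Pool.Agent.TH115.GD Pool.Agent.K9h16.PT Pool.Agent.R939.EI

theorem Sd.dual {k : Type} [Field k] {a b : k[X]} (hS : Sd a b) :
    Sd (-2 * a) (a ^ 2 - 4 * b) := by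
  have h2 := hS.h2
  have h16 : ((-2 * a) ^ 2 - 4 * (a ^ 2 - 4 * b) : k[X]) = C 16 * b := by
    have : (C 16 : k[X]) = 16 := map_ofNat C 16
    rw [this]
    ring
  have h16' : (16 : k) ≠ 0 := by
    have : (16 : k) = 2 ^ 4 := by norm_num
    rw [this]
    exact pow_ne_zero 4 h2
  have hu : IsUnit (C (16 : k)) := isUnit_C.2 (isUnit_iff_ne_zero.2 h16')
  refine ⟨h2, hS.sd, ?_, ?_, hS.dd, ?_⟩
  · rw [h16]
    exact Separable.unit_mul hu hS.sb
  · rw [h16]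
    exact (isCoprime_mul_unit_left_right hu _ _).2 hS.cop.symm
  · rw [h16, natDegree_C_mul h16']
    exact hS.db

theorem root_dual {k k' : Type} [Field k] [Field k'] [Algebra k k'] {a b : k[X]}
    (h2 : (2 : k) ≠ 0) {θ : k'} :
    aeval θ ((-2 * a) ^ 2 - 4 * (a ^ 2 - 4 * b)) = 0 ↔ aeval θ b = 0 := by
  have h16 : ((-2 * a) ^ 2 - 4 * (a ^ 2 - 4 * b) : k[X]) = C 16 * b := by
    have : (C 16 : k[X]) = 16 := map_ofNat C 16
    rw [this]
    ring
  have h16' : (16 : k) ≠ 0 := by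
    have : (16 : k) = 2 ^ 4 := by norm_num
    rw [this]
    exact pow_ne_zero 4 h2
  rw [h16, map_mul, aeval_C, mul_eq_zero]
  constructor
  · rintro (h | h)
    · exact absurd ((map_eq_zero _).1 h) h16'
    · exact h
  · exact fun h => Or.inr h

section tow

variable {k k' K F : Type} [Field k] [Field k'] [Algebra k k'] [Field K] [Algebra k[X] K]
    [Field F] [Algebra k'[X] F] [IsFractionRing k'[X] F] [Algebra K F]
    (hT : IsTower k k' K F) {a b : k[X]} (hS : Sd a b)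
    {α β : Sep F} (hR : Roots (algebraMap k[X] K a) (algebraMap k[X] K b) (Sep F) α β)
    {α' β' : Sep F} (hR' : Roots (algebraMap k[X] K (-2 * a)) (algebraMap k[X] K (a ^ 2 - 4 * b))
      (Sep F) α' β')
  (hN : Preserves K F (Sep F)) {H : Subgroup (Sep F ≃ₐ[K] Sep F)} (hH : H.Normal)

include hT hS hR hR' hN hH in
/-- **The square.** -/
theorem zlm [NeZero (2 : K)] {c : Cc (Wc K a b) F} (hc : PC k' (Wc K a b) H c)
    {s : k' ≃ₐ[k] k'} {τ : Sep F ≃ₐ[K] Sep F} (hs : Lifts s τ) (hτ : τ α = α) (hτ' : τ α' = α')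
    (hsb : ∀ θ : k', aeval θ b = 0 → s θ = θ) (hsd : ∀ θ : k', aeval θ (a ^ 2 - 4 * b) = 0 → s θ = θ)
    {f : k' → ZMod 2} (hf : PF (Wc K a b) (c 1) f) :
    ∃ z : Cc (Wc K a b) F, PC k' (Wc K a b) H z ∧ TA hN τ (TA hN τ c) - c = z + z ∧
      ∀ g : k' → ZMod 2, PF (Wc K a b) (z 1) g → ∃ (f' : k' → ZMod 2) (κ κ' : ZMod 2),
        (∀ θ : k', aeval θ (a ^ 2 - 4 * b) = 0 →
          f' θ = ∑ η ∈ (RB k' b).filter (fun η => f η = 1), sg s (θ - η) + κ) ∧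
        (∀ θ : k', aeval θ b = 0 →
          g θ = ∑ η ∈ (RB k' (a ^ 2 - 4 * b)).filter (fun η => f' η = 1), sg s (θ - η) + κ') := by
  haveI := hT.sep
  haveI := hT.fracK
  have hS' := hS.dual
  have D1 := dat1 (K := K) hS
  have D2 := dat2 (K := K) hS
  obtain ⟨φ, hφ⟩ : ∃ φ : NH (Wc K a b) (Wc K (-2 * a) (a ^ 2 - 4 * b)), φ = isoN D1 := ⟨_, rfl⟩
  obtain ⟨ψ, hψ⟩ : ∃ ψ : NH (Wc K (-2 * a) (a ^ 2 - 4 * b)) (Wc K a b), ψ = isoN D2 := ⟨_, rfl⟩
  have h12 : ∀ P : Pt (Wc K a b) (Sep F), ψ.f (Sep F) (φ.f (Sep F) P) = P + P := by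
    intro P
    rw [hφ, hψ]
    exact isoH_dbl (Sep F) D1 D2 (one_mul 2) P
  have h21 : ∀ P : Pt (Wc K (-2 * a) (a ^ 2 - 4 * b)) (Sep F),
      φ.f (Sep F) (ψ.f (Sep F) P) = P + P := by
    intro P
    rw [hφ, hψ]
    exact isoH_dbl (Sep F) D2 D1 (mul_one 2) P
  -- the first difference
  obtain ⟨e, he⟩ : ∃ e, e = TA hN τ c - c := ⟨_, rfl⟩
  have hPe : PC k' (Wc K a b) H e := by rw [he]; exact pc_diff hT hN hH hc τ
  have hone : ∀ σ, e 1 σ = 0 ∨ e 1 σ = pt0 hR.E := fun σ => by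
    rw [he]; exact diff_one hT hS hR hN hH hc hs hsb σ
  have hk1 : ∀ σ, φ.f (Sep F) (e 1 σ) = 0 := fun σ => by
    rw [hφ]
    exact (iso_ker hR D1).2 (hone σ)
  obtain ⟨e', he'⟩ : ∃ e', e' = shp φ e := ⟨_, rfl⟩
  have hPe' : PC k' _ H e' := by rw [he']; exact pc_shp φ hPe hk1
  -- the second difference
  obtain ⟨d', hd'⟩ : ∃ d', d' = TA hN τ e' - e' := ⟨_, rfl⟩
  have hPd' : PC k' _ H d' := by rw [hd']; exact pc_diff hT hN hH hPe' τ
  have hone' : ∀ σ, d' 1 σ = 0 ∨ d' 1 σ = pt0 hR'.E := fun σ => by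
    rw [hd']; exact diff_one hT hS' hR' hN hH hPe' hs hsd σ
  have hk2 : ∀ σ, ψ.f (Sep F) (d' 1 σ) = 0 := fun σ => by
    rw [hψ]
    exact (iso_ker hR' D2).2 (hone' σ)
  obtain ⟨z0, hz0⟩ : ∃ z0, z0 = shp ψ d' := ⟨_, rfl⟩
  have hPz0 : PC k' (Wc K a b) H z0 := by rw [hz0]; exact pc_shp ψ hPd' hk2
  have hz0e : z0 + z0 = TA hN τ e - e := by
    have h1 : push φ z0 = d' := by rw [hz0]; exact push_shp ψ φ h21 hPd'.tc
    have h3 : push ψ e' = e := by rw [he']; exact push_shp φ ψ h12 hPe.tc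
    rw [← push_push φ ψ h12 z0, h1, hd', push_sub, ← push_TA, h3]
  refine ⟨z0 + e, hPz0.add hPe, ?_, fun g hg => ?_⟩
  · have h5 : TA hN τ e = TA hN τ (TA hN τ c) - TA hN τ c := by
      rw [he, sub_eq_add_neg, TA_add, TA_neg, sub_eq_add_neg]
    have h6 : z0 + e + (z0 + e) = (z0 + z0) + (e + e) := by abel
    rw [h6, hz0e, h5, he]
    abel
  · obtain ⟨f', hf'⟩ := pf_exists hR' k' (hPe'.tc.coc 1) (two_tc hPe'.tc)
    obtain ⟨g0, hg0⟩ := pf_exists hR k' (hPz0.tc.coc 1) (two_tc hPz0.tc)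
    have hf1 : PF (Wc K (-2 * a) (a ^ 2 - 4 * b)) (shp (isoN D1) (TA hN τ c - c) 1) f' := by
      rw [← he, ← hφ, ← he']
      exact hf'
    have hg1 : PF (Wc K a b) (shp (isoN D2) (TA hN τ e' - e') 1) g0 := by
      rw [← hd', ← hψ, ← hz0]
      exact hg0
    obtain ⟨κ, hκ⟩ := frm hT hS hR hN hH hc hs hτ hsb hsd D1 hf hf1
    obtain ⟨κ', hκ'⟩ := frm hT hS' hR' hN hH hPe' hs hτ' hsd
      (fun θ hθ => hsb θ ((root_dual hS.h2).1 hθ)) D2 hf' hg1
    refine ⟨f', κ, κ', hκ, fun θ hθ => ?_⟩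
    rw [← hκ' θ ((root_dual hS.h2).2 hθ)]
    -- the parity of `e` is zero
    have he0 : PF (Wc K a b) (e 1) (0 : k' → ZMod 2) := by
      refine ⟨1, 1, one_ne_zero, by rw [one_pow, map_one], fun σ => ?_, fun θ => (par_one _).symm⟩
      rw [map_one, mul_one]
      rcases hone σ with h | h
      · rw [h]; rfl
      · rw [h, s0_pt0]
    have hadd := pf_add hR hg0 he0 (two_tc hPz0.tc) (two_tc hPe.tc)
    have := pf_unique (W := Wc K a b) (g := (z0 + e) 1) hg hadd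
    rw [this, add_zero]

end tow

end Pool.Agent.K9h16.QT
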